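import Mathlib

/-! # [H99 UC DSC] The resultant of `p` and `p'` through the roots, and integers far from all roots

`res_prod`: if `p = a ∏ (X - r_i)`, `n` factors, then `Res(p, p') = a^(2n-1) ∏_i ∏_(j ≠ i) (r_i - r_j)`.
`res_le`: if `y` has distance `≥ ρ > 0` from all the roots and `|p(y)| ≤ H` then
`ρ^(n(n-1)) |Res(p,p')| ≤ |a| 2^(n(n-1)) H^(2(n-1))`. -/

namespace Pool.Agent.H99.UC

open Polynomial Finset

theorem eval_deriv_prod {n : ℕ} (r : Fin n → ℂ) (k : Fin n) :
    eval (r k) (derivative (∏ i, (X - C (r i)))) = ∏ j ∈ univ.erase k, (r k - r j) := by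
  rw [derivative_prod_finset, eval_finsetSum, Finset.sum_eq_single k]
  · rw [eval_mul, eval_prod]
    simp
  · intro b _ hb
    rw [eval_mul, eval_prod]
    have : ∏ j ∈ univ.erase b, eval (r k) (X - C (r j)) = 0 :=
      Finset.prod_eq_zero (Finset.mem_erase.2 ⟨hb.symm, Finset.mem_univ k⟩) (by simp)
    rw [this, zero_mul]
  · intro h
    exact absurd (Finset.mem_univ k) h

theorem res_prod {n : ℕ} (hn : 1 ≤ n) (a : ℂ) (ha : a ≠ 0) (r : Fin n → ℂ) (p : ℂ[X])
    (hp : p = C a * ∏ i, (X - C (r i))) :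
    resultant p (derivative p) n (n - 1) = a ^ (2 * n - 1) * ∏ k, ∏ j ∈ univ.erase k, (r k - r j) := by
  have hmon : (∏ i, (X - C (r i)) : ℂ[X]).Monic := monic_prod_of_monic _ _ fun i _ => monic_X_sub_C _
  have hdeg : (∏ i, (X - C (r i)) : ℂ[X]).natDegree = n := by
    rw [natDegree_prod_of_monic _ _ fun i _ => monic_X_sub_C _]
    simp
  have hpd : p.natDegree = n := by
    rw [hp, natDegree_C_mul ha, hdeg]
  have hlc : p.leadingCoeff = a := by
    rw [hp, leadingCoeff_mul, leadingCoeff_C, hmon.leadingCoeff, mul_one]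
  have hroots : p.roots = (univ : Finset (Fin n)).val.map r := by
    rw [hp, roots_C_mul _ ha, Polynomial.roots_prod _ _ hmon.ne_zero]
    simp
  have hsp : p.Splits := IsAlgClosed.splits p
  have h1 := resultant_eq_prod_eval p (derivative p) (n - 1) (by
    have := natDegree_derivative_le p
    omega) hsp
  rw [hpd, hlc, hroots] at h1
  rw [h1, Multiset.map_map]
  have h2 : (Multiset.map ((fun x => eval x (derivative p)) ∘ r) (univ : Finset (Fin n)).val).prod =
      ∏ k, (a * ∏ j ∈ univ.erase k, (r k - r j)) := by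
    show ∏ k, _ = _
    refine Finset.prod_congr rfl fun k _ => ?_
    simp only [Function.comp]
    rw [hp, derivative_C_mul, eval_C_mul, eval_deriv_prod]
  have h3 : Multiset.map (fun x => eval x (derivative p)) = Multiset.map (eval · (derivative p)) := rfl
  rw [h2, Finset.prod_mul_distrib]
  simp only [Finset.prod_const, Finset.card_univ, Fintype.card_fin]
  rw [← mul_assoc, ← pow_add]
  congr 2
  omega

/-- a product over ordered pairs -/
theorem pairs_prod {n : ℕ} (hn : 1 ≤ n) (e : Fin n → ℝ) (c : ℝ) :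
    ∏ k, ∏ j ∈ univ.erase k, (c * (e k * e j)) = c ^ (n * (n - 1)) * (∏ i, e i) ^ (2 * (n - 1)) := by
  have hcard : ∀ k : Fin n, (univ.erase k).card = n - 1 := by
    intro k
    rw [Finset.card_erase_of_mem (Finset.mem_univ k)]
    simp
  have h1 : ∀ k : Fin n, ∏ j ∈ univ.erase k, (c * (e k * e j)) =
      c ^ (n - 1) * (e k ^ (n - 1) * ∏ j ∈ univ.erase k, e j) := by
    intro k
    rw [Finset.prod_mul_distrib, Finset.prod_mul_distrib]
    simp only [Finset.prod_const, hcard]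
  have h2 : ∀ k : Fin n, e k ^ (n - 1) * ∏ j ∈ univ.erase k, e j = e k ^ (n - 1) * ∏ j ∈ univ.erase k, e j := fun _ => rfl
  have h3 : ∏ k, ∏ j ∈ univ.erase k, e j = (∏ i, e i) ^ (n - 1) := by
    have h4 : ∏ k : Fin n, ∏ j ∈ univ.erase k, e j = ∏ j : Fin n, ∏ k ∈ univ.erase j, e j := by
      rw [Finset.prod_comm' (s := univ) (t := fun k => univ.erase k) (t' := univ) (s' := fun j => univ.erase j)]
      intro x y
      simp [eq_comm]
    rw [h4, ← Finset.prod_pow]
    refine Finset.prod_congr rfl fun j _ => ?_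
    rw [Finset.prod_const, hcard]
  have h5 : ∏ k : Fin n, e k ^ (n - 1) = (∏ i, e i) ^ (n - 1) := Finset.prod_pow _ _ _
  rw [Finset.prod_congr rfl fun k _ => h1 k, Finset.prod_mul_distrib, Finset.prod_mul_distrib, h3, h5]
  simp only [Finset.prod_const, Finset.card_univ, Fintype.card_fin]
  rw [← pow_mul, ← pow_add]
  congr 2
  · ring
  · omega

theorem dist_le {n : ℕ} (hn : 1 ≤ n) (r : Fin n → ℂ) (y : ℂ) (ρ : ℝ) (hρ : 0 < ρ) (hr : ∀ i, ρ ≤ ‖y - r i‖) :
    ‖∏ k, ∏ j ∈ univ.erase k, (r k - r j)‖ ≤ (2 / ρ) ^ (n * (n - 1)) * (∏ i, ‖y - r i‖) ^ (2 * (n - 1)) := by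
  rw [← pairs_prod hn]
  rw [norm_prod]
  refine Finset.prod_le_prod (fun _ _ => norm_nonneg _) fun k _ => ?_
  rw [norm_prod]
  refine Finset.prod_le_prod (fun _ _ => norm_nonneg _) fun j _ => ?_
  have h1 : ‖r k - r j‖ ≤ ‖y - r k‖ + ‖y - r j‖ := by
    have : r k - r j = -(y - r k) + (y - r j) := by ring
    rw [this]
    refine (norm_add_le _ _).trans ?_
    rw [norm_neg]
  refine h1.trans ?_
  have ha := hr k
  have hb := hr j
  rw [div_mul_eq_mul_div, le_div_iff₀ hρ]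
  nlinarith [mul_le_mul_of_nonneg_left hb (norm_nonneg (y - r k)), mul_le_mul_of_nonneg_left ha (norm_nonneg (y - r j))]

/-- an integer polynomial through its complex roots -/
theorem factor (n : ℕ) (p : ℤ[X]) (hp : p.natDegree = n) (hp0 : p ≠ 0) : ∃ r : Fin n → ℂ,
    p.map (Int.castRingHom ℂ) = C ((p.leadingCoeff : ℤ) : ℂ) * ∏ i, (X - C (r i)) := by
  have hinj : Function.Injective (Int.castRingHom ℂ) := Int.cast_injective
  have hsp : (p.map (Int.castRingHom ℂ)).Splits := IsAlgClosed.splits _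
  have h1 := hsp.eq_prod_roots
  have hcard : Multiset.card (p.map (Int.castRingHom ℂ)).roots = n := by
    rw [← hsp.natDegree_eq_card_roots, natDegree_map_eq_of_injective hinj, hp]
  obtain ⟨l, hl⟩ : ∃ l : List ℂ, (l : Multiset ℂ) = (p.map (Int.castRingHom ℂ)).roots := Quot.exists_rep _
  have hlen : l.length = n := by
    rw [← hcard, ← hl]
    rfl
  subst hlen
  refine ⟨fun i => l.get i, ?_⟩
  conv_lhs => rw [h1]
  rw [leadingCoeff_map_of_injective hinj, ← hl]
  congr 1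
  rw [Multiset.map_coe, Multiset.prod_coe, ← List.prod_ofFn]
  congr 1
  apply List.ext_getElem
  · simp
  · intro i h1 h2
    simp

/-- an integer far from all roots with a small value: the resultant of `p`, `p'` is small -/
theorem res_le (n : ℕ) (hn : 2 ≤ n) (p : ℤ[X]) (hp : p.natDegree = n) (r : Fin n → ℂ)
    (hr : p.map (Int.castRingHom ℂ) = C ((p.leadingCoeff : ℤ) : ℂ) * ∏ i, (X - C (r i)))
    (y : ℤ) (H : ℝ) (hy : |((p.eval y : ℤ) : ℝ)| ≤ H) (hd : ∀ i, 1 ≤ ‖(y : ℂ) - r i‖) :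
    |((resultant p (derivative p) n (n - 1) : ℤ) : ℝ)| ≤ |((p.leadingCoeff : ℤ) : ℝ)| * (2 ^ (n * (n - 1)) * H ^ (2 * (n - 1))) := by
  have hp0 : p ≠ 0 := by
    rintro rfl
    rw [natDegree_zero] at hp
    omega
  have ha : ((p.leadingCoeff : ℤ) : ℂ) ≠ 0 := by
    exact_mod_cast leadingCoeff_ne_zero.2 hp0
  have h1 := res_prod (by omega) _ ha r _ hr
  rw [derivative_map, resultant_map_map] at h1
  have h2 : |((resultant p (derivative p) n (n - 1) : ℤ) : ℝ)| = ‖((resultant p (derivative p) n (n - 1) : ℤ) : ℂ)‖ := by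
    rw [Complex.norm_intCast]
  have h3 : ((resultant p (derivative p) n (n - 1) : ℤ) : ℂ) = _ := h1
  rw [h2, h3, norm_mul, norm_pow, Complex.norm_intCast]
  have h4 := dist_le (by omega : 1 ≤ n) r (y : ℂ) 1 one_pos hd
  rw [div_one] at h4
  have h5 : |((p.leadingCoeff : ℤ) : ℝ)| * ∏ i, ‖(y : ℂ) - r i‖ ≤ H := by
    have h6 : ((p.eval y : ℤ) : ℂ) = ((p.leadingCoeff : ℤ) : ℂ) * ∏ i, ((y : ℂ) - r i) := by
      have h7 : ((p.eval y : ℤ) : ℂ) = (p.map (Int.castRingHom ℂ)).eval (y : ℂ) := by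
        rw [eval_intCast_map]
        simp
      rw [h7, hr, eval_mul, eval_C, eval_prod]
      simp
    have h8 : ‖((p.eval y : ℤ) : ℂ)‖ ≤ H := by
      rw [Complex.norm_intCast]
      exact hy
    rw [h6, norm_mul, Complex.norm_intCast, norm_prod] at h8
    exact h8
  have hA : (0 : ℝ) ≤ |((p.leadingCoeff : ℤ) : ℝ)| := abs_nonneg _
  have hP : (0 : ℝ) ≤ ∏ i, ‖(y : ℂ) - r i‖ := Finset.prod_nonneg fun _ _ => norm_nonneg _
  have hpow : |((p.leadingCoeff : ℤ) : ℝ)| ^ (2 * n - 1) =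
      |((p.leadingCoeff : ℤ) : ℝ)| * |((p.leadingCoeff : ℤ) : ℝ)| ^ (2 * (n - 1)) := by
    rw [← pow_succ']
    congr 1
    omega
  calc |((p.leadingCoeff : ℤ) : ℝ)| ^ (2 * n - 1) * ‖∏ k, ∏ j ∈ univ.erase k, (r k - r j)‖
      ≤ |((p.leadingCoeff : ℤ) : ℝ)| ^ (2 * n - 1) * (2 ^ (n * (n - 1)) * (∏ i, ‖(y : ℂ) - r i‖) ^ (2 * (n - 1))) :=
        mul_le_mul_of_nonneg_left h4 (pow_nonneg hA _)
    _ = |((p.leadingCoeff : ℤ) : ℝ)| * (2 ^ (n * (n - 1)) *
        (|((p.leadingCoeff : ℤ) : ℝ)| * ∏ i, ‖(y : ℂ) - r i‖) ^ (2 * (n - 1))) := by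
        rw [hpow, mul_pow]
        ring
    _ ≤ _ := by
        refine mul_le_mul_of_nonneg_left (mul_le_mul_of_nonneg_left ?_ (by positivity)) hA
        exact pow_le_pow_left₀ (mul_nonneg hA hP) h5 _

/-- integers within distance `< 1` of `n` complex numbers -/
theorem near_card (n : ℕ) (r : Fin n → ℂ) (T : Finset ℤ) (hT : ∀ y ∈ T, ∃ i, ‖(y : ℂ) - r i‖ < 1) :
    T.card ≤ n * 2 := by
  classical
  have hsub : T ⊆ (univ : Finset (Fin n)).biUnion fun i => T.filter fun y => ‖(y : ℂ) - r i‖ < 1 := by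
    intro y hy
    obtain ⟨i, hi⟩ := hT y hy
    exact Finset.mem_biUnion.2 ⟨i, Finset.mem_univ i, Finset.mem_filter.2 ⟨hy, hi⟩⟩
  refine (Finset.card_le_card hsub).trans (Finset.card_biUnion_le.trans ?_)
  have h1 : ∀ i ∈ (univ : Finset (Fin n)), (T.filter fun y : ℤ => ‖(y : ℂ) - r i‖ < 1).card ≤ 2 := by
    intro i _
    have h2 : (T.filter fun y : ℤ => ‖(y : ℂ) - r i‖ < 1) ⊆ {⌊(r i).re⌋, ⌊(r i).re⌋ + 1} := by
      intro y hy
      have h3 := (Finset.mem_filter.1 hy).2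
      have h4 : |(y : ℝ) - (r i).re| < 1 := by
        refine lt_of_le_of_lt ?_ h3
        have := Complex.abs_re_le_norm ((y : ℂ) - r i)
        simpa using this
      rw [abs_lt] at h4
      have h5 := Int.floor_le (r i).re
      have h6 := Int.lt_floor_add_one (r i).re
      have h7 : (y : ℝ) < ((⌊(r i).re⌋ + 2 : ℤ) : ℝ) := by
        push_cast
        linarith
      have h8 : ((⌊(r i).re⌋ - 1 : ℤ) : ℝ) < y := by
        push_cast
        linarith
      have h9 : y < ⌊(r i).re⌋ + 2 := by exact_mod_cast h7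
      have h10 : ⌊(r i).re⌋ - 1 < y := by exact_mod_cast h8
      rw [Finset.mem_insert, Finset.mem_singleton]
      omega
    exact (Finset.card_le_card h2).trans Finset.card_le_two
  refine (Finset.sum_le_card_nsmul _ _ _ h1).trans ?_
  simp

end Pool.Agent.H99.UC
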