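import Pool.Agent.H8.AA.Cls
import Pool.Agent.H99.UC.Dsc

/-! # [H99 UC DPOL] The discriminant of `F(x,·)` as a polynomial in `x`: degree exactly `n(n-1)` -/

namespace Pool.Agent.H99.UC

open Polynomial Pool.Agent.H8.AA

/-- `F(x,Y)` as a polynomial in `Y` over `ℤ[x]`. -/
noncomputable def biv (n : ℕ) (e : ℕ → ℕ → ℤ) : ℤ[X][X] :=
  ∑ k ∈ Finset.range (n + 1), ∑ j ∈ Finset.range (k + 1), monomial j (C (e (k - j) j) * X ^ (k - j))

/-- `∑_k u^(n-k) φ_k(Y)` as a polynomial in `Y` over `ℤ[u]`. -/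
noncomputable def hom (n : ℕ) (e : ℕ → ℕ → ℤ) : ℤ[X][X] :=
  ∑ k ∈ Finset.range (n + 1), ∑ j ∈ Finset.range (k + 1), monomial j (C (e (k - j) j) * X ^ (n - k))

/-- the polynomial `F(x,·)` for an integer `x` -/
noncomputable def spe (n : ℕ) (e : ℕ → ℕ → ℤ) (x : ℤ) : ℤ[X] := (biv n e).map (evalRingHom x)

theorem spe_eval (n : ℕ) (e : ℕ → ℕ → ℤ) (x y : ℤ) : (spe n e x).eval y = ev n e x y := by
  unfold spe biv ev
  rw [Polynomial.map_sum, eval_finsetSum]
  refine Finset.sum_congr rfl fun k _ => ?_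
  rw [Polynomial.map_sum, eval_finsetSum]
  refine Finset.sum_congr rfl fun j _ => ?_
  simp [mul_assoc]

/-- coefficients of `Σ_k Σ_(j ≤ k) monomial j (c k j)` -/
theorem coeff_dsum {R : Type*} [Semiring R] (n : ℕ) (c : ℕ → ℕ → R) (i : ℕ) :
    (∑ k ∈ Finset.range (n + 1), ∑ j ∈ Finset.range (k + 1), monomial j (c k j) : R[X]).coeff i =
      ∑ k ∈ Finset.range (n + 1), if i ≤ k then c k i else 0 := by
  rw [finsetSum_coeff]
  refine Finset.sum_congr rfl fun k _ => ?_
  rw [finsetSum_coeff]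
  simp only [coeff_monomial]
  rw [Finset.sum_ite_eq' (Finset.range (k + 1)) i]
  simp only [Finset.mem_range, Nat.lt_succ_iff]

theorem deg_dsum {R : Type*} [Semiring R] (n : ℕ) (c : ℕ → ℕ → R) :
    (∑ k ∈ Finset.range (n + 1), ∑ j ∈ Finset.range (k + 1), monomial j (c k j) : R[X]).natDegree ≤ n := by
  rw [natDegree_le_iff_coeff_eq_zero]
  intro i hi
  rw [coeff_dsum]
  refine Finset.sum_eq_zero fun k hk => ?_
  have := Finset.mem_range.1 hk
  rw [if_neg (by omega)]

theorem top_dsum {R : Type*} [Semiring R] (n : ℕ) (c : ℕ → ℕ → R) :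
    (∑ k ∈ Finset.range (n + 1), ∑ j ∈ Finset.range (k + 1), monomial j (c k j) : R[X]).coeff n = c n n := by
  rw [coeff_dsum, Finset.sum_eq_single n]
  · rw [if_pos le_rfl]
  · intro k hk hkn
    have := Finset.mem_range.1 hk
    rw [if_neg (by omega)]
  · intro h
    exact absurd (Finset.mem_range.2 (by omega)) h

theorem spe_deg (n : ℕ) (e : ℕ → ℕ → ℤ) (h : e 0 n ≠ 0) (x : ℤ) :
    (spe n e x).natDegree = n ∧ (spe n e x).leadingCoeff = e 0 n := by
  have hle : (spe n e x).natDegree ≤ n := natDegree_map_le.trans (deg_dsum n _)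
  have hc : (spe n e x).coeff n = e 0 n := by
    unfold spe biv
    rw [coeff_map, top_dsum]
    simp
  have hd : (spe n e x).natDegree = n := le_antisymm hle (le_natDegree_of_ne_zero (by rw [hc]; exact h))
  exact ⟨hd, by rw [leadingCoeff, hd, hc]⟩

/-- the discriminant, up to the factor `e_0n` -/
noncomputable def dis (n : ℕ) (e : ℕ → ℕ → ℤ) : ℤ[X] := resultant (biv n e) (derivative (biv n e)) n (n - 1)

/-- the homogenized discriminant -/
noncomputable def hds (n : ℕ) (e : ℕ → ℕ → ℤ) : ℤ[X] := resultant (hom n e) (derivative (hom n e)) n (n - 1)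

theorem dis_eval (n : ℕ) (e : ℕ → ℕ → ℤ) (x : ℤ) :
    (dis n e).eval x = resultant (spe n e x) (derivative (spe n e x)) n (n - 1) := by
  unfold dis spe
  rw [derivative_map, resultant_map_map]
  rfl

/-- the homomorphism `ℤ[X] → ℂ`, `X ↦ z` -/
noncomputable def evc (z : ℂ) : ℤ[X] →+* ℂ := eval₂RingHom (Int.castRingHom ℂ) z

theorem evc_cx (z : ℂ) (a : ℤ) (m : ℕ) : evc z (C a * X ^ m) = (a : ℂ) * z ^ m := by
  unfold evc
  rw [map_mul, map_pow]
  rw [coe_eval₂RingHom, eval₂_C, eval₂_X]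
  rfl

theorem evc_dis (n : ℕ) (e : ℕ → ℕ → ℤ) (z : ℂ) :
    evc z (dis n e) = resultant ((biv n e).map (evc z)) (derivative ((biv n e).map (evc z))) n (n - 1) := by
  unfold dis
  rw [derivative_map, resultant_map_map]

theorem evc_hds (n : ℕ) (e : ℕ → ℕ → ℤ) (z : ℂ) :
    evc z (hds n e) = resultant ((hom n e).map (evc z)) (derivative ((hom n e).map (evc z))) n (n - 1) := by
  unfold hds
  rw [derivative_map, resultant_map_map]

theorem splits_fin (n : ℕ) (p : ℂ[X]) (hp : p.natDegree = n) : ∃ r : Fin n → ℂ,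
    p = C p.leadingCoeff * ∏ i, (X - C (r i)) := by
  have hsp : p.Splits := IsAlgClosed.splits _
  have h1 := hsp.eq_prod_roots
  have hcard : Multiset.card p.roots = n := by
    rw [← hsp.natDegree_eq_card_roots, hp]
  obtain ⟨l, hl⟩ : ∃ l : List ℂ, (l : Multiset ℂ) = p.roots := Quot.exists_rep _
  have hlen : l.length = n := by
    rw [← hcard, ← hl]
    rfl
  subst hlen
  refine ⟨fun i => l.get i, ?_⟩
  conv_lhs => rw [h1]
  rw [← hl]
  congr 1
  rw [Multiset.map_coe, Multiset.prod_coe, ← List.prod_ofFn]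
  congr 1
  apply List.ext_getElem
  · simp
  · intro i h1 h2
    simp

/-- `F(z, z T) = z^n G_(1/z)(T)` coefficientwise -/
theorem coeff_rel (n : ℕ) (e : ℕ → ℕ → ℤ) (z : ℂ) (hz : z ≠ 0) (i : ℕ) :
    z ^ i * ((biv n e).map (evc z)).coeff i = z ^ n * ((hom n e).map (evc z⁻¹)).coeff i := by
  unfold biv hom
  rw [coeff_map, coeff_map, coeff_dsum, coeff_dsum, map_sum, map_sum, Finset.mul_sum, Finset.mul_sum]
  refine Finset.sum_congr rfl fun k hk => ?_
  have hk' : k ≤ n := by
    have := Finset.mem_range.1 hk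
    omega
  by_cases hi : i ≤ k
  · rw [if_pos hi, if_pos hi]
    have h1 : evc z (C (e (k - i) i) * X ^ (k - i)) = (e (k - i) i : ℂ) * z ^ (k - i) := evc_cx _ _ _
    have h2 : evc z⁻¹ (C (e (k - i) i) * X ^ (n - k)) = (e (k - i) i : ℂ) * z⁻¹ ^ (n - k) := evc_cx _ _ _
    rw [h1, h2]
    have h3 : z ^ i * z ^ (k - i) = z ^ k := by
      rw [← pow_add]
      congr 1
      omega
    have h4 : z ^ n * z⁻¹ ^ (n - k) = z ^ k := by
      rw [inv_pow, ← div_eq_mul_inv, div_eq_iff (pow_ne_zero _ hz), ← pow_add]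
      congr 1
      omega
    calc z ^ i * ((e (k - i) i : ℂ) * z ^ (k - i)) = (e (k - i) i : ℂ) * (z ^ i * z ^ (k - i)) := by ring
      _ = (e (k - i) i : ℂ) * (z ^ n * z⁻¹ ^ (n - k)) := by rw [h3, h4]
      _ = _ := by ring
  · rw [if_neg hi, if_neg hi]
    simp

/-- the resultants: `D(z) = z^(n(n-1)) R(1/z)` -/
theorem dis_hds (n : ℕ) (hn : 2 ≤ n) (e : ℕ → ℕ → ℤ) (h : e 0 n ≠ 0) (z : ℂ) (hz : z ≠ 0) :
    evc z (dis n e) = z ^ (n * (n - 1)) * evc z⁻¹ (hds n e) := by
  have ha : ((e 0 n : ℤ) : ℂ) ≠ 0 := by exact_mod_cast h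
  have hGle : ((hom n e).map (evc z⁻¹)).natDegree ≤ n := natDegree_map_le.trans (deg_dsum n _)
  have hGc : ((hom n e).map (evc z⁻¹)).coeff n = (e 0 n : ℂ) := by
    unfold hom
    rw [coeff_map, top_dsum]
    simp [evc]
  have hGd : ((hom n e).map (evc z⁻¹)).natDegree = n :=
    le_antisymm hGle (le_natDegree_of_ne_zero (by rw [hGc]; exact ha))
  have hGl : ((hom n e).map (evc z⁻¹)).leadingCoeff = (e 0 n : ℂ) := by
    rw [leadingCoeff, hGd, hGc]
  obtain ⟨t, ht⟩ := splits_fin n _ hGd
  rw [hGl] at ht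
  have hF : (biv n e).map (evc z) = C (e 0 n : ℂ) * ∏ i, (X - C (z * t i)) := by
    have h1 : ((biv n e).map (evc z)).comp (C z * X) = C (z ^ n) * (hom n e).map (evc z⁻¹) := by
      ext i
      rw [comp_C_mul_X_coeff, coeff_C_mul, ← coeff_rel n e z hz i]
      ring
    have h2 : (C (e 0 n : ℂ) * ∏ i, (X - C (z * t i)) : ℂ[X]).comp (C z * X) = C (z ^ n) * (hom n e).map (evc z⁻¹) := by
      rw [ht, mul_comp, prod_comp, C_comp]
      have h3 : ∀ i : Fin n, (X - C (z * t i) : ℂ[X]).comp (C z * X) = C z * (X - C (t i)) := by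
        intro i
        rw [sub_comp, X_comp, C_comp, C_mul]
        ring
      rw [Finset.prod_congr rfl fun i _ => h3 i, Finset.prod_mul_distrib]
      simp only [Finset.prod_const, Finset.card_univ, Fintype.card_fin, map_pow]
      ring
    have h4 : ∀ p q : ℂ[X], p.comp (C z * X) = q.comp (C z * X) → p = q := by
      intro p q hpq
      ext i
      have h5 := congrArg (fun s => coeff s i) hpq
      simp only [comp_C_mul_X_coeff] at h5
      exact mul_right_cancel₀ (pow_ne_zero i hz) h5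
    exact h4 _ _ (h1.trans h2.symm)
  rw [evc_dis, evc_hds, res_prod (by omega) _ ha _ _ hF, res_prod (by omega) _ ha _ _ ht]
  have h6 : ∏ k : Fin n, ∏ j ∈ Finset.univ.erase k, (z * t k - z * t j) =
      z ^ (n * (n - 1)) * ∏ k : Fin n, ∏ j ∈ Finset.univ.erase k, (t k - t j) := by
    have h7 : ∀ k : Fin n, ∏ j ∈ Finset.univ.erase k, (z * t k - z * t j) =
        z ^ (n - 1) * ∏ j ∈ Finset.univ.erase k, (t k - t j) := by
      intro k
      have h8 : ∀ j ∈ Finset.univ.erase k, z * t k - z * t j = z * (t k - t j) := fun j _ => by ring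
      rw [Finset.prod_congr rfl h8, Finset.prod_mul_distrib, Finset.prod_const,
        Finset.card_erase_of_mem (Finset.mem_univ k)]
      simp
    rw [Finset.prod_congr rfl fun k _ => h7 k, Finset.prod_mul_distrib]
    simp only [Finset.prod_const, Finset.card_univ, Fintype.card_fin]
    rw [← pow_mul, mul_comm (n - 1) n]
  rw [h6]
  ring

/-- `R(0) ≠ 0` -/
theorem hds_zero (n : ℕ) (hn : 2 ≤ n) (e : ℕ → ℕ → ℤ) (h : Ir n e) : (hds n e).coeff 0 ≠ 0 := by
  obtain ⟨h0, hirr⟩ := h
  have h1 : (hom n e).map (evalRingHom (0 : ℤ)) = fm e n := by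
    ext i
    unfold hom
    rw [coeff_map, coeff_dsum, map_sum, fm_coeff, Finset.sum_eq_single n]
    · by_cases hi : i ≤ n
      · rw [if_pos hi, if_pos hi]
        simp
      · rw [if_neg hi, if_neg hi]
        simp
    · intro k hk hkn
      have := Finset.mem_range.1 hk
      split_ifs
      · simp only [coe_evalRingHom, eval_mul, eval_C, eval_pow, eval_X]
        rw [zero_pow (by omega), mul_zero]
      · simp
    · intro hh
      exact absurd (Finset.mem_range.2 (by omega)) hh
  have h2 : (hds n e).coeff 0 = resultant (fm e n) (derivative (fm e n)) n (n - 1) := by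
    rw [coeff_zero_eq_eval_zero, ← h1, derivative_map, resultant_map_map]
    rfl
  have hd : (fm e n).natDegree = n := by
    refine le_antisymm (fm_deg e n) (le_natDegree_of_ne_zero ?_)
    rw [fm_coeff, if_pos le_rfl, Nat.sub_self]
    exact h0
  rw [h2]
  intro h3
  have hinj : Function.Injective (Int.castRingHom ℚ) := Int.cast_injective
  have hdq : ((fm e n).map (Int.castRingHom ℚ)).natDegree = n := by
    rw [natDegree_map_eq_of_injective hinj, hd]
  have hcop : IsCoprime ((fm e n).map (Int.castRingHom ℚ)) (derivative ((fm e n).map (Int.castRingHom ℚ))) :=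
    hirr.separable
  have h4 := resultant_ne_zero _ _ hcop
  have hdd : (derivative ((fm e n).map (Int.castRingHom ℚ))).natDegree = n - 1 := by
    rw [natDegree_eq_of_degree_eq_some (degree_derivative_eq _ (by omega)), hdq]
  rw [hdq, hdd, derivative_map, resultant_map_map, h3] at h4
  exact h4 (map_zero _)

/-- **the degree of the discriminant** -/
theorem dis_deg (n : ℕ) (hn : 2 ≤ n) (e : ℕ → ℕ → ℤ) (h : Ir n e) : (dis n e).natDegree = n * (n - 1) := by
  have hR := hds_zero n hn e h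
  have hR0 : hds n e ≠ 0 := fun h0 => hR (by rw [h0, coeff_zero])
  have hrev : (hds n e).reverse.natDegree = (hds n e).natDegree := by
    rw [reverse_natDegree, natTrailingDegree_eq_zero.2 (Or.inr hR), Nat.sub_zero]
  have hrev0 : (hds n e).reverse ≠ 0 := by
    rwa [Ne, reverse_eq_zero]
  have hinj : Function.Injective (Int.castRingHom ℂ) := Int.cast_injective
  have hid : dis n e * X ^ (hds n e).natDegree = X ^ (n * (n - 1)) * (hds n e).reverse := by
    apply Polynomial.map_injective _ hinj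
    apply Polynomial.eq_of_infinite_eval_eq
    refine Set.Infinite.mono (s := {z : ℂ | z ≠ 0}) ?_ (Set.finite_singleton (0 : ℂ)).infinite_compl
    · intro z hz
      have hz' : z ≠ 0 := hz
      have he : ∀ q : ℤ[X], eval z (q.map (Int.castRingHom ℂ)) = evc z q := by
        intro q
        rw [eval_map]
        rfl
      show eval z _ = eval z _
      rw [he, he, map_mul, map_mul, map_pow, map_pow]
      have hX : evc z X = z := by
        unfold evc
        rw [coe_eval₂RingHom, eval₂_X]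
      rw [hX, dis_hds n hn e h.1 z hz']
      have hinv : evc z⁻¹ (hds n e) * z ^ (hds n e).natDegree = evc z (hds n e).reverse := by
        haveI : Invertible (z⁻¹) := invertibleOfNonzero (inv_ne_zero hz')
        have h5 := eval₂_reverse_mul_pow (Int.castRingHom ℂ) z⁻¹ (hds n e)
        rw [invOf_eq_inv, inv_inv] at h5
        have h6 : evc z (hds n e).reverse * z⁻¹ ^ (hds n e).natDegree = evc z⁻¹ (hds n e) := h5
        rw [← h6, mul_assoc, ← mul_pow, inv_mul_cancel₀ hz', one_pow, mul_one]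
      rw [mul_assoc, hinv]
  have h1 := congrArg natDegree hid
  have hdis0 : dis n e ≠ 0 := by
    intro h0
    rw [h0, zero_mul] at hid
    exact (mul_ne_zero (pow_ne_zero _ X_ne_zero) hrev0) hid.symm
  rw [natDegree_mul hdis0 (pow_ne_zero _ X_ne_zero), natDegree_mul (pow_ne_zero _ X_ne_zero) hrev0,
    natDegree_X_pow, natDegree_X_pow, hrev] at h1
  omega

end Pool.Agent.H99.UC
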