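import Pool.Agent.H8.AA.Lin
import Pool.Agent.H99.UC.Dpol

/-! # [H99 UC SM3] The small range: at most `C (R + H^(3/n))` integer points with `|F| ≤ H`, `|x| ≤ R`

Only the leading form is fixed. If some `y` with `|F(x,y)| ≤ H` has distance `≥ 1` from all roots of `F(x,·)` then the discriminant of `F(x,·)`,
a polynomial in `x` of degree exactly `n(n-1)`, is `≤ |e_0n| 2^(n(n-1)) H^(2(n-1))` (`res_le`): `C (H^(2/n) + 1)` values of `x` (`lin`), each with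
`≤ n (2 H^(1/n) + 1)` points; for all other `x` there are `≤ 2 n` points. -/

namespace Pool.Agent.H99.UC

open Polynomial Pool.Agent.H8.AA

/-- one fibre, discriminant large -/
theorem fib_small (n : ℕ) (hn : 2 ≤ n) (e : ℕ → ℕ → ℤ) (h : e 0 n ≠ 0) (H : ℝ) (x : ℤ)
    (hx : |((e 0 n : ℤ) : ℝ)| * (2 ^ (n * (n - 1)) * H ^ (2 * (n - 1))) < |(((dis n e).eval x : ℤ) : ℝ)|) (T : Finset ℤ)
    (hT : ∀ y ∈ T, |((ev n e x y : ℤ) : ℝ)| ≤ H) : T.card ≤ n * 2 := by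
  obtain ⟨hd, hl⟩ := spe_deg n e h x
  have hp0 : spe n e x ≠ 0 := by
    intro h0
    rw [h0, natDegree_zero] at hd
    omega
  obtain ⟨r, hr⟩ := factor n (spe n e x) hd hp0
  refine near_card n r T fun y hy => ?_
  by_contra hcon
  push Not at hcon
  have h1 := res_le n hn (spe n e x) hd r hr y H (by rw [spe_eval]; exact hT y hy) hcon
  rw [hl, ← dis_eval] at h1
  exact absurd hx (not_lt.2 h1)

/-- a fibre in general -/
theorem fib_gen (n : ℕ) (hn : 2 ≤ n) (e : ℕ → ℕ → ℤ) (h : e 0 n ≠ 0) (H : ℝ) (hH : 1 ≤ H) (x : ℤ) (T : Finset ℤ)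
    (hT : ∀ y ∈ T, |((ev n e x y : ℤ) : ℝ)| ≤ H) : (T.card : ℝ) ≤ n * (2 * H ^ (1 / (n : ℝ)) + 1) := by
  obtain ⟨hd, hl⟩ := spe_deg n e h x
  refine lin n (by omega) (spe n e x) hd H hH T fun y hy => ?_
  rw [spe_eval]
  exact hT y hy

/-- the constant `|a|^(1/M)` is at most `|a|` -/
theorem few_x (n : ℕ) (hn : 2 ≤ n) (e : ℕ → ℕ → ℤ) (h : Ir n e) (H : ℝ) (hH : 1 ≤ H) (U : Finset ℤ)
    (hU : ∀ x ∈ U, |(((dis n e).eval x : ℤ) : ℝ)| ≤ |((e 0 n : ℤ) : ℝ)| * (2 ^ (n * (n - 1)) * H ^ (2 * (n - 1)))) :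
    (U.card : ℝ) ≤ (n * (n - 1) : ℕ) * (4 * |((e 0 n : ℤ) : ℝ)| * H ^ (2 / (n : ℝ)) + 1) := by
  have hM : 1 ≤ n * (n - 1) := Nat.one_le_iff_ne_zero.2 (Nat.mul_ne_zero (by omega) (by omega))
  have ha : (1 : ℝ) ≤ |((e 0 n : ℤ) : ℝ)| := by
    have : (1 : ℤ) ≤ |e 0 n| := Int.one_le_abs h.1
    exact_mod_cast this
  have hH0 : (0 : ℝ) ≤ H := by linarith
  have hB1 : (1 : ℝ) ≤ 2 ^ (n * (n - 1)) := one_le_pow₀ (by norm_num)
  have hB2 : (1 : ℝ) ≤ H ^ (2 * (n - 1)) := one_le_pow₀ hH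
  have hB : (1 : ℝ) ≤ |((e 0 n : ℤ) : ℝ)| * (2 ^ (n * (n - 1)) * H ^ (2 * (n - 1))) := by
    have h1 : (1 : ℝ) ≤ 2 ^ (n * (n - 1)) * H ^ (2 * (n - 1)) := by nlinarith
    nlinarith
  have h1 := lin (n * (n - 1)) hM (dis n e) (dis_deg n hn e h) _ hB U hU
  refine h1.trans ?_
  refine mul_le_mul_of_nonneg_left ?_ (Nat.cast_nonneg _)
  have hMr : (0 : ℝ) < ((n * (n - 1) : ℕ) : ℝ) := by exact_mod_cast hM
  have hn1 : (n : ℝ) ≠ 0 := by
    have : n ≠ 0 := by omega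
    exact_mod_cast this
  have hn2 : ((n - 1 : ℕ) : ℝ) ≠ 0 := by
    have : n - 1 ≠ 0 := by omega
    exact_mod_cast this
  have e1 : (|((e 0 n : ℤ) : ℝ)| * (2 ^ (n * (n - 1)) * H ^ (2 * (n - 1)))) ^ (1 / ((n * (n - 1) : ℕ) : ℝ)) =
      |((e 0 n : ℤ) : ℝ)| ^ (1 / ((n * (n - 1) : ℕ) : ℝ)) * (2 * H ^ (2 / (n : ℝ))) := by
    rw [Real.mul_rpow (by linarith) (by positivity), Real.mul_rpow (by positivity) (by positivity)]
    congr 2
    · rw [← Real.rpow_natCast 2 (n * (n - 1)), ← Real.rpow_mul (by norm_num), mul_one_div_cancel hMr.ne', Real.rpow_one]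
    · rw [← Real.rpow_natCast H (2 * (n - 1)), ← Real.rpow_mul hH0]
      congr 1
      push_cast
      field_simp
  have e2 : |((e 0 n : ℤ) : ℝ)| ^ (1 / ((n * (n - 1) : ℕ) : ℝ)) ≤ |((e 0 n : ℤ) : ℝ)| := by
    have h2 : 1 / ((n * (n - 1) : ℕ) : ℝ) ≤ 1 := by
      rw [div_le_one hMr]
      exact_mod_cast hM
    calc |((e 0 n : ℤ) : ℝ)| ^ (1 / ((n * (n - 1) : ℕ) : ℝ)) ≤ |((e 0 n : ℤ) : ℝ)| ^ (1 : ℝ) :=
          Real.rpow_le_rpow_of_exponent_le ha h2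
      _ = _ := Real.rpow_one _
  have h3 : 0 ≤ 2 * H ^ (2 / (n : ℝ)) := by positivity
  rw [e1]
  nlinarith [mul_le_mul_of_nonneg_right e2 h3]

/-- **the small range** -/
theorem sm3 (n : ℕ) (hn : 2 ≤ n) (e₀ : ℕ → ℕ → ℤ) (h : Ir n e₀) : ∃ C : ℝ, 0 ≤ C ∧ ∀ e : ℕ → ℕ → ℤ,
    (∀ j ≤ n, e (n - j) j = e₀ (n - j) j) → ∀ (R H : ℝ), 1 ≤ R → 1 ≤ H → ∀ T : Finset (ℤ × ℤ),
    (∀ P ∈ T, |((ev n e P.1 P.2 : ℤ) : ℝ)| ≤ H ∧ |(P.1 : ℝ)| ≤ R) →
    (T.card : ℝ) ≤ C * (R + H ^ (3 / (n : ℝ))) := by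
  classical
  obtain ⟨a, ha⟩ : ∃ a : ℝ, a = |((e₀ 0 n : ℤ) : ℝ)| := ⟨_, rfl⟩
  have ha0 : 0 ≤ a := by rw [ha]; exact abs_nonneg _
  obtain ⟨M, hM⟩ : ∃ M : ℝ, M = ((n * (n - 1) : ℕ) : ℝ) := ⟨_, rfl⟩
  have hM0 : 0 ≤ M := by rw [hM]; exact Nat.cast_nonneg _
  refine ⟨3 * (n * 2) + M * (4 * a + 1) * (n * 3), by positivity, ?_⟩
  intro e hee R H hR hH T hT
  have hn1 : (n : ℝ) ≠ 0 := by
    have : n ≠ 0 := by omega
    exact_mod_cast this
  have hH0 : (0 : ℝ) < H := by linarith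
  have hfm : fm e n = fm e₀ n := by
    unfold fm
    refine Finset.sum_congr rfl fun j hj => ?_
    rw [hee j (by have := Finset.mem_range.1 hj; omega)]
  have he0 : e 0 n = e₀ 0 n := by
    have := hee n le_rfl
    rwa [Nat.sub_self] at this
  have hI : Ir n e := ⟨by rw [he0]; exact h.1, by rw [hfm]; exact h.2⟩
  have hae : |((e 0 n : ℤ) : ℝ)| = a := by rw [he0, ha]
  -- the values of `x`
  obtain ⟨V, hV⟩ : ∃ V : Finset ℤ, V = T.image Prod.fst := ⟨_, rfl⟩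
  obtain ⟨U, hU⟩ : ∃ U : Finset ℤ, U = V.filter fun x => |(((dis n e).eval x : ℤ) : ℝ)| ≤
    |((e 0 n : ℤ) : ℝ)| * (2 ^ (n * (n - 1)) * H ^ (2 * (n - 1))) := ⟨_, rfl⟩
  have hUc : (U.card : ℝ) ≤ M * (4 * a * H ^ (2 / (n : ℝ)) + 1) := by
    have := few_x n hn e hI H hH U fun x hx => by
      rw [hU] at hx
      exact (Finset.mem_filter.1 hx).2
    rwa [hae, ← hM] at this
  have hVc : (V.card : ℝ) ≤ 3 * R := by
    have hsub : V ⊆ Finset.Icc (-⌊R⌋) ⌊R⌋ := by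
      intro x hx
      rw [hV] at hx
      obtain ⟨P, hP, rfl⟩ := Finset.mem_image.1 hx
      have h1 := abs_le.1 (hT P hP).2
      rw [Finset.mem_Icc]
      constructor
      · have : (-P.1 : ℤ) ≤ ⌊R⌋ := by
          rw [Int.le_floor]
          push_cast
          linarith [h1.1]
        omega
      · rw [Int.le_floor]
        exact h1.2
    have h1 := Finset.card_le_card hsub
    rw [Int.card_Icc] at h1
    have h2 : (V.card : ℤ) ≤ 2 * ⌊R⌋ + 1 := by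
      have h3 : 0 ≤ ⌊R⌋ := Int.floor_nonneg.2 (by linarith)
      omega
    have h4 : ((V.card : ℤ) : ℝ) ≤ ((2 * ⌊R⌋ + 1 : ℤ) : ℝ) := by exact_mod_cast h2
    push_cast at h4
    have h5 := Int.floor_le R
    linarith
  -- fibres
  have hfib : ∀ x : ℤ, (T.filter fun P => P.1 = x).card = ((T.filter fun P => P.1 = x).image Prod.snd).card := by
    intro x
    rw [Finset.card_image_of_injOn]
    intro P hP Q hQ hPQ
    have h1 := (Finset.mem_filter.1 (Finset.mem_coe.1 hP)).2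
    have h2 := (Finset.mem_filter.1 (Finset.mem_coe.1 hQ)).2
    exact Prod.ext (h1.trans h2.symm) hPQ
  have hfe : ∀ x : ℤ, ∀ y ∈ (T.filter fun P => P.1 = x).image Prod.snd, |((ev n e x y : ℤ) : ℝ)| ≤ H := by
    intro x y hy
    obtain ⟨P, hP, rfl⟩ := Finset.mem_image.1 hy
    obtain ⟨h1, h2⟩ := Finset.mem_filter.1 hP
    rw [← h2]
    exact (hT P h1).1
  have hfU : ∀ x ∈ U, ((T.filter fun P => P.1 = x).card : ℝ) ≤ n * (2 * H ^ (1 / (n : ℝ)) + 1) := by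
    intro x _
    rw [hfib]
    exact fib_gen n hn e hI.1 H hH x _ (hfe x)
  have hfV : ∀ x ∈ V \ U, ((T.filter fun P => P.1 = x).card : ℝ) ≤ n * 2 := by
    intro x hx
    obtain ⟨h1, h2⟩ := Finset.mem_sdiff.1 hx
    rw [hfib]
    have h3 := fib_small n hn e hI.1 H x (by
      by_contra hcon
      push Not at hcon
      exact h2 (by rw [hU]; exact Finset.mem_filter.2 ⟨h1, hcon⟩)) _ (hfe x)
    exact_mod_cast h3
  have hcard : (T.card : ℝ) = ∑ x ∈ V, ((T.filter fun P => P.1 = x).card : ℝ) := by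
    rw [hV]
    have := Finset.card_eq_sum_card_fiberwise (f := Prod.fst) (s := T) (t := T.image Prod.fst)
      (fun P hP => Finset.mem_coe.2 (Finset.mem_image_of_mem _ hP))
    exact_mod_cast this
  have hUV : U ⊆ V := by
    rw [hU]
    exact Finset.filter_subset _ _
  have hsum : (T.card : ℝ) ≤ V.card * (n * 2) + U.card * (n * (2 * H ^ (1 / (n : ℝ)) + 1)) := by
    rw [hcard, ← Finset.sum_sdiff hUV]
    refine add_le_add ?_ ?_
    · refine (Finset.sum_le_card_nsmul _ _ _ hfV).trans ?_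
      rw [nsmul_eq_mul]
      refine mul_le_mul_of_nonneg_right ?_ (by positivity)
      exact_mod_cast Finset.card_le_card Finset.sdiff_subset
    · refine (Finset.sum_le_card_nsmul _ _ _ hfU).trans ?_
      rw [nsmul_eq_mul]
  have hp1 : 1 ≤ H ^ (1 / (n : ℝ)) := Real.one_le_rpow hH (by positivity)
  have hp2 : 1 ≤ H ^ (2 / (n : ℝ)) := Real.one_le_rpow hH (by positivity)
  have hp3 : H ^ (2 / (n : ℝ)) * H ^ (1 / (n : ℝ)) = H ^ (3 / (n : ℝ)) := by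
    rw [← Real.rpow_add hH0]
    congr 1
    field_simp
    norm_num
  have hk0 : (0 : ℝ) ≤ n := Nat.cast_nonneg _
  have hU2 : (U.card : ℝ) ≤ M * (4 * a + 1) * H ^ (2 / (n : ℝ)) := by
    refine hUc.trans ?_
    have : 4 * a * H ^ (2 / (n : ℝ)) + 1 ≤ (4 * a + 1) * H ^ (2 / (n : ℝ)) := by nlinarith
    calc M * (4 * a * H ^ (2 / (n : ℝ)) + 1) ≤ M * ((4 * a + 1) * H ^ (2 / (n : ℝ))) := mul_le_mul_of_nonneg_left this hM0
      _ = _ := by ring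
  have hn3 : (n : ℝ) * (2 * H ^ (1 / (n : ℝ)) + 1) ≤ n * 3 * H ^ (1 / (n : ℝ)) := by nlinarith
  have hprod : (U.card : ℝ) * (n * (2 * H ^ (1 / (n : ℝ)) + 1)) ≤ M * (4 * a + 1) * (n * 3) * H ^ (3 / (n : ℝ)) := by
    calc (U.card : ℝ) * (n * (2 * H ^ (1 / (n : ℝ)) + 1))
        ≤ (M * (4 * a + 1) * H ^ (2 / (n : ℝ))) * (n * 3 * H ^ (1 / (n : ℝ))) :=
          mul_le_mul hU2 hn3 (by positivity) (by positivity)
      _ = M * (4 * a + 1) * (n * 3) * (H ^ (2 / (n : ℝ)) * H ^ (1 / (n : ℝ))) := by ring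
      _ = _ := by rw [hp3]
  have hVp : (V.card : ℝ) * (n * 2) ≤ 3 * (n * 2) * R := by
    calc (V.card : ℝ) * (n * 2) ≤ (3 * R) * (n * 2) := mul_le_mul_of_nonneg_right hVc (by positivity)
      _ = _ := by ring
  have hH3 : 0 ≤ H ^ (3 / (n : ℝ)) := by positivity
  have hc1 : 0 ≤ M * (4 * a + 1) * (n * 3) := by positivity
  have hc2 : (0 : ℝ) ≤ 3 * (n * 2) := by positivity
  nlinarith [mul_nonneg hc1 (by linarith : (0 : ℝ) ≤ R), mul_nonneg hc2 hH3]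

end Pool.Agent.H99.UC
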