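import Pool.Agent.H99.UC.Cc
import Pool.Agent.H12.ON.Fam
import Pool.Agent.H72.ES.Final
import Pool.Agent.H8.AA.Sng

/-! # [H99 UC LARGE] For every `F` with leading form `f`: boundedly many pairs (smooth `F + c = 0`, large integer point)

Three cases. (A) `F_(n-1)` is not in the span of `f_x`, `f_y`: `H12.ON.family`. (B) no line has contact `≥ 3` at infinity: `H72.ES.bounded_exceptions`.
(C) otherwise `cc` (Roth): no large point at all. -/

namespace Pool.Agent.H99.UC

open MvPolynomial Pool.Agent.H72.ES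

theorem arrM_top {n : ℕ} {F f : MvPolynomial (Fin 2) ℤ} (h : homogeneousComponent n F = f) {i j : ℕ} (hij : i + j = n) :
    arrM F i j = arrM f i j := by
  unfold arrM
  rw [← h, coeff_homogeneousComponent, if_pos]
  rw [ex_deg, ex_zero, ex_one, hij]

theorem part0_eq {n : ℕ} {F f : MvPolynomial (Fin 2) ℤ} (h : homogeneousComponent n F = f) :
    part n 0 (arrM F) = part n 0 (arrM f) := by
  unfold part
  refine Finset.sum_congr rfl fun j hj => ?_
  have hj' : j ≤ n := by
    have := Finset.mem_range.1 hj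
    omega
  rw [arrM_top h (show n - 0 - j + j = n by omega)]

theorem phi_facts {n : ℕ} (hn : 2 ≤ n) (f : MvPolynomial (Fin 2) ℤ) (hf : f.IsHomogeneous n)
    (hirr : Irreducible (map (Int.castRingHom ℚ) f)) : (part n 0 (arrM f)).natDegree = n ∧
    Irreducible ((part n 0 (arrM f)).map (Int.castRingHom ℚ)) ∧
    IsCoprime ((part n 0 (arrM f)).map (Int.castRingHom ℂ)) (Polynomial.derivative ((part n 0 (arrM f)).map (Int.castRingHom ℂ))) := by
  have hff : homogeneousComponent n f = f := by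
    rw [homogeneousComponent_of_mem hf, if_pos rfl]
  obtain ⟨ha, hirr'⟩ := leadQ_of_irreducible hn (G := f) (by rw [hff]; exact hirr)
  have hmap : (part n 0 (arrM f)).map (Int.castRingHom ℚ) = leadQ n (arrM f) := by
    unfold part leadQ
    rw [Polynomial.map_sum]
    refine Finset.sum_congr rfl fun j _ => ?_
    simp
  have hco : (part n 0 (arrM f)).coeff n ≠ 0 := by
    have h1 := part0_coeff n (arrM f) _ rfl (le_refl n)
    rw [← h1, Nat.sub_self]
    exact ha
  have hdeg : (part n 0 (arrM f)).natDegree = n := by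
    refine Polynomial.natDegree_eq_of_le_of_coeff_ne_zero ?_ hco
    unfold part
    refine Polynomial.natDegree_sum_le_of_forall_le _ _ fun j hj => ?_
    have hj' : j ≤ n := by
      have := Finset.mem_range.1 hj
      omega
    exact (Polynomial.natDegree_C_mul_X_pow_le _ _).trans hj'
  refine ⟨hdeg, by rw [hmap]; exact hirr', ?_⟩
  have h1 : ((part n 0 (arrM f)).map (Int.castRingHom ℂ)) = (leadQ n (arrM f)).map (algebraMap ℚ ℂ) := by
    rw [← hmap, Polynomial.map_map]
    congr 1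
  rw [h1]
  exact (hirr'.separable).map

theorem large2 (n : ℕ) (hn : 4 ≤ n) (f : MvPolynomial (Fin 2) ℤ) (hf : f.IsHomogeneous n)
    (hirr : Irreducible (map (Int.castRingHom ℚ) f)) : ∃ E N : ℕ, ∀ F : MvPolynomial (Fin 2) ℤ, F.totalDegree ≤ n →
    homogeneousComponent n F = f → ∀ h : ℕ, 2 ≤ h → ∀ T : Finset (ℤ × (Fin 2 → ℤ)),
    (∀ p ∈ T, (∀ m, |(F + C p.1).coeff m| ≤ (h : ℤ)) ∧ H12.ON.Smooth (F + C p.1) ∧ eval p.2 (F + C p.1) = 0 ∧
      (h : ℤ) ^ E < max |p.2 0| |p.2 1|) → T.card ≤ N := by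
  classical
  obtain ⟨hφ, hφirr, hsep⟩ := phi_facts (by omega) f hf hirr
  obtain ⟨B, hB, hfB⟩ : ∃ B : ℝ, 1 ≤ B ∧ ∀ m, |((f.coeff m : ℤ) : ℝ)| ≤ B := by
    refine ⟨((f.support.sup fun m => (f.coeff m).natAbs : ℕ) : ℝ) + 1, by
      have : (0 : ℝ) ≤ ((f.support.sup fun m => (f.coeff m).natAbs : ℕ) : ℝ) := Nat.cast_nonneg _
      linarith, fun m => ?_⟩
    have h1 : |((f.coeff m : ℤ) : ℝ)| = (((f.coeff m).natAbs : ℕ) : ℝ) := by
      rw [Nat.cast_natAbs, Int.cast_abs]
    rw [h1]
    by_cases hm : m ∈ f.support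
    · have h2 := Finset.le_sup (f := fun m => (f.coeff m).natAbs) hm
      have h3 : (((f.coeff m).natAbs : ℕ) : ℝ) ≤ ((f.support.sup fun m => (f.coeff m).natAbs : ℕ) : ℝ) := by exact_mod_cast h2
      linarith
    · rw [MvPolynomial.notMem_support_iff.1 hm, Int.natAbs_zero, Nat.cast_zero]
      have h2 : (0 : ℝ) ≤ ((f.support.sup fun m => (f.coeff m).natAbs : ℕ) : ℝ) := Nat.cast_nonneg _
      linarith
  obtain ⟨C₃, hC₃, hcc⟩ := cc n hn _ hφ hφirr hsep B hB
  obtain ⟨k, hk⟩ : ∃ k : ℕ, C₃ ≤ 2 ^ k := (pow_unbounded_of_one_lt C₃ one_lt_two).imp fun _ h => h.le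
  obtain ⟨E₁, hE₁⟩ := H12.ON.family n hn
  refine ⟨E₁ + 600 * n ^ 5 + (6 + k), n + 80 * n ^ 3, ?_⟩
  intro F hF hFf h hh T hT
  have hh1 : (1 : ℤ) ≤ (h : ℤ) := by exact_mod_cast (by omega : 1 ≤ h)
  have hpow : ∀ a ≤ E₁ + 600 * n ^ 5 + (6 + k), (h : ℤ) ^ a ≤ (h : ℤ) ^ (E₁ + 600 * n ^ 5 + (6 + k)) :=
    fun a ha => pow_le_pow_right₀ hh1 ha
  by_cases hgen : ∀ w : Fin 2 → ℚ, map (Int.castRingHom ℚ) (homogeneousComponent (n - 1) F) ≠
      ∑ i, C (w i) * pderiv i (map (Int.castRingHom ℚ) f)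
  · have h1 := hE₁ F hF (by rw [hFf]; exact hirr) (fun w => by rw [hFf]; exact hgen w)
    have h2 : (T : Set (ℤ × (Fin 2 → ℤ))).encard ≤ n := by
      refine le_trans ?_ h1
      refine Set.encard_le_encard_of_injOn (f := fun p : ℤ × (Fin 2 → ℤ) => (F + C p.1, p.2)) ?_ ?_
      · rintro ⟨c, P⟩ hp
        obtain ⟨k1, k2, k3, k4⟩ := hT _ hp
        refine ⟨?_, k2, k3, h, hh, k1, ?_⟩
        · have h6 : (F + C c) - F = C c := by ring
          simp only [h6, totalDegree_C]
          omega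
        · have h7 : (h : ℤ) ^ E₁ < max |P 0| |P 1| := lt_of_le_of_lt (hpow _ (by omega)) k4
          rcases lt_max_iff.1 h7 with h8 | h8
          · exact ⟨0, h8⟩
          · exact ⟨1, h8⟩
      · rintro ⟨c, P⟩ _ ⟨c', P'⟩ _ h2
        simp only [Prod.mk.injEq, add_right_inj, C_inj] at h2
        exact Prod.ext h2.1 h2.2
    rw [Set.encard_coe_eq_coe_finsetCard] at h2
    have h3 : T.card ≤ n := by exact_mod_cast h2
    omega
  push Not at hgen
  obtain ⟨w, hw⟩ := hgen
  by_cases hfl : ∀ θ β : ℝ, n - 2 ≤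
      (aeval ![Polynomial.X, Polynomial.C θ * Polynomial.X + Polynomial.C β] F : Polynomial ℝ).natDegree
  · have hdeg : F.totalDegree = n := by
      refine le_antisymm hF (not_lt.1 fun hlt => ?_)
      rw [homogeneousComponent_eq_zero n F hlt] at hFf
      rw [← hFf, map_zero] at hirr
      exact hirr.ne_zero rfl
    have hinj : Set.InjOn (fun p : ℤ × (Fin 2 → ℤ) => (F + C p.1, (p.2 0, p.2 1))) T := by
      rintro ⟨c, P⟩ _ ⟨c', P'⟩ _ h2
      simp only [Prod.mk.injEq, add_right_inj, C_inj] at h2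
      refine Prod.ext h2.1 ?_
      funext i
      fin_cases i
      · exact h2.2.1
      · exact h2.2.2
    have h1 := bounded_exceptions hn hh F hdeg (by rw [hFf]; exact hirr) hfl
      (T.image fun p => (F + C p.1, (p.2 0, p.2 1))) (by
        intro q hq
        obtain ⟨⟨c, P⟩, hp, rfl⟩ := Finset.mem_image.1 hq
        obtain ⟨k1, k2, k3, k4⟩ := hT _ hp
        refine ⟨?_, k1, ?_, lt_of_le_of_lt (hpow _ (by omega)) k4⟩
        · have h6 : (F + C c) - F = C c := by ring
          simp only [h6, totalDegree_C]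
          omega
        · have h7 : ![P 0, P 1] = P := by
            funext i
            fin_cases i <;> rfl
          show eval ![P 0, P 1] (F + C c) = 0
          rw [h7]
          exact k3)
    rw [Finset.card_image_of_injOn hinj] at h1
    omega
  push Not at hfl
  obtain ⟨θ, β, hθβ⟩ := hfl
  have hT0 : T = ∅ := by
    rw [Finset.eq_empty_iff_forall_notMem]
    rintro ⟨c, P⟩ hp
    obtain ⟨k1, -, k3, k4⟩ := hT _ hp
    have hdegc : (F + C c).totalDegree ≤ n := (totalDegree_add _ _).trans (max_le hF (by rw [totalDegree_C]; omega))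
    have hFc : homogeneousComponent n (F + C c) = f := by
      rw [map_add, hFf, homogeneousComponent_eq_zero n (C c) (by rw [totalDegree_C]; omega), add_zero]
    have hGφ : part n 0 (arrM (F + C c)) = part n 0 (arrM f) := part0_eq hFc
    have hGB : ∀ i j, i + j ≤ n → |((arrM (F + C c) i j : ℤ) : ℝ)| ≤ B * (h : ℝ) ^ (n - (i + j)) := by
      intro i j hij
      rcases Nat.eq_or_lt_of_le hij with e | e
      · rw [arrM_top hFc e, e, Nat.sub_self, pow_zero, mul_one]
        exact hfB _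
      · have h1 : |((arrM (F + C c) i j : ℤ) : ℝ)| ≤ h := by
          have := k1 (ex i j)
          unfold arrM
          exact_mod_cast this
        have hhr : (1 : ℝ) ≤ h := by exact_mod_cast hh1
        have h2 : (h : ℝ) ≤ (h : ℝ) ^ (n - (i + j)) := le_self_pow₀ hhr (by omega)
        have h3 : (h : ℝ) ^ (n - (i + j)) ≤ B * (h : ℝ) ^ (n - (i + j)) := le_mul_of_one_le_left (by positivity) hB
        linarith
    have hw' : ∀ j < n, ((arrM (F + C c) (n - 1 - j) j : ℤ) : ℚ) = w 0 * (n - j : ℕ) * (arrM (F + C c) (n - j) j : ℤ) +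
        w 1 * (j + 1 : ℕ) * (arrM (F + C c) (n - 1 - j) (j + 1) : ℤ) := by
      intro j hj
      have h1 := congrArg (fun q => coeff (ex (n - 1 - j) j) q) hw
      simp only [Fin.sum_univ_two, coeff_add, coeff_C_mul, coeff_pderiv, coeff_map, coeff_homogeneousComponent] at h1
      have h2 : (ex (n - 1 - j) j).degree = n - 1 := by
        rw [ex_deg, ex_zero, ex_one]
        omega
      have h3 : ex (n - 1 - j) j + Finsupp.single 0 1 = ex (n - j) j := by
        rw [← ex_eta (ex (n - 1 - j) j + Finsupp.single 0 1)]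
        congr 1
        · rw [Finsupp.add_apply, ex_zero, Finsupp.single_eq_same]
          omega
        · rw [Finsupp.add_apply, ex_one, Finsupp.single_eq_of_ne (by decide), add_zero]
      have h4 : ex (n - 1 - j) j + Finsupp.single 1 1 = ex (n - 1 - j) (j + 1) := by
        rw [← ex_eta (ex (n - 1 - j) j + Finsupp.single 1 1)]
        congr 1
        · rw [Finsupp.add_apply, ex_zero, Finsupp.single_eq_of_ne (by decide), add_zero]
        · rw [Finsupp.add_apply, ex_one, Finsupp.single_eq_same]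
      rw [if_pos h2, h3, h4, ex_zero, ex_one] at h1
      have h5 : (arrM (F + C c) (n - 1 - j) j : ℤ) = coeff (ex (n - 1 - j) j) F := by
        unfold arrM
        rw [coeff_add, coeff_C, if_neg, add_zero]
        intro h6
        rw [← h6] at h2
        simp at h2
        omega
      rw [h5, arrM_top hFc (show n - j + j = n by omega), arrM_top hFc (show n - 1 - j + (j + 1) = n by omega)]
      have h6 : ((n - j : ℕ) : ℚ) = ((n - 1 - j : ℕ) : ℚ) + 1 := by
        have : n - j = n - 1 - j + 1 := by omega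
        rw [this]
        push_cast
        ring
      have h7 : ((j + 1 : ℕ) : ℚ) = (j : ℚ) + 1 := by push_cast; ring
      rw [h6, h7]
      unfold arrM
      simp only [eq_intCast] at h1
      linear_combination h1
    have hct : (ev n (cst (Polynomial ℝ) (arrM (F + C c))) Polynomial.X
        (Polynomial.C θ * Polynomial.X + Polynomial.C β)).natDegree < n - 2 := by
      have h1 : (aeval ![Polynomial.X, Polynomial.C θ * Polynomial.X + Polynomial.C β] (F + C c) : Polynomial ℝ) =
          ev n (cst (Polynomial ℝ) (arrM (F + C c))) Polynomial.X (Polynomial.C θ * Polynomial.X + Polynomial.C β) := by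
        rw [← eval₂_arrM hdegc, aeval_def]
        congr 1
      have h2 : (aeval ![Polynomial.X, Polynomial.C θ * Polynomial.X + Polynomial.C β] (F + C c) : Polynomial ℝ) =
          aeval ![Polynomial.X, Polynomial.C θ * Polynomial.X + Polynomial.C β] F + Polynomial.C (c : ℝ) := by
        rw [map_add, aeval_C]
        congr 1
      rw [← h1, h2, Polynomial.natDegree_add_C]
      exact hθβ
    obtain ⟨hθ, hfx⟩ := contact n hn (arrM (F + C c)) θ β hct
    rw [hGφ] at hθ
    have hz : ev n (cst ℝ (arrM (F + C c))) (P 0 : ℝ) (P 1 : ℝ) = 0 := by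
      rw [← eval₂_arrM hdegc]
      have h1 := eval₂_comp_left (Int.castRingHom ℝ) (RingHom.id ℤ) P (F + C c)
      have h2 : eval₂ (RingHom.id ℤ) P (F + C c) = 0 := k3
      rw [h2, map_zero, RingHomCompTriple.comp_eq] at h1
      have h3 : (![(P 0 : ℝ), (P 1 : ℝ)] : Fin 2 → ℝ) = (Int.castRingHom ℝ) ∘ P := by
        funext i
        fin_cases i <;> rfl
      rw [h3]
      exact h1.symm
    obtain ⟨hx, hy⟩ := hcc (arrM (F + C c)) h (by exact_mod_cast hh1) hGφ hGB (w 0) (w 1) hw' θ hθ hfx (P 0) (P 1) hz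
    have hC : C₃ * (h : ℝ) ^ 6 ≤ (h : ℝ) ^ (E₁ + 600 * n ^ 5 + (6 + k)) := by
      have hhr : (2 : ℝ) ≤ h := by exact_mod_cast hh
      calc C₃ * (h : ℝ) ^ 6 ≤ (h : ℝ) ^ k * (h : ℝ) ^ 6 := by
            refine mul_le_mul_of_nonneg_right (hk.trans ?_) (by positivity)
            exact pow_le_pow_left₀ (by norm_num) hhr k
        _ = (h : ℝ) ^ (6 + k) := by rw [← pow_add, add_comm]
        _ ≤ _ := pow_le_pow_right₀ (by linarith) (by omega)
    have hx' : |P 0| ≤ (h : ℤ) ^ (E₁ + 600 * n ^ 5 + (6 + k)) := by exact_mod_cast hx.trans hC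
    have hy' : |P 1| ≤ (h : ℤ) ^ (E₁ + 600 * n ^ 5 + (6 + k)) := by exact_mod_cast hy.trans hC
    exact absurd k4 (not_lt.2 (max_le hx' hy'))
  rw [hT0, Finset.card_empty]
  exact Nat.zero_le _

/-- few `c` such that `F + c` has a large integer point -/
theorem large (n : ℕ) (hn : 4 ≤ n) (f : MvPolynomial (Fin 2) ℤ) (hf : f.IsHomogeneous n)
    (hirr : Irreducible (map (Int.castRingHom ℚ) f)) : ∃ E N : ℕ, ∀ F : MvPolynomial (Fin 2) ℤ, F.totalDegree ≤ n →
    homogeneousComponent n F = f → ∀ h : ℕ, 2 ≤ h → ∀ Z : Finset ℤ,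
    (∀ c ∈ Z, (∀ m, |(F + C c).coeff m| ≤ (h : ℤ)) ∧
      ∃ P : Fin 2 → ℤ, eval P (F + C c) = 0 ∧ (h : ℤ) ^ E < max |P 0| |P 1|) → Z.card ≤ N := by
  classical
  obtain ⟨E, N, hE⟩ := large2 n hn f hf hirr
  refine ⟨E, N + (2 * n) ^ 2, ?_⟩
  intro F hF hFf h hh Z hZ
  choose! P hP using fun c hc => (hZ c hc).2
  set Z1 := Z.filter fun c => H12.ON.Smooth (F + C c) with hZ1
  set Z2 := Z.filter fun c => ¬ H12.ON.Smooth (F + C c) with hZ2
  have h1 : Z1.card ≤ N := by
    have h2 : (Z1.image fun c => (c, P c)).card ≤ N := by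
      refine hE F hF hFf h hh _ ?_
      intro p hp
      obtain ⟨c, hc, rfl⟩ := Finset.mem_image.1 hp
      rw [hZ1, Finset.mem_filter] at hc
      exact ⟨(hZ c hc.1).1, hc.2, (hP c hc.1).1, (hP c hc.1).2⟩
    rwa [Finset.card_image_of_injective _ (fun a b hab => (Prod.ext_iff.1 hab).1)] at h2
  have h2 : Z2.card ≤ (2 * n) ^ 2 := by
    have h3 : {τ : ℤ | ∃ a b : ℂ, aeval ![a, b] (F + C τ) = 0 ∧ aeval ![a, b] (pderiv 0 F) = 0 ∧
          aeval ![a, b] (pderiv 1 F) = 0}.encard ≤ ((2 * n) ^ 2 : ℕ) := H2.AA.sng (by omega) F hF (by rw [hFf]; exact hirr)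
    have h4 : (Z2 : Set ℤ).encard ≤ ((2 * n) ^ 2 : ℕ) := by
      refine le_trans (Set.encard_le_encard ?_) h3
      intro c hc
      rw [Finset.mem_coe, hZ2, Finset.mem_filter] at hc
      obtain ⟨_, h5⟩ := hc
      unfold H12.ON.Smooth at h5
      push Not at h5
      obtain ⟨a, b, k1, k2, k3⟩ := h5
      rw [map_add, pderiv_C, add_zero] at k2 k3
      exact ⟨a, b, k1, k2, k3⟩
    rw [Set.encard_coe_eq_coe_finsetCard] at h4
    exact_mod_cast h4
  have h3 : Z.card = Z1.card + Z2.card := (Finset.card_filter_add_card_filter_not _).symm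
  omega

end Pool.Agent.H99.UC
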