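import Pool.Agent.H99.UC.Sm3

/-! # [H99 UC SM4] The small range, sharp in `H`: at most `C (R + H^(2/n) (1 + log H))` integer points with `|F| ≤ H`, `|x| ≤ R`

Only the leading form is fixed. If some `y` with `|F(x,y)| ≤ H` has distance `≥ m` from all roots of `F(x,·)` then the discriminant of `F(x,·)`,
a polynomial in `x` of degree exactly `n(n-1)`, is `≤ |e_0n| (2/m)^(n(n-1)) H^(2(n-1))` (`res_lem`): `C (H^(2/n)/m + 1)` values of `x` (`lin`);
sum over `1 ≤ m ≤ ⌈H^(1/n)⌉`. -/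

namespace Pool.Agent.H99.UC

open Polynomial Pool.Agent.H8.AA Finset

/-- an integer at distance `≥ ρ` from all roots with a small value: the resultant of `p`, `p'` is small -/
theorem res_lem (n : ℕ) (hn : 2 ≤ n) (p : ℤ[X]) (hp : p.natDegree = n) (r : Fin n → ℂ)
    (hr : p.map (Int.castRingHom ℂ) = C ((p.leadingCoeff : ℤ) : ℂ) * ∏ i, (X - C (r i)))
    (y : ℤ) (H : ℝ) (hy : |((p.eval y : ℤ) : ℝ)| ≤ H) (ρ : ℝ) (hρ : 0 < ρ) (hd : ∀ i, ρ ≤ ‖(y : ℂ) - r i‖) :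
    |((resultant p (derivative p) n (n - 1) : ℤ) : ℝ)| ≤
      |((p.leadingCoeff : ℤ) : ℝ)| * ((2 / ρ) ^ (n * (n - 1)) * H ^ (2 * (n - 1))) := by
  have hp0 : p ≠ 0 := by
    rintro rfl
    rw [natDegree_zero] at hp
    omega
  have ha : ((p.leadingCoeff : ℤ) : ℂ) ≠ 0 := by
    exact_mod_cast leadingCoeff_ne_zero.2 hp0
  have h1 := res_prod (by omega) _ ha r _ hr
  rw [derivative_map, resultant_map_map] at h1
  have h2 : |((resultant p (derivative p) n (n - 1) : ℤ) : ℝ)| = ‖((resultant p (derivative p) n (n - 1) : ℤ) : ℂ)‖ := by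
    rw [Complex.norm_intCast]
  have h3 : ((resultant p (derivative p) n (n - 1) : ℤ) : ℂ) = _ := h1
  rw [h2, h3, norm_mul, norm_pow, Complex.norm_intCast]
  have h4 := dist_le (by omega : 1 ≤ n) r (y : ℂ) ρ hρ hd
  have h5 : |((p.leadingCoeff : ℤ) : ℝ)| * ∏ i, ‖(y : ℂ) - r i‖ ≤ H := by
    have h6 : ((p.eval y : ℤ) : ℂ) = ((p.leadingCoeff : ℤ) : ℂ) * ∏ i, ((y : ℂ) - r i) := by
      have h7 : ((p.eval y : ℤ) : ℂ) = (p.map (Int.castRingHom ℂ)).eval (y : ℂ) := by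
        rw [eval_intCast_map]
        simp
      rw [h7, hr, eval_mul, eval_C, eval_prod]
      simp
    have h8 : ‖((p.eval y : ℤ) : ℂ)‖ ≤ H := by
      rw [Complex.norm_intCast]
      exact hy
    rw [h6, norm_mul, Complex.norm_intCast, norm_prod] at h8
    exact h8
  have hA : (0 : ℝ) ≤ |((p.leadingCoeff : ℤ) : ℝ)| := abs_nonneg _
  have hP : (0 : ℝ) ≤ ∏ i, ‖(y : ℂ) - r i‖ := Finset.prod_nonneg fun _ _ => norm_nonneg _
  have hpow : |((p.leadingCoeff : ℤ) : ℝ)| ^ (2 * n - 1) =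
      |((p.leadingCoeff : ℤ) : ℝ)| * |((p.leadingCoeff : ℤ) : ℝ)| ^ (2 * (n - 1)) := by
    rw [← pow_succ']
    congr 1
    omega
  calc |((p.leadingCoeff : ℤ) : ℝ)| ^ (2 * n - 1) * ‖∏ k, ∏ j ∈ univ.erase k, (r k - r j)‖
      ≤ |((p.leadingCoeff : ℤ) : ℝ)| ^ (2 * n - 1) * ((2 / ρ) ^ (n * (n - 1)) * (∏ i, ‖(y : ℂ) - r i‖) ^ (2 * (n - 1))) :=
        mul_le_mul_of_nonneg_left h4 (pow_nonneg hA _)
    _ = |((p.leadingCoeff : ℤ) : ℝ)| * ((2 / ρ) ^ (n * (n - 1)) *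
        (|((p.leadingCoeff : ℤ) : ℝ)| * ∏ i, ‖(y : ℂ) - r i‖) ^ (2 * (n - 1))) := by
        rw [hpow, mul_pow]
        ring
    _ ≤ _ := by
        refine mul_le_mul_of_nonneg_left (mul_le_mul_of_nonneg_left ?_ (by positivity)) hA
        exact pow_le_pow_left₀ (mul_nonneg hA hP) h5 _

/-- integers within distance `< m` of `n` complex numbers -/
theorem near_cardm (n m : ℕ) (r : Fin n → ℂ) (T : Finset ℤ) (hT : ∀ y ∈ T, ∃ i, ‖(y : ℂ) - r i‖ < m) :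
    T.card ≤ n * (2 * m) := by
  classical
  have hsub : T ⊆ (univ : Finset (Fin n)).biUnion fun i => T.filter fun y => ‖(y : ℂ) - r i‖ < m := by
    intro y hy
    obtain ⟨i, hi⟩ := hT y hy
    exact Finset.mem_biUnion.2 ⟨i, Finset.mem_univ i, Finset.mem_filter.2 ⟨hy, hi⟩⟩
  refine (Finset.card_le_card hsub).trans (Finset.card_biUnion_le.trans ?_)
  have h1 : ∀ i ∈ (univ : Finset (Fin n)), (T.filter fun y : ℤ => ‖(y : ℂ) - r i‖ < m).card ≤ 2 * m := by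
    intro i _
    have h2 : (T.filter fun y : ℤ => ‖(y : ℂ) - r i‖ < m) ⊆ Finset.Icc (⌊(r i).re⌋ - m + 1) (⌊(r i).re⌋ + m) := by
      intro y hy
      have h3 := (Finset.mem_filter.1 hy).2
      have h4 : |(y : ℝ) - (r i).re| < m := by
        refine lt_of_le_of_lt ?_ h3
        have := Complex.abs_re_le_norm ((y : ℂ) - r i)
        simpa using this
      rw [abs_lt] at h4
      have h5 := Int.floor_le (r i).re
      have h6 := Int.lt_floor_add_one (r i).re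
      have h7 : (y : ℝ) < ((⌊(r i).re⌋ + m + 1 : ℤ) : ℝ) := by
        push_cast
        linarith
      have h8 : ((⌊(r i).re⌋ - m : ℤ) : ℝ) < y := by
        push_cast
        linarith
      have h9 : y < ⌊(r i).re⌋ + m + 1 := by exact_mod_cast h7
      have h10 : ⌊(r i).re⌋ - m < y := by exact_mod_cast h8
      rw [Finset.mem_Icc]
      omega
    refine (Finset.card_le_card h2).trans ?_
    rw [Int.card_Icc]
    omega
  refine (Finset.sum_le_card_nsmul _ _ _ h1).trans ?_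
  simp

/-- one fibre, discriminant large compared with `m` -/
theorem fibm (n : ℕ) (hn : 2 ≤ n) (e : ℕ → ℕ → ℤ) (h : e 0 n ≠ 0) (H : ℝ) (x : ℤ) (m : ℕ) (hm : 1 ≤ m)
    (hx : |((e 0 n : ℤ) : ℝ)| * ((2 / (m : ℝ)) ^ (n * (n - 1)) * H ^ (2 * (n - 1))) < |(((dis n e).eval x : ℤ) : ℝ)|)
    (T : Finset ℤ) (hT : ∀ y ∈ T, |((ev n e x y : ℤ) : ℝ)| ≤ H) : T.card ≤ n * (2 * m) := by
  obtain ⟨hd, hl⟩ := spe_deg n e h x
  have hp0 : spe n e x ≠ 0 := by
    intro h0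
    rw [h0, natDegree_zero] at hd
    omega
  obtain ⟨r, hr⟩ := factor n (spe n e x) hd hp0
  refine near_cardm n m r T fun y hy => ?_
  by_contra hcon
  push Not at hcon
  have h1 := res_lem n hn (spe n e x) hd r hr y H (by rw [spe_eval]; exact hT y hy) m (by exact_mod_cast hm) hcon
  rw [hl, ← dis_eval] at h1
  exact absurd hx (not_lt.2 h1)

/-- few `x` with a small discriminant -/
theorem few_xm (n : ℕ) (hn : 2 ≤ n) (e : ℕ → ℕ → ℤ) (h : Ir n e) (H : ℝ) (hH : 1 ≤ H) (m : ℕ) (hm : 1 ≤ m)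
    (hmH : (m : ℝ) ≤ 2 * H ^ (2 / (n : ℝ))) (U : Finset ℤ)
    (hU : ∀ x ∈ U, |(((dis n e).eval x : ℤ) : ℝ)| ≤
      |((e 0 n : ℤ) : ℝ)| * ((2 / (m : ℝ)) ^ (n * (n - 1)) * H ^ (2 * (n - 1)))) :
    (U.card : ℝ) ≤ (n * (n - 1) : ℕ) * (4 * |((e 0 n : ℤ) : ℝ)| * (H ^ (2 / (n : ℝ)) / m) + 1) := by
  have hM : 1 ≤ n * (n - 1) := Nat.one_le_iff_ne_zero.2 (Nat.mul_ne_zero (by omega) (by omega))
  have ha : (1 : ℝ) ≤ |((e 0 n : ℤ) : ℝ)| := by
    have : (1 : ℤ) ≤ |e 0 n| := Int.one_le_abs h.1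
    exact_mod_cast this
  have hm0 : (0 : ℝ) < m := by exact_mod_cast hm
  have hH0 : (0 : ℝ) ≤ H := by linarith
  have hMr : (0 : ℝ) < ((n * (n - 1) : ℕ) : ℝ) := by exact_mod_cast hM
  have hn1 : (n : ℝ) ≠ 0 := by
    have : n ≠ 0 := by omega
    exact_mod_cast this
  have hn2 : ((n - 1 : ℕ) : ℝ) ≠ 0 := by
    have : n - 1 ≠ 0 := by omega
    exact_mod_cast this
  have hpw : H ^ (2 * (n - 1)) = (H ^ (2 / (n : ℝ))) ^ (n * (n - 1)) := by
    rw [← Real.rpow_natCast H (2 * (n - 1)), ← Real.rpow_natCast (H ^ (2 / (n : ℝ))) (n * (n - 1)), ← Real.rpow_mul hH0]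
    congr 1
    push_cast
    field_simp
  have hq : (2 / (m : ℝ)) ^ (n * (n - 1)) * H ^ (2 * (n - 1)) = (2 * (H ^ (2 / (n : ℝ)) / m)) ^ (n * (n - 1)) := by
    rw [hpw, ← mul_pow]
    congr 1
    ring
  have hq1 : (1 : ℝ) ≤ 2 * (H ^ (2 / (n : ℝ)) / m) := by
    rw [← mul_div_assoc, le_div_iff₀ hm0, one_mul]
    exact hmH
  have hB : (1 : ℝ) ≤ |((e 0 n : ℤ) : ℝ)| * ((2 / (m : ℝ)) ^ (n * (n - 1)) * H ^ (2 * (n - 1))) := by
    rw [hq]
    have h1 : (1 : ℝ) ≤ (2 * (H ^ (2 / (n : ℝ)) / m)) ^ (n * (n - 1)) := one_le_pow₀ hq1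
    nlinarith
  have h1 := lin (n * (n - 1)) hM (dis n e) (dis_deg n hn e h) _ hB U hU
  refine h1.trans ?_
  refine mul_le_mul_of_nonneg_left ?_ (Nat.cast_nonneg _)
  have hq0 : (0 : ℝ) ≤ 2 * (H ^ (2 / (n : ℝ)) / m) := by linarith
  have e1 : (|((e 0 n : ℤ) : ℝ)| * ((2 / (m : ℝ)) ^ (n * (n - 1)) * H ^ (2 * (n - 1)))) ^ (1 / ((n * (n - 1) : ℕ) : ℝ)) =
      |((e 0 n : ℤ) : ℝ)| ^ (1 / ((n * (n - 1) : ℕ) : ℝ)) * (2 * (H ^ (2 / (n : ℝ)) / m)) := by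
    rw [hq, Real.mul_rpow (by linarith) (pow_nonneg hq0 _)]
    congr 1
    rw [← Real.rpow_natCast _ (n * (n - 1)), ← Real.rpow_mul hq0, mul_one_div_cancel hMr.ne', Real.rpow_one]
  have e2 : |((e 0 n : ℤ) : ℝ)| ^ (1 / ((n * (n - 1) : ℕ) : ℝ)) ≤ |((e 0 n : ℤ) : ℝ)| := by
    have h2 : 1 / ((n * (n - 1) : ℕ) : ℝ) ≤ 1 := by
      rw [div_le_one hMr]
      exact_mod_cast hM
    calc |((e 0 n : ℤ) : ℝ)| ^ (1 / ((n * (n - 1) : ℕ) : ℝ)) ≤ |((e 0 n : ℤ) : ℝ)| ^ (1 : ℝ) :=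
          Real.rpow_le_rpow_of_exponent_le ha h2
      _ = _ := Real.rpow_one _
  rw [e1]
  nlinarith [mul_le_mul_of_nonneg_right e2 hq0]

/-- the sum of `1/m` -/
theorem harm_le (K : ℕ) (hK : 1 ≤ K) : ∑ m ∈ Finset.Icc 1 K, (1 / (m : ℝ)) ≤ 1 + Real.log K := by
  have h1 := harmonic_le_one_add_log K
  rw [harmonic_eq_sum_Icc] at h1
  push_cast at h1
  simpa [one_div] using h1

/-- the values of `x`: `N(x)` counts the `m` for which the discriminant is small -/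
theorem fibN (n : ℕ) (hn : 2 ≤ n) (e : ℕ → ℕ → ℤ) (h : e 0 n ≠ 0) (H : ℝ) (hH : 1 ≤ H) (x : ℤ) (K : ℕ)
    (hK : H ^ (1 / (n : ℝ)) ≤ K) (T : Finset ℤ) (hT : ∀ y ∈ T, |((ev n e x y : ℤ) : ℝ)| ≤ H) :
    (T.card : ℝ) ≤ n * (2 * (((Finset.Icc 1 K).filter fun m : ℕ => |(((dis n e).eval x : ℤ) : ℝ)| ≤
      |((e 0 n : ℤ) : ℝ)| * ((2 / (m : ℝ)) ^ (n * (n - 1)) * H ^ (2 * (n - 1)))).card : ℝ) + 2) := by
  classical
  have hH0 : (0 : ℝ) ≤ H := by linarith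
  obtain ⟨W, hW⟩ : ∃ W : Finset ℕ, W = (Finset.Icc 1 K).filter fun m : ℕ => |(((dis n e).eval x : ℤ) : ℝ)| ≤
      |((e 0 n : ℤ) : ℝ)| * ((2 / (m : ℝ)) ^ (n * (n - 1)) * H ^ (2 * (n - 1))) := ⟨_, rfl⟩
  rw [← hW]
  have hn0 : (0 : ℝ) ≤ n := Nat.cast_nonneg _
  by_cases hall : W.card = K
  · rw [hall]
    refine (fib_gen n hn e h H hH x T hT).trans ?_
    refine mul_le_mul_of_nonneg_left ?_ hn0
    linarith
  · have hlt : W.card < K := by
      refine lt_of_le_of_ne ?_ hall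
      rw [hW]
      refine (Finset.card_filter_le _ _).trans ?_
      rw [Nat.card_Icc]
      omega
    -- `m = W.card + 1` is not in `W`
    have hnot : W.card + 1 ∉ W := by
      intro hin
      have hsub : Finset.Icc 1 (W.card + 1) ⊆ W := by
        intro m hm
        rw [Finset.mem_Icc] at hm
        rw [hW, Finset.mem_filter, Finset.mem_Icc]
        rw [hW, Finset.mem_filter] at hin
        refine ⟨⟨hm.1, by omega⟩, hin.2.trans ?_⟩
        rw [← hW]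
        refine mul_le_mul_of_nonneg_left (mul_le_mul_of_nonneg_right ?_ (by positivity)) (abs_nonneg _)
        refine pow_le_pow_left₀ (by positivity) ?_ _
        have hm0 : (0 : ℝ) < m := by exact_mod_cast hm.1
        refine div_le_div_of_nonneg_left (by norm_num) hm0 ?_
        exact_mod_cast hm.2
      have := Finset.card_le_card hsub
      rw [Nat.card_Icc] at this
      omega
    have hx : |((e 0 n : ℤ) : ℝ)| * ((2 / ((W.card + 1 : ℕ) : ℝ)) ^ (n * (n - 1)) * H ^ (2 * (n - 1))) <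
        |(((dis n e).eval x : ℤ) : ℝ)| := by
      by_contra hcon
      push Not at hcon
      exact hnot (by
        rw [hW, Finset.mem_filter, Finset.mem_Icc, ← hW]
        exact ⟨⟨by omega, by omega⟩, hcon⟩)
    have h1 := fibm n hn e h H x (W.card + 1) (by omega) hx T hT
    have h2 : (T.card : ℝ) ≤ ((n * (2 * (W.card + 1)) : ℕ) : ℝ) := by exact_mod_cast h1
    refine h2.trans (le_of_eq ?_)
    push_cast
    ring

/-- **the small range** -/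
theorem sm4 (n : ℕ) (hn : 2 ≤ n) (e₀ : ℕ → ℕ → ℤ) (h : Ir n e₀) : ∃ C : ℝ, 0 ≤ C ∧ ∀ e : ℕ → ℕ → ℤ,
    (∀ j ≤ n, e (n - j) j = e₀ (n - j) j) → ∀ (R H : ℝ), 1 ≤ R → 1 ≤ H → ∀ T : Finset (ℤ × ℤ),
    (∀ P ∈ T, |((ev n e P.1 P.2 : ℤ) : ℝ)| ≤ H ∧ |(P.1 : ℝ)| ≤ R) →
    (T.card : ℝ) ≤ C * (R + H ^ (2 / (n : ℝ)) * (1 + Real.log H)) := by
  classical
  obtain ⟨a, ha⟩ : ∃ a : ℝ, a = |((e₀ 0 n : ℤ) : ℝ)| := ⟨_, rfl⟩
  have ha0 : 0 ≤ a := by rw [ha]; exact abs_nonneg _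
  obtain ⟨M, hM⟩ : ∃ M : ℝ, M = ((n * (n - 1) : ℕ) : ℝ) := ⟨_, rfl⟩
  have hM0 : 0 ≤ M := by rw [hM]; exact Nat.cast_nonneg _
  refine ⟨6 * n + 2 * n * (M * (8 * a + 2)), by positivity, ?_⟩
  intro e hee R H hR hH T hT
  have hn1 : (n : ℝ) ≠ 0 := by
    have : n ≠ 0 := by omega
    exact_mod_cast this
  have hH0 : (0 : ℝ) < H := by linarith
  have hfm : fm e n = fm e₀ n := by
    unfold fm
    refine Finset.sum_congr rfl fun j hj => ?_
    rw [hee j (by have := Finset.mem_range.1 hj; omega)]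
  have he0 : e 0 n = e₀ 0 n := by
    have := hee n le_rfl
    rwa [Nat.sub_self] at this
  have hI : Ir n e := ⟨by rw [he0]; exact h.1, by rw [hfm]; exact h.2⟩
  have hae : |((e 0 n : ℤ) : ℝ)| = a := by rw [he0, ha]
  have hk0 : (0 : ℝ) ≤ n := Nat.cast_nonneg _
  have hp1 : 1 ≤ H ^ (1 / (n : ℝ)) := Real.one_le_rpow hH (by positivity)
  have hp2 : H ^ (1 / (n : ℝ)) ≤ H ^ (2 / (n : ℝ)) :=
    Real.rpow_le_rpow_of_exponent_le hH (by
      refine div_le_div_of_nonneg_right (by norm_num) hk0)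
  -- the number `K`
  obtain ⟨K, hK⟩ : ∃ K : ℕ, K = ⌈H ^ (1 / (n : ℝ))⌉₊ := ⟨_, rfl⟩
  have hK1 : H ^ (1 / (n : ℝ)) ≤ K := by rw [hK]; exact Nat.le_ceil _
  have hK2 : (K : ℝ) ≤ 2 * H ^ (1 / (n : ℝ)) := by
    have := (Nat.ceil_lt_add_one (by linarith : (0 : ℝ) ≤ H ^ (1 / (n : ℝ)))).le
    rw [← hK] at this
    linarith
  have hK3 : 1 ≤ K := by
    have : (1 : ℝ) ≤ K := hp1.trans hK1
    exact_mod_cast this
  -- the values of `x`
  obtain ⟨V, hV⟩ : ∃ V : Finset ℤ, V = T.image Prod.fst := ⟨_, rfl⟩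
  have hVc : (V.card : ℝ) ≤ 3 * R := by
    have hsub : V ⊆ Finset.Icc (-⌊R⌋) ⌊R⌋ := by
      intro x hx
      rw [hV] at hx
      obtain ⟨P, hP, rfl⟩ := Finset.mem_image.1 hx
      have h1 := abs_le.1 (hT P hP).2
      rw [Finset.mem_Icc]
      constructor
      · have : (-P.1 : ℤ) ≤ ⌊R⌋ := by
          rw [Int.le_floor]
          push_cast
          linarith [h1.1]
        omega
      · rw [Int.le_floor]
        exact h1.2
    have h1 := Finset.card_le_card hsub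
    rw [Int.card_Icc] at h1
    have h2 : (V.card : ℤ) ≤ 2 * ⌊R⌋ + 1 := by
      have h3 : 0 ≤ ⌊R⌋ := Int.floor_nonneg.2 (by linarith)
      omega
    have h4 : ((V.card : ℤ) : ℝ) ≤ ((2 * ⌊R⌋ + 1 : ℤ) : ℝ) := by exact_mod_cast h2
    push_cast at h4
    have h5 := Int.floor_le R
    linarith
  -- fibres
  have hfib : ∀ x : ℤ, (T.filter fun P => P.1 = x).card = ((T.filter fun P => P.1 = x).image Prod.snd).card := by
    intro x
    rw [Finset.card_image_of_injOn]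
    intro P hP Q hQ hPQ
    have h1 := (Finset.mem_filter.1 (Finset.mem_coe.1 hP)).2
    have h2 := (Finset.mem_filter.1 (Finset.mem_coe.1 hQ)).2
    exact Prod.ext (h1.trans h2.symm) hPQ
  have hfe : ∀ x : ℤ, ∀ y ∈ (T.filter fun P => P.1 = x).image Prod.snd, |((ev n e x y : ℤ) : ℝ)| ≤ H := by
    intro x y hy
    obtain ⟨P, hP, rfl⟩ := Finset.mem_image.1 hy
    obtain ⟨h1, h2⟩ := Finset.mem_filter.1 hP
    rw [← h2]
    exact (hT P h1).1
  have hcard : (T.card : ℝ) = ∑ x ∈ V, ((T.filter fun P => P.1 = x).card : ℝ) := by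
    rw [hV]
    have := Finset.card_eq_sum_card_fiberwise (f := Prod.fst) (s := T) (t := T.image Prod.fst)
      (fun P hP => Finset.mem_coe.2 (Finset.mem_image_of_mem _ hP))
    exact_mod_cast this
  have hstep : (T.card : ℝ) ≤ ∑ x ∈ V, (n : ℝ) * (2 * (((Finset.Icc 1 K).filter fun m : ℕ => |(((dis n e).eval x : ℤ) : ℝ)| ≤
      |((e 0 n : ℤ) : ℝ)| * ((2 / (m : ℝ)) ^ (n * (n - 1)) * H ^ (2 * (n - 1)))).card : ℝ) + 2) := by
    rw [hcard]
    refine Finset.sum_le_sum fun x _ => ?_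
    rw [hfib]
    exact fibN n hn e hI.1 H hH x K hK1 _ (hfe x)
  -- swap the sums
  have hswap : ∑ x ∈ V, (((Finset.Icc 1 K).filter fun m : ℕ => |(((dis n e).eval x : ℤ) : ℝ)| ≤
      |((e 0 n : ℤ) : ℝ)| * ((2 / (m : ℝ)) ^ (n * (n - 1)) * H ^ (2 * (n - 1)))).card : ℝ) =
      ∑ m ∈ Finset.Icc 1 K, ((V.filter fun x => |(((dis n e).eval x : ℤ) : ℝ)| ≤
        |((e 0 n : ℤ) : ℝ)| * ((2 / (m : ℝ)) ^ (n * (n - 1)) * H ^ (2 * (n - 1)))).card : ℝ) := by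
    simp only [Finset.card_filter, Nat.cast_sum]
    exact Finset.sum_comm
  have hm : ∀ m ∈ Finset.Icc 1 K, ((V.filter fun x => |(((dis n e).eval x : ℤ) : ℝ)| ≤
        |((e 0 n : ℤ) : ℝ)| * ((2 / (m : ℝ)) ^ (n * (n - 1)) * H ^ (2 * (n - 1)))).card : ℝ) ≤
        M * (4 * a * H ^ (2 / (n : ℝ)) * (1 / (m : ℝ)) + 1) := by
    intro m hm
    rw [Finset.mem_Icc] at hm
    have hmK : (m : ℝ) ≤ K := by exact_mod_cast hm.2
    have := few_xm n hn e hI H hH m hm.1 (by linarith) (V.filter fun x => |(((dis n e).eval x : ℤ) : ℝ)| ≤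
        |((e 0 n : ℤ) : ℝ)| * ((2 / (m : ℝ)) ^ (n * (n - 1)) * H ^ (2 * (n - 1)))) fun x hx => (Finset.mem_filter.1 hx).2
    rw [hae, ← hM] at this
    rw [hae]
    refine this.trans (le_of_eq ?_)
    ring
  have hsum : ∑ m ∈ Finset.Icc 1 K, ((V.filter fun x => |(((dis n e).eval x : ℤ) : ℝ)| ≤
        |((e 0 n : ℤ) : ℝ)| * ((2 / (m : ℝ)) ^ (n * (n - 1)) * H ^ (2 * (n - 1)))).card : ℝ) ≤
        M * (4 * a * H ^ (2 / (n : ℝ)) * (1 + Real.log K) + K) := by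
    refine (Finset.sum_le_sum hm).trans ?_
    rw [← Finset.mul_sum, Finset.sum_add_distrib, ← Finset.mul_sum]
    simp only [Finset.sum_const, Nat.card_Icc, Nat.add_sub_cancel, nsmul_eq_mul, mul_one]
    refine mul_le_mul_of_nonneg_left ?_ hM0
    have := mul_le_mul_of_nonneg_left (harm_le K hK3) (by positivity : 0 ≤ 4 * a * H ^ (2 / (n : ℝ)))
    linarith
  have hlogH : 0 ≤ Real.log H := Real.log_nonneg hH
  have hlogK : Real.log K ≤ 1 + Real.log H := by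
    have h1 : Real.log K ≤ Real.log (2 * H ^ (1 / (n : ℝ))) :=
      Real.log_le_log (by exact_mod_cast hK3) hK2
    rw [Real.log_mul (by norm_num) (by positivity), Real.log_rpow hH0] at h1
    have h2 : Real.log 2 ≤ 1 := by
      have := Real.log_two_lt_d9
      linarith
    have h3 : 1 / (n : ℝ) * Real.log H ≤ 1 * Real.log H := by
      refine mul_le_mul_of_nonneg_right ?_ hlogH
      rw [div_le_one (by positivity)]
      have : 1 ≤ n := by omega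
      exact_mod_cast this
    linarith
  have hfin1 : 4 * a * H ^ (2 / (n : ℝ)) * (1 + Real.log K) + K ≤ (8 * a + 2) * (H ^ (2 / (n : ℝ)) * (1 + Real.log H)) := by
    have h1 : 1 + Real.log K ≤ 2 * (1 + Real.log H) := by linarith
    have h2 := mul_le_mul_of_nonneg_left h1 (by positivity : 0 ≤ 4 * a * H ^ (2 / (n : ℝ)))
    have h3 : (K : ℝ) ≤ 2 * (H ^ (2 / (n : ℝ)) * (1 + Real.log H)) := by
      have h4 : H ^ (2 / (n : ℝ)) ≤ H ^ (2 / (n : ℝ)) * (1 + Real.log H) := by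
        have : 0 ≤ H ^ (2 / (n : ℝ)) := by positivity
        nlinarith
      linarith
    have h5 : 4 * a * H ^ (2 / (n : ℝ)) * (2 * (1 + Real.log H)) = 8 * a * (H ^ (2 / (n : ℝ)) * (1 + Real.log H)) := by ring
    linarith
  have htot : (T.card : ℝ) ≤ 2 * n * (M * ((8 * a + 2) * (H ^ (2 / (n : ℝ)) * (1 + Real.log H)))) + 6 * n * R := by
    refine hstep.trans ?_
    rw [← Finset.mul_sum, Finset.sum_add_distrib, ← Finset.mul_sum, hswap]
    simp only [Finset.sum_const, nsmul_eq_mul]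
    have h1 := hsum.trans (mul_le_mul_of_nonneg_left hfin1 hM0)
    have h2 := mul_le_mul_of_nonneg_left h1 (by positivity : 0 ≤ 2 * (n : ℝ))
    have h3 := mul_le_mul_of_nonneg_left hVc (by positivity : 0 ≤ 2 * (n : ℝ))
    nlinarith
  have hX0 : 0 ≤ H ^ (2 / (n : ℝ)) * (1 + Real.log H) := by positivity
  have hc1 : 0 ≤ 2 * n * (M * (8 * a + 2)) := by positivity
  have hc2 : (0 : ℝ) ≤ 6 * n := by positivity
  have hR0 : 0 ≤ R := by linarith
  nlinarith [mul_nonneg hc1 hR0, mul_nonneg hc2 hX0]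

end Pool.Agent.H99.UC
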