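import Pool.Agent.H99.UC.Scl5

/-! # [H99 UC MED5] The middle range without the middle term (helper6)

The points with `|F| ≤ H`, `H² ≤ S^n`, `K S ≤ |P| ≤ (B S^n)^E` are `≤ C S`: there are `≤ C (1 + log S)` scales, each has `≤ C S^(5/6)` points
(`scale5`) and `(1 + log S) S^(5/6) ≤ 7 S`. First one chart (`|y| ≤ |x|`), then `sw e` (`ev_sw`, `ir_sw`). -/

namespace Pool.Agent.H99.UC

open Pool.Agent.H8.AA Pool.Agent.H42.AA

/-- one chart -/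
private theorem half5 (n : ℕ) (hn : 4 ≤ n) (e₀ : ℕ → ℕ → ℤ) (h : Ir n e₀) (B : ℕ) (hB : 2 ≤ B) (E : ℕ) :
    ∃ C K : ℝ, 0 ≤ C ∧ 1 ≤ K ∧
    ∀ (e : ℕ → ℕ → ℤ), (∀ j ≤ n, e (n - j) j = e₀ (n - j) j) → ∀ (S H : ℕ), 1 ≤ S → 1 ≤ H → H ^ 2 ≤ S ^ n →
    (∀ a b, a + b ≤ n → |e a b| ≤ (B * S ^ (n - (a + b)) : ℤ)) → ∀ T : Finset (ℤ × ℤ),
    (∀ P ∈ T, |ev n e P.1 P.2| ≤ (H : ℤ) ∧ |P.2| ≤ |P.1| ∧ K * S ≤ (|P.1| : ℤ) ∧
      |P.1| ≤ ((B : ℤ) * S ^ n) ^ E) →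
    (T.card : ℝ) ≤ C * S := by
  obtain ⟨C, K, hC, hK, hf⟩ := scale5 n hn e₀ h B hB
  have hB' : (2 : ℝ) ≤ (B : ℝ) := by exact_mod_cast hB
  have hlogB : 0 ≤ Real.log B := Real.log_nonneg (by linarith)
  set L₀ : ℝ := 2 * E * (Real.log B + n) + 1 with hL₀
  have hL₀1 : 1 ≤ L₀ := by
    rw [hL₀]
    have : 0 ≤ 2 * (E : ℝ) * (Real.log B + n) := by positivity
    linarith
  refine ⟨7 * L₀ * C, 2 * K, by positivity, by linarith, ?_⟩
  intro e he S H hS hH hHS hb T hT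
  have hS' : (1 : ℝ) ≤ (S : ℝ) := by exact_mod_cast hS
  have hS0 : (0 : ℝ) < (S : ℝ) := by linarith
  have hlogS : 0 ≤ Real.log S := Real.log_nonneg hS'
  set N : ℕ := ⌊2 * (E : ℝ) * (Real.log B + n * Real.log S)⌋₊ + 1 with hN
  have hpt : ∀ P ∈ T, P.1 ≠ 0 ∧ K * S ≤ (2 : ℝ) ^ sc P.1 ∧ sc P.1 < N := by
    intro P hP
    obtain ⟨h1, h2, h3, h4⟩ := hT P hP
    have h3' : 2 * K * S ≤ |(P.1 : ℝ)| := by
      rw [Int.cast_abs] at h3
      exact h3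
    have hx0 : 0 < |(P.1 : ℝ)| := by
      have : 0 < 2 * K * (S : ℝ) := by positivity
      linarith
    have hx : P.1 ≠ 0 := by
      intro h5
      rw [h5] at hx0
      simp at hx0
    have h5 := sc_le hx
    have h6 := lt_sc P.1
    refine ⟨hx, ?_, ?_⟩
    · linarith
    · rw [hN, Nat.lt_succ_iff]
      apply Nat.le_floor
      have h7 : |(P.1 : ℝ)| ≤ ((B : ℝ) * (S : ℝ) ^ n) ^ E := by exact_mod_cast h4
      have h8 : (2 : ℝ) ^ sc P.1 ≤ ((B : ℝ) * (S : ℝ) ^ n) ^ E := h5.trans h7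
      have hB0 : (B : ℝ) ≠ 0 := by positivity
      have hSn : (S : ℝ) ^ n ≠ 0 := by positivity
      have h9 : (sc P.1 : ℝ) * Real.log 2 ≤ E * (Real.log B + n * Real.log S) := by
        have h10 := Real.log_le_log (by positivity) h8
        rw [Real.log_pow, Real.log_pow, Real.log_mul hB0 hSn, Real.log_pow] at h10
        exact h10
      have h11 : (1 : ℝ) / 2 ≤ Real.log 2 := by
        have := Real.log_two_gt_d9
        linarith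
      have h12 : (0 : ℝ) ≤ (sc P.1 : ℝ) := Nat.cast_nonneg _
      nlinarith
  have hmaps : ∀ P ∈ T, sc P.1 ∈ Finset.range N := fun P hP => Finset.mem_range.2 (hpt P hP).2.2
  have hNL : (N : ℝ) ≤ L₀ * (1 + Real.log S) := by
    have h0 : 0 ≤ 2 * (E : ℝ) * (Real.log B + n * Real.log S) := by positivity
    have h1 := Nat.floor_le h0
    rw [hN, hL₀]
    push_cast
    have h2 : 0 ≤ 2 * (E : ℝ) * (Real.log B * Real.log S + n) := by positivity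
    nlinarith
  have h56 : 0 ≤ C * (S : ℝ) ^ (5 / 6 : ℝ) := by positivity
  have hcard : (T.card : ℝ) ≤ ∑ s ∈ Finset.range N, C * (S : ℝ) ^ (5 / 6 : ℝ) := by
    rw [Finset.card_eq_sum_card_fiberwise hmaps]
    push_cast
    refine Finset.sum_le_sum fun s _ => ?_
    rcases (T.filter fun P => sc P.1 = s).eq_empty_or_nonempty with h0 | ⟨Q, hQ⟩
    · rw [h0, Finset.card_empty]
      exact_mod_cast h56
    · rw [Finset.mem_filter] at hQ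
      apply hf e he S H hS hH hHS hb s
      · rw [← hQ.2]
        exact (hpt Q hQ.1).2.1
      · intro P hP
        rw [Finset.mem_filter] at hP
        obtain ⟨h1, h2, _, _⟩ := hT P hP.1
        exact ⟨h1, h2, hP.2⟩
  rw [Finset.sum_const, Finset.card_range, nsmul_eq_mul] at hcard
  have hlog : 1 + Real.log S ≤ 7 * (S : ℝ) ^ (1 / 6 : ℝ) := by
    have h1 := Real.log_le_rpow_div hS0.le (show (0 : ℝ) < 1 / 6 by norm_num)
    have h2 : (1 : ℝ) ≤ (S : ℝ) ^ (1 / 6 : ℝ) := Real.one_le_rpow hS' (by norm_num)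
    have h3 : (S : ℝ) ^ (1 / 6 : ℝ) / (1 / 6) = 6 * (S : ℝ) ^ (1 / 6 : ℝ) := by ring
    rw [h3] at h1
    linarith
  have hSS : (S : ℝ) ^ (1 / 6 : ℝ) * (S : ℝ) ^ (5 / 6 : ℝ) = S := by
    rw [← Real.rpow_add hS0]
    norm_num
  calc (T.card : ℝ) ≤ N * (C * (S : ℝ) ^ (5 / 6 : ℝ)) := hcard
    _ ≤ (L₀ * (7 * (S : ℝ) ^ (1 / 6 : ℝ))) * (C * (S : ℝ) ^ (5 / 6 : ℝ)) := by
        apply mul_le_mul_of_nonneg_right _ h56
        exact hNL.trans (mul_le_mul_of_nonneg_left hlog (by linarith))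
    _ = 7 * L₀ * C * ((S : ℝ) ^ (1 / 6 : ℝ) * (S : ℝ) ^ (5 / 6 : ℝ)) := by ring
    _ = 7 * L₀ * C * S := by rw [hSS]

theorem med5 (n : ℕ) (hn : 4 ≤ n) (e₀ : ℕ → ℕ → ℤ) (h : Ir n e₀) (B : ℕ) (hB : 2 ≤ B) (E : ℕ) :
    ∃ C K : ℝ, 0 ≤ C ∧ 1 ≤ K ∧
    ∀ (e : ℕ → ℕ → ℤ), (∀ j ≤ n, e (n - j) j = e₀ (n - j) j) → ∀ (S H : ℕ), 1 ≤ S → 1 ≤ H → H ^ 2 ≤ S ^ n →
    (∀ a b, a + b ≤ n → |e a b| ≤ (B * S ^ (n - (a + b)) : ℤ)) → ∀ T : Finset (ℤ × ℤ),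
    (∀ P ∈ T, |ev n e P.1 P.2| ≤ (H : ℤ) ∧ K * S ≤ (max |P.1| |P.2| : ℤ) ∧
      max |P.1| |P.2| ≤ ((B : ℤ) * S ^ n) ^ E) →
    (T.card : ℝ) ≤ C * S := by
  obtain ⟨C₁, K₁, hC₁, hK₁, hh₁⟩ := half5 n hn e₀ h B hB E
  obtain ⟨C₂, K₂, hC₂, hK₂, hh₂⟩ := half5 n hn (sw e₀) (ir_sw n (by omega) e₀ h) B hB E
  refine ⟨C₁ + C₂, max K₁ K₂, by positivity, hK₁.trans (le_max_left _ _), ?_⟩
  intro e he S H hS hH hHS hb T hT
  have hS0 : (0 : ℝ) ≤ (S : ℝ) := Nat.cast_nonneg _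
  have h1 := hh₁ e he S H hS hH hHS hb (T.filter fun P => |P.2| ≤ |P.1|) (by
    intro P hP
    rw [Finset.mem_filter] at hP
    obtain ⟨h2, h3, h4⟩ := hT P hP.1
    rw [max_eq_left hP.2] at h3 h4
    exact ⟨h2, hP.2, (mul_le_mul_of_nonneg_right (le_max_left _ _) hS0).trans h3, h4⟩)
  have hbs : ∀ a b, a + b ≤ n → |sw e a b| ≤ (B * S ^ (n - (a + b)) : ℤ) := by
    intro a b hab
    have h := hb b a (by omega)
    rw [Nat.add_comm b a] at h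
    exact h
  have hes : ∀ j ≤ n, sw e (n - j) j = sw e₀ (n - j) j := by
    intro j hj
    have h := he (n - j) (Nat.sub_le _ _)
    rw [Nat.sub_sub_self hj] at h
    exact h
  have h2 := hh₂ (sw e) hes S H hS hH hHS hbs
    ((T.filter fun P => ¬ |P.2| ≤ |P.1|).image Prod.swap) (by
    intro Q hQ
    rw [Finset.mem_image] at hQ
    obtain ⟨P, hP, rfl⟩ := hQ
    rw [Finset.mem_filter] at hP
    obtain ⟨h2, h3, h4⟩ := hT P hP.1
    have h5 : |P.1| ≤ |P.2| := (not_le.1 hP.2).le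
    rw [max_eq_right h5] at h3 h4
    refine ⟨?_, h5, (mul_le_mul_of_nonneg_right (le_max_right _ _) hS0).trans h3, h4⟩
    show |ev n (sw e) P.2 P.1| ≤ (H : ℤ)
    rw [ev_sw]
    exact h2)
  rw [Finset.card_image_of_injective _ Prod.swap_injective] at h2
  have h3 : T.card = (T.filter fun P => |P.2| ≤ |P.1|).card +
      (T.filter fun P => ¬ |P.2| ≤ |P.1|).card :=
    (Finset.card_filter_add_card_filter_not _).symm
  rw [h3]
  push_cast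
  linarith

end Pool.Agent.H99.UC
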