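import Pool.Agent.H99.UC.Dsc

/-! # [H99 UC RTS] Where a polynomial is small, a real root is near

`φ` an integer polynomial of degree `n` with distinct complex roots. -/

namespace Pool.Agent.H99.UC

open Finset Polynomial

/-- a positive lower bound of finitely many positive numbers -/
theorem pos_lower {ι : Type*} [Finite ι] (g : ι → ℝ) (hg : ∀ i, 0 < g i) : ∃ γ : ℝ, 0 < γ ∧ ∀ i, γ ≤ g i := by
  classical
  haveI := Fintype.ofFinite ι
  by_cases h : Nonempty ι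
  · obtain ⟨i, _, hi⟩ := Finset.exists_min_image (univ : Finset ι) g ⟨Classical.arbitrary ι, mem_univ _⟩
    exact ⟨g i, hg i, fun j => hi j (mem_univ j)⟩
  · exact ⟨1, one_pos, fun i => absurd ⟨i⟩ h⟩

theorem rts (n : ℕ) (hn : 1 ≤ n) (φ : ℤ[X]) (hφ : φ.natDegree = n)
    (hsep : IsCoprime (φ.map (Int.castRingHom ℂ)) (derivative (φ.map (Int.castRingHom ℂ)))) :
    ∃ ρ C T κ : ℝ, 0 < ρ ∧ 1 ≤ C ∧ 1 ≤ T ∧ 0 < κ ∧
      (∀ t : ℝ, aeval t φ = 0 → |t| ≤ T ∧ κ ≤ |aeval t (derivative φ)|) ∧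
      ∀ τ : ℝ, |aeval τ φ| ≤ ρ → ∃ t : ℝ, aeval t φ = 0 ∧ |τ - t| ≤ C * |aeval τ φ| := by
  have hφ0 : φ ≠ 0 := by
    rintro rfl
    rw [natDegree_zero] at hφ
    omega
  obtain ⟨r, hr⟩ := factor n φ hφ hφ0
  have ha1 : (1 : ℝ) ≤ |((φ.leadingCoeff : ℤ) : ℝ)| := by
    have : (1 : ℤ) ≤ |φ.leadingCoeff| := Int.one_le_abs (leadingCoeff_ne_zero.2 hφ0)
    exact_mod_cast this
  have ha0 : ((φ.leadingCoeff : ℤ) : ℂ) ≠ 0 := by exact_mod_cast leadingCoeff_ne_zero.2 hφ0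
  -- values
  have hval : ∀ τ : ℝ, |aeval τ φ| = |((φ.leadingCoeff : ℤ) : ℝ)| * ∏ i, ‖(τ : ℂ) - r i‖ := by
    intro τ
    have h1 : ((aeval τ φ : ℝ) : ℂ) = (φ.map (Int.castRingHom ℂ)).eval (τ : ℂ) := by
      rw [eval_map, aeval_def, ← Complex.coe_algebraMap, hom_eval₂]
      congr 1
    have h2 : |aeval τ φ| = ‖((aeval τ φ : ℝ) : ℂ)‖ := by
      rw [Complex.norm_real, Real.norm_eq_abs]
    rw [h2, h1, hr, eval_mul, eval_C, eval_prod, norm_mul, Complex.norm_intCast, norm_prod]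
    simp
  have hroot : ∀ t : ℝ, aeval t φ = 0 → ∃ k, r k = (t : ℂ) := by
    intro t ht
    have h1 := hval t
    rw [ht, abs_zero] at h1
    have h2 : ∏ i, ‖(t : ℂ) - r i‖ = 0 := by
      rcases mul_eq_zero.1 h1.symm with h | h
      · linarith
      · exact h
    obtain ⟨k, _, hk⟩ := Finset.prod_eq_zero_iff.1 h2
    exact ⟨k, (sub_eq_zero.1 (norm_eq_zero.1 hk)).symm⟩
  have hroot' : ∀ (k : Fin n) (t : ℝ), r k = (t : ℂ) → aeval t φ = 0 := by
    intro k t hk
    have h1 := hval t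
    rw [Finset.prod_eq_zero (mem_univ k) (by rw [hk, sub_self, norm_zero]), mul_zero] at h1
    exact abs_eq_zero.1 h1
  -- distinct roots
  have hdist : ∀ i j, i ≠ j → r i ≠ r j := by
    intro i j hij h
    obtain ⟨u, v, huv⟩ := hsep
    have h1 : eval (r i) (φ.map (Int.castRingHom ℂ)) = 0 := by
      rw [hr, eval_mul, eval_prod, Finset.prod_eq_zero (mem_univ i) (by simp), mul_zero]
    have h2 : eval (r i) (derivative (φ.map (Int.castRingHom ℂ))) = 0 := by
      rw [hr, derivative_C_mul, eval_mul, eval_deriv_prod,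
        Finset.prod_eq_zero (Finset.mem_erase.2 ⟨hij.symm, mem_univ j⟩) (by rw [h, sub_self]), mul_zero]
    have h3 := congrArg (eval (r i)) huv
    rw [eval_add, eval_mul, eval_mul, h1, h2] at h3
    simp at h3
  obtain ⟨γ1, hγ1, hγ1'⟩ := pos_lower (fun p : Fin n × Fin n => if p.1 = p.2 then (1 : ℝ) else ‖r p.1 - r p.2‖) (by
    intro p
    split_ifs with h
    · exact one_pos
    · exact norm_pos_iff.2 (sub_ne_zero.2 (hdist _ _ h)))
  obtain ⟨γ2, hγ2, hγ2'⟩ := pos_lower (fun i : Fin n => if (r i).im = 0 then (1 : ℝ) else |(r i).im|) (by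
    intro i
    split_ifs with h
    · exact one_pos
    · exact abs_pos.2 h)
  obtain ⟨γ, hγd⟩ : ∃ γ : ℝ, γ = min γ1 γ2 := ⟨_, rfl⟩
  have hγ : 0 < γ := by rw [hγd]; exact lt_min hγ1 hγ2
  have hγr : ∀ i j, i ≠ j → γ ≤ ‖r i - r j‖ := by
    intro i j hij
    have h1 := hγ1' (i, j)
    simp only [if_neg hij] at h1
    rw [hγd]
    exact (min_le_left _ _).trans h1
  have hγi : ∀ i, (r i).im ≠ 0 → γ ≤ |(r i).im| := by
    intro i hi
    have h1 := hγ2' i
    simp only [if_neg hi] at h1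
    rw [hγd]
    exact (min_le_right _ _).trans h1
  refine ⟨(γ / 2) ^ n / 2, (2 / γ) ^ (n - 1) + 1, 1 + ∑ i, ‖r i‖, γ ^ (n - 1), by positivity, ?_, ?_, by positivity, ?_, ?_⟩
  · have : 0 ≤ (2 / γ) ^ (n - 1) := by positivity
    linarith
  · have : 0 ≤ ∑ i, ‖r i‖ := Finset.sum_nonneg fun _ _ => norm_nonneg _
    linarith
  · intro t ht
    obtain ⟨k, hk⟩ := hroot t ht
    constructor
    · have h1 : ‖r k‖ ≤ ∑ i, ‖r i‖ := Finset.single_le_sum (f := fun i => ‖r i‖) (fun _ _ => norm_nonneg _) (mem_univ k)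
      rw [hk, Complex.norm_real, Real.norm_eq_abs] at h1
      linarith
    · have h1 : ((aeval t (derivative φ) : ℝ) : ℂ) = (derivative (φ.map (Int.castRingHom ℂ))).eval (t : ℂ) := by
        rw [derivative_map, eval_map, aeval_def, ← Complex.coe_algebraMap, hom_eval₂]
        congr 1
      have h2 : |aeval t (derivative φ)| = ‖((aeval t (derivative φ) : ℝ) : ℂ)‖ := by
        rw [Complex.norm_real, Real.norm_eq_abs]
      rw [h2, h1, ← hk, hr, derivative_C_mul, eval_mul, eval_deriv_prod, eval_C, norm_mul, Complex.norm_intCast, norm_prod]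
      have h3 : γ ^ (n - 1) ≤ ∏ j ∈ univ.erase k, ‖r k - r j‖ := by
        have h4 : ∏ j ∈ univ.erase k, γ = γ ^ (n - 1) := by
          rw [Finset.prod_const, Finset.card_erase_of_mem (mem_univ k)]
          simp
        rw [← h4]
        refine Finset.prod_le_prod (fun _ _ => hγ.le) fun j hj => ?_
        exact hγr k j (Finset.mem_erase.1 hj).1.symm
      have h5 : 0 ≤ γ ^ (n - 1) := by positivity
      nlinarith
  · intro τ hτ
    have hne : (univ : Finset (Fin n)).Nonempty := ⟨⟨0, hn⟩, mem_univ _⟩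
    obtain ⟨i, _, hi⟩ := Finset.exists_min_image univ (fun i => ‖(τ : ℂ) - r i‖) hne
    have hP0 : 0 ≤ ∏ i, ‖(τ : ℂ) - r i‖ := Finset.prod_nonneg fun _ _ => norm_nonneg _
    have h1 : ‖(τ : ℂ) - r i‖ ^ n ≤ |aeval τ φ| := by
      rw [hval]
      have h2 : ‖(τ : ℂ) - r i‖ ^ n ≤ ∏ i, ‖(τ : ℂ) - r i‖ := by
        have h3 : ∏ _j : Fin n, ‖(τ : ℂ) - r i‖ = ‖(τ : ℂ) - r i‖ ^ n := by
          rw [Finset.prod_const, card_univ, Fintype.card_fin]
        rw [← h3]
        exact Finset.prod_le_prod (fun _ _ => norm_nonneg _) fun j _ => hi j (mem_univ j)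
      nlinarith
    have h2 : ‖(τ : ℂ) - r i‖ < γ / 2 := by
      by_contra hcon
      push Not at hcon
      have h3 : (γ / 2) ^ n ≤ ‖(τ : ℂ) - r i‖ ^ n := pow_le_pow_left₀ (by positivity) hcon _
      have h4 : 0 < (γ / 2) ^ n := by positivity
      linarith
    have him : (r i).im = 0 := by
      by_contra h
      have h3 := hγi i h
      have h4 : |(r i).im| ≤ ‖(τ : ℂ) - r i‖ := by
        have := Complex.abs_im_le_norm ((τ : ℂ) - r i)
        simpa using this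
      linarith
    have hri : r i = (((r i).re : ℝ) : ℂ) := by
      apply Complex.ext
      · simp
      · simpa using him
    refine ⟨(r i).re, hroot' i _ hri, ?_⟩
    have h3 : |τ - (r i).re| = ‖(τ : ℂ) - r i‖ := by
      conv_rhs => rw [hri]
      rw [← Complex.ofReal_sub, Complex.norm_real, Real.norm_eq_abs]
    rw [h3]
    have h4 : (γ / 2) ^ (n - 1) ≤ ∏ j ∈ univ.erase i, ‖(τ : ℂ) - r j‖ := by
      have h5 : ∏ _j ∈ univ.erase i, (γ / 2) = (γ / 2) ^ (n - 1) := by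
        rw [Finset.prod_const, Finset.card_erase_of_mem (mem_univ i)]
        simp
      rw [← h5]
      refine Finset.prod_le_prod (fun _ _ => by positivity) fun j hj => ?_
      have h6 := hγr i j (Finset.mem_erase.1 hj).1.symm
      have h7 : ‖r i - r j‖ ≤ ‖(τ : ℂ) - r j‖ + ‖(τ : ℂ) - r i‖ := by
        have : r i - r j = ((τ : ℂ) - r j) - ((τ : ℂ) - r i) := by ring
        rw [this]
        exact norm_sub_le _ _
      linarith
    have h5 : ‖(τ : ℂ) - r i‖ * (γ / 2) ^ (n - 1) ≤ |aeval τ φ| := by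
      rw [hval]
      have h6 : ‖(τ : ℂ) - r i‖ * (γ / 2) ^ (n - 1) ≤ ∏ j, ‖(τ : ℂ) - r j‖ := by
        rw [← Finset.mul_prod_erase _ _ (mem_univ i)]
        exact mul_le_mul_of_nonneg_left h4 (norm_nonneg _)
      nlinarith
    have h6 : (2 / γ) ^ (n - 1) * (γ / 2) ^ (n - 1) = 1 := by
      rw [← mul_pow]
      have : 2 / γ * (γ / 2) = 1 := by field_simp
      rw [this, one_pow]
    have h7 : 0 ≤ (2 / γ) ^ (n - 1) := by positivity
    have h8 : ‖(τ : ℂ) - r i‖ ≤ (2 / γ) ^ (n - 1) * |aeval τ φ| := by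
      calc ‖(τ : ℂ) - r i‖ = (2 / γ) ^ (n - 1) * (‖(τ : ℂ) - r i‖ * (γ / 2) ^ (n - 1)) := by
            rw [← mul_assoc, mul_comm ((2 / γ) ^ (n - 1)), mul_assoc, h6, mul_one]
        _ ≤ _ := mul_le_mul_of_nonneg_left h5 h7
    have h9 : 0 ≤ |aeval τ φ| := abs_nonneg _
    linarith

end Pool.Agent.H99.UC
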