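import Pool.Agent.H8.AA.Def
import Pool.Agent.H99.UC.Rts
import Pool.Agent.H72.ES.BridgeB

/-! # [H99 UC ALG] The span case: algebra

`slope`: if `F_(n-1) = w₀ f_x + w₁ f_y` then the asymptotes are `y + w₁ = t (x + w₀)`. `denom`: `w` has a bounded denominator and is `O(S)`.
`conj`: a flex at one real point at infinity is a flex at all. `contact`: contact of order `≥ 3` gives `flexv = 0`. -/

namespace Pool.Agent.H99.UC

open Finset Polynomial Pool.Agent.H72.ES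

theorem part0_coeff (n : ℕ) (G : ℕ → ℕ → ℤ) (φ : ℤ[X]) (h : part n 0 G = φ) {j : ℕ} (hj : j ≤ n) : G (n - j) j = φ.coeff j := by
  rw [← h, part_zero, lead_coeff, if_pos (by omega)]

theorem sum_part (n k : ℕ) (G : ℕ → ℕ → ℤ) (t : ℝ) :
    aeval t (part n k G) = ∑ j ∈ range (n + 1 - k), (G (n - k - j) j : ℝ) * t ^ j := by
  unfold part
  rw [map_sum]
  refine Finset.sum_congr rfl fun j _ => ?_
  simp

theorem slope (n : ℕ) (hn : 1 ≤ n) (G : ℕ → ℕ → ℤ) (φ : ℤ[X]) (hφ : part n 0 G = φ) (w₀ w₁ : ℚ)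
    (hw : ∀ j < n, (G (n - 1 - j) j : ℚ) = w₀ * (n - j : ℕ) * G (n - j) j + w₁ * (j + 1 : ℕ) * G (n - 1 - j) (j + 1))
    (t : ℝ) (ht : aeval t φ = 0) : tc n G t 1 0 = tc n G t 0 1 * ((w₁ : ℝ) - w₀ * t) := by
  have h10 : tc n G t 1 0 = ∑ j ∈ range n, (G (n - 1 - j) j : ℝ) * t ^ j := by
    rw [tc_eq_eval, hasseDeriv_zero, LinearMap.id_apply, sum_part]
    rfl
  have h01 : tc n G t 0 1 = ∑ j ∈ range n, (((j + 1 : ℕ) : ℝ) * G (n - 1 - j) (j + 1)) * t ^ j := by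
    unfold tc
    rw [Nat.sub_zero, Finset.sum_range_succ', Nat.choose_zero_succ, Nat.cast_zero, mul_zero, zero_mul, add_zero]
    refine Finset.sum_congr rfl fun j hj => ?_
    rw [Nat.choose_one_right]
    have e1 : n - 0 - (j + 1) = n - 1 - j := by omega
    rw [e1]
    push_cast
    ring
  have h00 : ∑ j ∈ range (n + 1), (G (n - j) j : ℝ) * t ^ j = 0 := by
    rw [← ht, ← hφ, sum_part]
    rfl
  have hE : ∑ j ∈ range n, (((n - j : ℕ) : ℝ) * G (n - j) j) * t ^ j = -(t * tc n G t 0 1) := by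
    have h1 : ∑ j ∈ range (n + 1), (((n - j : ℕ) : ℝ) * G (n - j) j) * t ^ j = ∑ j ∈ range n, (((n - j : ℕ) : ℝ) * G (n - j) j) * t ^ j := by
      rw [Finset.sum_range_succ, Nat.sub_self]
      simp
    have h2 : t * tc n G t 0 1 = ∑ j ∈ range (n + 1), ((j : ℝ) * G (n - j) j) * t ^ j := by
      rw [h01, Finset.sum_range_succ', Nat.cast_zero, zero_mul, zero_mul, add_zero, Finset.mul_sum]
      refine Finset.sum_congr rfl fun j hj => ?_
      have e1 : n - (j + 1) = n - 1 - j := by omega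
      rw [e1, pow_succ]
      push_cast
      ring
    rw [← h1, h2, eq_neg_iff_add_eq_zero, ← Finset.sum_add_distrib]
    have h3 : ∀ j ∈ range (n + 1), (((n - j : ℕ) : ℝ) * G (n - j) j) * t ^ j + ((j : ℝ) * G (n - j) j) * t ^ j =
        n * ((G (n - j) j : ℝ) * t ^ j) := by
      intro j hj
      have hj' : j ≤ n := by
        have := mem_range.1 hj
        omega
      rw [Nat.cast_sub hj']
      ring
    rw [Finset.sum_congr rfl h3, ← Finset.mul_sum, h00, mul_zero]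
  have hwr : ∀ j < n, (G (n - 1 - j) j : ℝ) = w₀ * (n - j : ℕ) * G (n - j) j + w₁ * (j + 1 : ℕ) * G (n - 1 - j) (j + 1) := by
    intro j hj
    exact_mod_cast congrArg (fun q : ℚ => (q : ℝ)) (hw j hj)
  have hsum : tc n G t 1 0 = w₀ * ∑ j ∈ range n, (((n - j : ℕ) : ℝ) * G (n - j) j) * t ^ j + w₁ * tc n G t 0 1 := by
    rw [h10, h01, Finset.mul_sum, Finset.mul_sum, ← Finset.sum_add_distrib]
    refine Finset.sum_congr rfl fun j hj => ?_
    rw [hwr j (mem_range.1 hj)]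
    ring
  rw [hsum, hE]
  ring

/-- distinct roots -/
theorem roots_inj {n : ℕ} (φ : ℤ[X]) (r : Fin n → ℂ)
    (hr : φ.map (Int.castRingHom ℂ) = C ((φ.leadingCoeff : ℤ) : ℂ) * ∏ i, (X - C (r i)))
    (hsep : IsCoprime (φ.map (Int.castRingHom ℂ)) (derivative (φ.map (Int.castRingHom ℂ)))) (i j : Fin n) (hij : i ≠ j) :
    r i ≠ r j ∧ eval (r i) (φ.map (Int.castRingHom ℂ)) = 0 ∧ eval (r i) (derivative (φ.map (Int.castRingHom ℂ))) ≠ 0 := by
  have h1 : eval (r i) (φ.map (Int.castRingHom ℂ)) = 0 := by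
    rw [hr, eval_mul, eval_prod, Finset.prod_eq_zero (mem_univ i) (by simp), mul_zero]
  obtain ⟨u, v, huv⟩ := hsep
  have h3 := congrArg (eval (r i)) huv
  rw [eval_add, eval_mul, eval_mul, h1] at h3
  have h4 : eval (r i) (derivative (φ.map (Int.castRingHom ℂ))) ≠ 0 := by
    intro h
    rw [h] at h3
    simp at h3
  refine ⟨fun h => h4 ?_, h1, h4⟩
  rw [hr, derivative_C_mul, eval_mul, eval_deriv_prod,
    Finset.prod_eq_zero (Finset.mem_erase.2 ⟨hij.symm, mem_univ j⟩) (by rw [h, sub_self]), mul_zero]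

/-- `f_x` and `f_y` are linearly independent: a nonzero minor -/
theorem minor (n : ℕ) (hn : 2 ≤ n) (φ : ℤ[X]) (hφ : φ.natDegree = n)
    (hsep : IsCoprime (φ.map (Int.castRingHom ℂ)) (derivative (φ.map (Int.castRingHom ℂ)))) :
    ∃ i < n, ((n - i : ℕ) : ℤ) * φ.coeff i * (n * φ.coeff n) - φ.coeff (n - 1) * (((i + 1 : ℕ) : ℤ) * φ.coeff (i + 1)) ≠ 0 := by
  by_contra hcon
  push Not at hcon
  have hφ0 : φ ≠ 0 := by
    rintro rfl
    rw [natDegree_zero] at hφ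
    omega
  obtain ⟨r, hr⟩ := factor n φ hφ hφ0
  have hlead : φ.coeff n ≠ 0 := by
    have := leadingCoeff_ne_zero.2 hφ0
    rwa [leadingCoeff, hφ] at this
  have hpoly : C (n * φ.coeff n) * (C (n : ℤ) * φ - X * derivative φ) = C (φ.coeff (n - 1)) * derivative φ := by
    ext i
    rw [coeff_C_mul, coeff_C_mul, coeff_sub, coeff_C_mul, coeff_derivative]
    have hXd : (X * derivative φ).coeff i = i * φ.coeff i := by
      rcases i with _ | i
      · simp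
      · rw [coeff_X_mul, coeff_derivative]
        push_cast
        ring
    rw [hXd]
    rcases lt_or_ge i n with hi | hi
    · have h1 := hcon i hi
      rw [Nat.cast_sub hi.le] at h1
      push_cast at h1 ⊢
      linear_combination h1
    · rw [coeff_eq_zero_of_natDegree_lt (show φ.natDegree < i + 1 by omega)]
      rcases eq_or_lt_of_le hi with h | h
      · subst h
        ring
      · rw [coeff_eq_zero_of_natDegree_lt (show φ.natDegree < i by omega)]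
        ring
  have key : ∀ k : Fin n, ((n * φ.coeff n : ℤ) : ℂ) * r k = -((φ.coeff (n - 1) : ℤ) : ℂ) := by
    intro k
    obtain ⟨j, hj⟩ : ∃ j : Fin n, k ≠ j := by
      haveI : Nontrivial (Fin n) := Fin.nontrivial_iff_two_le.2 hn
      obtain ⟨j, hj⟩ := exists_ne k
      exact ⟨j, hj.symm⟩
    obtain ⟨_, h1, h2⟩ := roots_inj φ r hr hsep k j hj
    have h3 := congrArg (fun p : ℤ[X] => eval (r k) (p.map (Int.castRingHom ℂ))) hpoly
    simp only [Polynomial.map_mul, Polynomial.map_sub, map_C, map_X, eval_mul, eval_sub, eval_C, eval_X] at h3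
    rw [← derivative_map, h1, mul_zero, zero_sub] at h3
    have h4 : (((n * φ.coeff n : ℤ) : ℂ) * r k + ((φ.coeff (n - 1) : ℤ) : ℂ)) * eval (r k) (derivative (φ.map (Int.castRingHom ℂ))) = 0 := by
      have e1 : (Int.castRingHom ℂ) (n * φ.coeff n) = ((n * φ.coeff n : ℤ) : ℂ) := rfl
      have e2 : (Int.castRingHom ℂ) (φ.coeff (n - 1)) = ((φ.coeff (n - 1) : ℤ) : ℂ) := rfl
      rw [e1, e2] at h3
      linear_combination (-1 : ℂ) * h3
    exact eq_neg_of_add_eq_zero_left ((mul_eq_zero.1 h4).resolve_right h2)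
  have hb : ((n * φ.coeff n : ℤ) : ℂ) ≠ 0 := by
    have : (n : ℤ) * φ.coeff n ≠ 0 := mul_ne_zero (by exact_mod_cast (by omega : n ≠ 0)) hlead
    exact_mod_cast this
  have h01 : r ⟨0, by omega⟩ = r ⟨1, by omega⟩ := mul_left_cancel₀ hb ((key _).trans (key _).symm)
  exact (roots_inj φ r hr hsep ⟨0, by omega⟩ ⟨1, by omega⟩ (by simp)).1 h01

/-- bounded denominator and size of `w` -/
theorem denom (n : ℕ) (hn : 2 ≤ n) (φ : ℤ[X]) (hφ : φ.natDegree = n)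
    (hsep : IsCoprime (φ.map (Int.castRingHom ℂ)) (derivative (φ.map (Int.castRingHom ℂ)))) (B : ℝ) (hB : 0 ≤ B) :
    ∃ (D : ℤ) (W : ℝ), D ≠ 0 ∧ 1 ≤ W ∧ ∀ (G : ℕ → ℕ → ℤ) (S : ℝ), 0 ≤ S → part n 0 G = φ →
      (∀ j < n, |(G (n - 1 - j) j : ℝ)| ≤ B * S) → ∀ w₀ w₁ : ℚ,
      (∀ j < n, (G (n - 1 - j) j : ℚ) = w₀ * (n - j : ℕ) * G (n - j) j + w₁ * (j + 1 : ℕ) * G (n - 1 - j) (j + 1)) →
      (∃ k : ℤ, (D : ℚ) * w₀ = k) ∧ (∃ k : ℤ, (D : ℚ) * w₁ = k) ∧ |(w₀ : ℝ)| ≤ W * S ∧ |(w₁ : ℝ)| ≤ W * S := by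
  obtain ⟨i, hi, hD⟩ := minor n hn φ hφ hsep
  obtain ⟨a, ha⟩ : ∃ a : ℤ, a = ((n - i : ℕ) : ℤ) * φ.coeff i := ⟨_, rfl⟩
  obtain ⟨b, hb⟩ : ∃ b : ℤ, b = ((i + 1 : ℕ) : ℤ) * φ.coeff (i + 1) := ⟨_, rfl⟩
  obtain ⟨a', ha'⟩ : ∃ a' : ℤ, a' = φ.coeff (n - 1) := ⟨_, rfl⟩
  obtain ⟨b', hb'⟩ : ∃ b' : ℤ, b' = n * φ.coeff n := ⟨_, rfl⟩
  rw [← ha, ← hb, ← ha', ← hb'] at hD
  refine ⟨a * b' - a' * b, 1 + B * (|(a : ℝ)| + |(b : ℝ)| + |(a' : ℝ)| + |(b' : ℝ)|), hD, ?_, ?_⟩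
  · have : 0 ≤ B * (|(a : ℝ)| + |(b : ℝ)| + |(a' : ℝ)| + |(b' : ℝ)|) := by positivity
    linarith
  intro G S hS hGφ hG w₀ w₁ hw
  have e1 := hw i hi
  have e2 := hw (n - 1) (by omega)
  have hGi : G (n - i) i = φ.coeff i := part0_coeff n G φ hGφ hi.le
  have hGi1 : G (n - 1 - i) (i + 1) = φ.coeff (i + 1) := by
    have := part0_coeff n G φ hGφ (show i + 1 ≤ n by omega)
    rwa [show n - (i + 1) = n - 1 - i by omega] at this
  have hGn : G (n - (n - 1)) (n - 1) = φ.coeff (n - 1) := part0_coeff n G φ hGφ (by omega)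
  have hGn1 : G (n - 1 - (n - 1)) (n - 1 + 1) = φ.coeff n := by
    have e : n - 1 + 1 = n := by omega
    have e' : n - 1 - (n - 1) = n - n := by omega
    rw [e', e]
    exact part0_coeff n G φ hGφ le_rfl
  obtain ⟨g, hg⟩ : ∃ g : ℤ, g = G (n - 1 - i) i := ⟨_, rfl⟩
  obtain ⟨g', hg'⟩ : ∃ g' : ℤ, g' = G (n - 1 - (n - 1)) (n - 1) := ⟨_, rfl⟩
  have f1 : (g : ℚ) = w₀ * a + w₁ * b := by
    rw [hg, e1, hGi, hGi1, ha, hb]
    push_cast
    ring
  have f2 : (g' : ℚ) = w₀ * a' + w₁ * b' := by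
    rw [hg', e2, hGn, hGn1, ha', hb', show n - (n - 1) = 1 by omega, show n - 1 + 1 = n by omega]
    push_cast
    ring
  have g1 : (((a * b' - a' * b : ℤ)) : ℚ) * w₀ = ((g * b' - g' * b : ℤ) : ℚ) := by
    push_cast
    rw [f1, f2]
    ring
  have g2 : (((a * b' - a' * b : ℤ)) : ℚ) * w₁ = ((a * g' - a' * g : ℤ) : ℚ) := by
    push_cast
    rw [f1, f2]
    ring
  have hD1 : (1 : ℝ) ≤ |((a * b' - a' * b : ℤ) : ℝ)| := by
    have : (1 : ℤ) ≤ |a * b' - a' * b| := Int.one_le_abs hD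
    exact_mod_cast this
  have hgb : |(g : ℝ)| ≤ B * S := by rw [hg]; exact hG i hi
  have hgb' : |(g' : ℝ)| ≤ B * S := by rw [hg']; exact hG (n - 1) (by omega)
  have hBS : 0 ≤ B * S := by positivity
  refine ⟨⟨_, g1⟩, ⟨_, g2⟩, ?_, ?_⟩
  · have g1r : ((a * b' - a' * b : ℤ) : ℝ) * w₀ = ((g * b' - g' * b : ℤ) : ℝ) := by
      exact_mod_cast congrArg (fun q : ℚ => (q : ℝ)) g1
    have h1 : |((a * b' - a' * b : ℤ) : ℝ)| * |(w₀ : ℝ)| ≤ B * S * (|(b' : ℝ)| + |(b : ℝ)|) := by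
      rw [← abs_mul, g1r]
      push_cast
      refine (abs_sub _ _).trans ?_
      rw [abs_mul, abs_mul]
      nlinarith [mul_le_mul_of_nonneg_right hgb (abs_nonneg (b' : ℝ)), mul_le_mul_of_nonneg_right hgb' (abs_nonneg (b : ℝ))]
    have h2 : |(w₀ : ℝ)| ≤ B * S * (|(b' : ℝ)| + |(b : ℝ)|) := by nlinarith [abs_nonneg (w₀ : ℝ)]
    have h3 : 0 ≤ B * S * (|(a : ℝ)| + |(a' : ℝ)|) := by positivity
    nlinarith
  · have g2r : ((a * b' - a' * b : ℤ) : ℝ) * w₁ = ((a * g' - a' * g : ℤ) : ℝ) := by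
      exact_mod_cast congrArg (fun q : ℚ => (q : ℝ)) g2
    have h1 : |((a * b' - a' * b : ℤ) : ℝ)| * |(w₁ : ℝ)| ≤ B * S * (|(a : ℝ)| + |(a' : ℝ)|) := by
      rw [← abs_mul, g2r]
      push_cast
      refine (abs_sub _ _).trans ?_
      rw [abs_mul, abs_mul]
      nlinarith [mul_le_mul_of_nonneg_right hgb' (abs_nonneg (a : ℝ)), mul_le_mul_of_nonneg_right hgb (abs_nonneg (a' : ℝ))]
    have h2 : |(w₁ : ℝ)| ≤ B * S * (|(a : ℝ)| + |(a' : ℝ)|) := by nlinarith [abs_nonneg (w₁ : ℝ)]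
    have h3 : 0 ≤ B * S * (|(b : ℝ)| + |(b' : ℝ)|) := by positivity
    nlinarith

/-- a flex at one real point at infinity is a flex at all of them -/
theorem conj (n : ℕ) (φ : ℤ[X]) (hirr : Irreducible (φ.map (Int.castRingHom ℚ))) (G : ℕ → ℕ → ℤ)
    (θ : ℝ) (hθ : aeval θ φ = 0) (hfl : flexv n G θ = 0) (t : ℝ) (ht : aeval t φ = 0) : flexv n G t = 0 := by
  have hq : ∀ (s : ℝ) (p : ℤ[X]), aeval s (p.map (Int.castRingHom ℚ)) = aeval s p := by
    intro s p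
    exact aeval_map_algebraMap ℚ s p
  rcases EuclideanDomain.dvd_or_coprime (φ.map (Int.castRingHom ℚ)) ((flexP n G).map (Int.castRingHom ℚ)) hirr with h | h
  · obtain ⟨q, hq'⟩ := h
    have h1 := congrArg (aeval t) hq'
    rw [map_mul, hq, hq, ht, zero_mul, flexP_eval] at h1
    linarith
  · obtain ⟨u, v, huv⟩ := h
    have h1 := congrArg (aeval θ) huv
    rw [map_add, map_mul, map_mul, hq, hq, hθ, flexP_eval, hfl, map_one] at h1
    simp at h1

/-- contact of order `≥ 3` at a real point at infinity -/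
theorem contact (n : ℕ) (hn : 4 ≤ n) (G : ℕ → ℕ → ℤ) (θ β : ℝ)
    (h : (ev n (cst ℝ[X] G) X (C θ * X + C β)).natDegree < n - 2) : aeval θ (part n 0 G) = 0 ∧ flexv n G θ = 0 := by
  rw [line_poly] at h
  have hc : ∀ s ≤ 2, ∑ i ∈ range (s + 1), tc n G θ i (s - i) * β ^ (s - i) = 0 := by
    intro s hs
    have h1 := coeff_line n (fun i j => tc n G θ i j * β ^ j) s (by omega)
    rw [coeff_eq_zero_of_natDegree_lt (lt_of_lt_of_le h (by omega))] at h1
    exact h1.symm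
  have h0 := hc 0 (by omega)
  have h1 := hc 1 (by omega)
  have h2 := hc 2 (by omega)
  simp only [sum_range_succ, range_zero, sum_empty, zero_add, Nat.sub_zero, Nat.sub_self, pow_zero, mul_one, pow_one] at h0 h1 h2
  constructor
  · rw [part_zero, ← tc_zero_zero]
    exact h0
  · have e1 : tc n G θ 1 0 = -(tc n G θ 0 1 * β) := by linarith
    have e2 : (2 - 1 : ℕ) = 1 := rfl
    rw [e2, pow_one] at h2
    unfold flexv
    rw [e1]
    linear_combination (tc n G θ 0 1) ^ 2 * h2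

end Pool.Agent.H99.UC
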