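import Pool.Agent.H8.UC.Asm3
import Pool.Agent.H12.TU.Pob

/-! # [H99 UC ASM6] THEOREM UC+++: the integer solutions of `|F| ≤ H`, every `F` with leading form `f`, no exception

By `H12.TU.pob` every integer zero of every `F + c` is in the box `max(h^E, C)`, so ALL integer solutions of `|F| ≤ H` are counted by `pts3`. -/

namespace Pool.Agent.H99.UC

open MvPolynomial Pool.Agent.H8.AA Pool.Agent.H8.UC

/-- all integer solutions are in a box -/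
theorem count6 (n : ℕ) (hn : 4 ≤ n) (f : MvPolynomial (Fin 2) ℤ) (hf : f.IsHomogeneous n)
    (hirr : Irreducible (map (Int.castRingHom ℚ) f)) :
    ∃ E B : ℕ, 2 ≤ B ∧ (∀ m, |f.coeff m| ≤ (B : ℤ)) ∧ ∀ S H : ℕ, 1 ≤ S → H ≤ S ^ (n - 1) →
    ∀ F : MvPolynomial (Fin 2) ℤ, F.totalDegree ≤ n → homogeneousComponent n F = f →
    (∀ m : Fin 2 →₀ ℕ, m.degree < n → |F.coeff m| ≤ (S : ℤ) ^ (n - m.degree)) →
    ∃ T : Finset (ℤ × ℤ), (∀ P ∈ T, |ev n (co (vec n F)) P.1 P.2| ≤ (H : ℤ) ∧ max |P.1| |P.2| ≤ ((B : ℤ) * S ^ n) ^ E) ∧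
    {P : Fin 2 → ℤ | |eval P F| ≤ (H : ℤ)}.Finite ∧ {P : Fin 2 → ℤ | |eval P F| ≤ (H : ℤ)}.ncard ≤ T.card := by
  classical
  have hff : homogeneousComponent n f = f := by
    rw [homogeneousComponent_of_mem hf, if_pos rfl]
  obtain ⟨E₀, C₀, hpob⟩ := Pool.Agent.H12.TU.pob n (by omega) f hf.totalDegree_le (by rw [hff]; exact hirr)
  obtain ⟨B, hB, hfB, hBC⟩ : ∃ B : ℕ, 2 ≤ B ∧ (∀ m, |f.coeff m| ≤ (B : ℤ)) ∧ C₀ ≤ B := by
    refine ⟨(f.support.sup fun m => (f.coeff m).natAbs) + 2 + C₀, by omega, fun m => ?_, by omega⟩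
    rw [Int.abs_eq_natAbs]
    by_cases hm : m ∈ f.support
    · have h1 := Finset.le_sup (f := fun m => (f.coeff m).natAbs) hm
      have h2 : (f.coeff m).natAbs ≤ (f.support.sup fun m => (f.coeff m).natAbs) + 2 + C₀ := by
        refine h1.trans ?_
        omega
      exact_mod_cast h2
    · rw [MvPolynomial.notMem_support_iff.1 hm, Int.natAbs_zero]
      positivity
  refine ⟨E₀ + 1, B, hB, hfB, ?_⟩
  intro S H hS hHS F hF hFf hFb
  obtain ⟨h, hh⟩ : ∃ h : ℕ, h = B * S ^ n := ⟨_, rfl⟩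
  have hSn1 : 1 ≤ S ^ n := Nat.one_le_pow _ _ hS
  have hh2 : 2 ≤ h := by
    rw [hh]
    nlinarith
  have hBh : B ≤ h := by
    rw [hh]
    nlinarith
  -- heights
  have hht : ∀ c : ℤ, |c| ≤ (H : ℤ) → ∀ m, |(F + C c).coeff m| ≤ (h : ℤ) := by
    intro c hc m
    have hSn : (1 : ℤ) ≤ (S : ℤ) ^ n := by exact_mod_cast hSn1
    have hB2 : (2 : ℤ) ≤ (B : ℤ) := by exact_mod_cast hB
    have hhz : (h : ℤ) = (B : ℤ) * (S : ℤ) ^ n := by rw [hh]; push_cast; rfl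
    have hHn : (H : ℤ) ≤ (S : ℤ) ^ n := by
      have h1 : S ^ (n - 1) ≤ S ^ n := Nat.pow_le_pow_right hS (by omega)
      exact_mod_cast hHS.trans h1
    have hSd : ∀ d, (S : ℤ) ^ (n - d) ≤ (S : ℤ) ^ n := by
      intro d
      exact_mod_cast Nat.pow_le_pow_right hS (by omega)
    rw [coeff_add, coeff_C]
    rcases lt_trichotomy m.degree n with h1 | h1 | h1
    · have h2 := (hFb m h1).trans (hSd _)
      split_ifs with h3
      · calc |F.coeff m + c| ≤ |F.coeff m| + |c| := abs_add_le _ _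
          _ ≤ (S : ℤ) ^ n + (S : ℤ) ^ n := add_le_add h2 (hc.trans hHn)
          _ ≤ h := by rw [hhz]; nlinarith
      · rw [add_zero]
        refine h2.trans ?_
        rw [hhz]
        nlinarith
    · have h2 : F.coeff m = f.coeff m := by
        rw [← hFf, coeff_homogeneousComponent, if_pos h1]
      rw [if_neg, add_zero, h2]
      · refine (hfB m).trans ?_
        rw [hhz]
        nlinarith
      · rintro rfl
        simp at h1
        omega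
    · have h2 : F.coeff m = 0 := by
        by_contra h3
        have h4 := le_totalDegree (MvPolynomial.mem_support_iff.2 h3)
        have h5 : (m.sum fun _ e => e) = m.degree := rfl
        omega
      rw [if_neg, add_zero, h2, abs_zero]
      · positivity
      · rintro rfl
        simp at h1
  -- the box
  have hbox : ∀ P : Fin 2 → ℤ, |eval P F| ≤ (H : ℤ) → max |P 0| |P 1| ≤ (h : ℤ) ^ (E₀ + 1) := by
    intro P hP
    have h1 : (F + C (-(eval P F))).totalDegree ≤ n :=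
      (totalDegree_add _ _).trans (max_le hF (by rw [totalDegree_C]; omega))
    have h2 : homogeneousComponent n (F + C (-(eval P F))) = homogeneousComponent n f := by
      rw [map_add, hFf, hff, homogeneousComponent_eq_zero n (C (-(eval P F))) (by rw [totalDegree_C]; omega), add_zero]
    have h3 := hpob _ h1 h2 h hh2 (hht _ (by rw [abs_neg]; exact hP)) P (by simp)
    have hhz1 : (1 : ℤ) ≤ (h : ℤ) := by exact_mod_cast (by omega : 1 ≤ h)
    refine h3.trans (max_le ?_ ?_)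
    · exact pow_le_pow_right₀ hhz1 (by omega)
    · calc (C₀ : ℤ) ≤ (h : ℤ) := by exact_mod_cast hBC.trans hBh
        _ ≤ (h : ℤ) ^ (E₀ + 1) := le_self_pow₀ hhz1 (by omega)
  obtain ⟨T, hTd⟩ : ∃ T : Finset (ℤ × ℤ), T = ((Finset.Icc (-((h : ℤ) ^ (E₀ + 1))) ((h : ℤ) ^ (E₀ + 1))) ×ˢ
      (Finset.Icc (-((h : ℤ) ^ (E₀ + 1))) ((h : ℤ) ^ (E₀ + 1)))).filter fun P => |ev n (co (vec n F)) P.1 P.2| ≤ (H : ℤ) := ⟨_, rfl⟩
  have hT : ∀ P ∈ T, |ev n (co (vec n F)) P.1 P.2| ≤ (H : ℤ) ∧ max |P.1| |P.2| ≤ ((B : ℤ) * S ^ n) ^ (E₀ + 1) := by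
    intro P hP
    rw [hTd, Finset.mem_filter, Finset.mem_product, Finset.mem_Icc, Finset.mem_Icc] at hP
    refine ⟨hP.2, ?_⟩
    have hhz : ((B : ℤ) * (S : ℤ) ^ n) = (h : ℤ) := by rw [hh]; push_cast; rfl
    rw [hhz]
    exact max_le (abs_le.2 hP.1.1) (abs_le.2 hP.1.2)
  have hevF : ∀ P : Fin 2 → ℤ, ev n (co (vec n F)) (P 0) (P 1) = eval P F := by
    intro P
    rw [← pol_eval, pol_vec hF]
  have hmaps : ∀ P ∈ {P : Fin 2 → ℤ | |eval P F| ≤ (H : ℤ)}, (P 0, P 1) ∈ (T : Set (ℤ × ℤ)) := by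
    intro P hP
    obtain ⟨h0, h1⟩ := max_le_iff.1 (hbox P hP)
    rw [Finset.mem_coe, hTd, Finset.mem_filter, Finset.mem_product, Finset.mem_Icc, Finset.mem_Icc]
    refine ⟨⟨abs_le.1 h0, abs_le.1 h1⟩, ?_⟩
    show |ev n (co (vec n F)) (P 0) (P 1)| ≤ (H : ℤ)
    rw [hevF]
    exact hP
  have hinj : Set.InjOn (fun P : Fin 2 → ℤ => (P 0, P 1)) {P : Fin 2 → ℤ | |eval P F| ≤ (H : ℤ)} := by
    intro P _ Q _ hPQ
    simp only [Prod.mk.injEq] at hPQ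
    funext i
    fin_cases i
    · exact hPQ.1
    · exact hPQ.2
  refine ⟨T, hT, ?_, ?_⟩
  · exact Set.Finite.of_finite_image (T.finite_toSet.subset (by rintro _ ⟨P, hP, rfl⟩; exact hmaps P hP)) hinj
  · rw [← Set.ncard_coe_finset T]
    exact Set.ncard_le_ncard_of_injOn _ hmaps hinj T.finite_toSet

/-- THEOREM UC+++: inhomogeneous Thue inequality, all solutions -/
theorem main6 (n : ℕ) (hn : 4 ≤ n) (f : MvPolynomial (Fin 2) ℤ) (hf : f.IsHomogeneous n)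
    (hirr : Irreducible (map (Int.castRingHom ℚ) f)) (ε : ℝ) (hε : 0 < ε) : ∃ κ : ℝ, ∀ S H : ℕ, 1 ≤ S → 1 ≤ H →
    ∀ F : MvPolynomial (Fin 2) ℤ, F.totalDegree ≤ n → homogeneousComponent n F = f →
    (∀ m : Fin 2 →₀ ℕ, m.degree < n → |F.coeff m| ≤ (S : ℤ) ^ (n - m.degree)) →
    {P : Fin 2 → ℤ | |eval P F| ≤ (H : ℤ)}.Finite ∧
    (({P : Fin 2 → ℤ | |eval P F| ≤ (H : ℤ)}.ncard : ℕ) : ℝ) ≤ κ * (S + (H : ℝ) ^ (3 / (n : ℝ) + ε)) := by
  obtain ⟨E, B, hB, hfB, hcount⟩ := count6 n hn f hf hirr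
  obtain ⟨C₁, hC₁, hpts⟩ := pts3 n hn f hirr hf B hB hfB E
  obtain ⟨c, hc, hnum⟩ := num n hn ε hε
  refine ⟨C₁ * (2 * c + 1), ?_⟩
  intro S H hS hH F hF hFf hFb
  obtain ⟨S', hSS', hHS', h1, h2, h3, h4⟩ := hnum S H hS hH
  have hFb' : ∀ m : Fin 2 →₀ ℕ, m.degree < n → |F.coeff m| ≤ (S' : ℤ) ^ (n - m.degree) := by
    intro m hm
    refine (hFb m hm).trans ?_
    exact_mod_cast Nat.pow_le_pow_left hSS' _
  obtain ⟨T, hT, hfin, hP⟩ := hcount S' H (hS.trans hSS') hHS' F hF hFf hFb'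
  have hTc := hpts S' H (hS.trans hSS') hH hHS' F hF hFf hFb' T hT
  obtain ⟨Y, hY⟩ : ∃ Y : ℝ, Y = S + (H : ℝ) ^ (3 / (n : ℝ) + ε) := ⟨_, rfl⟩
  rw [← hY] at h1 h2 h3 h4 ⊢
  have h5 : (T.card : ℝ) ≤ C₁ * (2 * c + 1) * Y := by
    refine hTc.trans ?_
    have h6 : ((S' : ℝ) ^ (2 / 3 : ℝ) * (1 + Real.log S') + H / (S' : ℝ) ^ (n - 2)) * (H : ℝ) ^ (1 / (n : ℝ)) +
        S' + (H : ℝ) ^ (3 / (n : ℝ)) ≤ (2 * c + 1) * Y := by linarith
    calc _ ≤ C₁ * ((2 * c + 1) * Y) := mul_le_mul_of_nonneg_left h6 hC₁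
      _ = _ := by ring
  refine ⟨hfin, le_trans ?_ h5⟩
  exact_mod_cast hP

end Pool.Agent.H99.UC
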