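import Pool.Agent.H72.ES.BridgeB

/-! # [H99 UC ZB] Zeros near an asymptote: first and second order

`z = y - t x + s`, `s = tc10/tc01`. `near1`: `|δ| ≤ C₁ S |u|` (`δ = y/x - t`, `u = 1/x`) gives `|z| ≤ C S²/|x|`.
`near2`: if the asymptote has contact of order `≥ 3` (`flexv = 0`) then `|z| ≤ C S³/x²`. -/

namespace Pool.Agent.H99.UC

open Finset Polynomial Pool.Agent.H72.ES

/-- bound of the Taylor coefficients -/
theorem tc_le (n : ℕ) (B T S : ℝ) (hB : 0 ≤ B) (hT : 1 ≤ T) (hS : 0 ≤ S) (G : ℕ → ℕ → ℤ)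
    (hG : ∀ i j, i + j ≤ n → |(G i j : ℝ)| ≤ B * S ^ (n - (i + j))) (t : ℝ) (ht : |t| ≤ T) (i j : ℕ) (hi : i ≤ n) :
    |tc n G t i j| ≤ ((n + 1) * B * 2 ^ n * T ^ n) * S ^ i := by
  unfold tc
  refine (Finset.abs_sum_le_sum_abs _ _).trans ?_
  have h1 : ∀ l ∈ range (n + 1 - i), |((G (n - i - l) l : ℤ) : ℝ) * (l.choose j : ℝ) * t ^ (l - j)| ≤
      B * S ^ i * 2 ^ n * T ^ n := by
    intro l hl
    simp only [mem_range] at hl
    rw [abs_mul, abs_mul, abs_pow, Nat.abs_cast]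
    have a1 := hG (n - i - l) l (by omega)
    have e1 : n - (n - i - l + l) = i := by omega
    rw [e1] at a1
    have a2 : ((l.choose j : ℕ) : ℝ) ≤ 2 ^ n := by
      have h2 : l.choose j ≤ 2 ^ l := Nat.choose_le_two_pow l j
      have h3 : 2 ^ l ≤ 2 ^ n := Nat.pow_le_pow_right (by norm_num) (by omega)
      exact_mod_cast h2.trans h3
    have a3 : |t| ^ (l - j) ≤ T ^ n :=
      (pow_le_pow_left₀ (abs_nonneg _) ht _).trans (pow_le_pow_right₀ hT (by omega))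
    have hBS : 0 ≤ B * S ^ i := mul_nonneg hB (pow_nonneg hS _)
    exact mul_le_mul (mul_le_mul a1 a2 (Nat.cast_nonneg _) hBS) a3 (pow_nonneg (abs_nonneg _) _)
      (mul_nonneg hBS (by positivity))
  refine (Finset.sum_le_card_nsmul _ _ _ h1).trans ?_
  rw [card_range, nsmul_eq_mul]
  have h2 : ((n + 1 - i : ℕ) : ℝ) ≤ n + 1 := by
    have : n + 1 - i ≤ n + 1 := Nat.sub_le _ _
    exact_mod_cast this
  have hT0 : 0 ≤ T := by linarith
  have h3 : 0 ≤ B * S ^ i * 2 ^ n * T ^ n := by positivity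
  calc ((n + 1 - i : ℕ) : ℝ) * (B * S ^ i * 2 ^ n * T ^ n) ≤ (n + 1) * (B * S ^ i * 2 ^ n * T ^ n) :=
        mul_le_mul_of_nonneg_right h2 h3
    _ = _ := by ring

/-- the terms of order `≥ m` of a double sum -/
theorem tail_le (n m : ℕ) (K C v : ℝ) (hK : 0 ≤ K) (hC : 1 ≤ C) (hv : 0 ≤ v) (hv1 : v ≤ 1) (a : ℕ → ℕ → ℝ)
    (ha : ∀ i j, i ≤ n → j ≤ n → |a i j| ≤ K * (C * v) ^ (i + j)) :
    |∑ i ∈ range (n + 1), ∑ j ∈ range (n + 1), if m ≤ i + j then a i j else 0| ≤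
      (n + 1) ^ 2 * K * C ^ (2 * n) * v ^ m := by
  have hC0 : 0 ≤ C := by linarith
  have h0 : 0 ≤ K * C ^ (2 * n) * v ^ m := by positivity
  have h1 : ∀ i ∈ range (n + 1), |∑ j ∈ range (n + 1), if m ≤ i + j then a i j else 0| ≤
      (n + 1) * (K * C ^ (2 * n) * v ^ m) := by
    intro i hi
    have hi' : i ≤ n := by
      have := mem_range.1 hi
      omega
    refine (Finset.abs_sum_le_sum_abs _ _).trans ?_
    have h2 : ∀ j ∈ range (n + 1), |if m ≤ i + j then a i j else 0| ≤ K * C ^ (2 * n) * v ^ m := by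
      intro j hj
      have hj' : j ≤ n := by
        have := mem_range.1 hj
        omega
      split_ifs with h3
      · refine (ha i j hi' hj').trans ?_
        rw [mul_pow, ← mul_assoc]
        have h4 : C ^ (i + j) ≤ C ^ (2 * n) := pow_le_pow_right₀ hC (by omega)
        have h5 : v ^ (i + j) ≤ v ^ m := pow_le_pow_of_le_one hv hv1 h3
        exact mul_le_mul (mul_le_mul_of_nonneg_left h4 hK) h5 (pow_nonneg hv _) (by positivity)
      · rw [abs_zero]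
        exact h0
    refine (Finset.sum_le_card_nsmul _ _ _ h2).trans ?_
    rw [card_range, nsmul_eq_mul]
    push_cast
    exact le_rfl
  refine (Finset.abs_sum_le_sum_abs _ _).trans ((Finset.sum_le_card_nsmul _ _ _ h1).trans ?_)
  rw [card_range, nsmul_eq_mul]
  push_cast
  apply le_of_eq
  ring

/-- the expansion of `F` at an asymptote, terms of order `≤ 2` and a remainder of order `3` -/
theorem expan (n : ℕ) (hn : 4 ≤ n) (K C S u δ : ℝ) (hK : 0 ≤ K) (hC : 1 ≤ C) (hv : 0 ≤ S * |u|) (hv1 : S * |u| ≤ 1)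
    (G : ℕ → ℕ → ℤ) (t : ℝ) (htc : ∀ i j, i ≤ n → |tc n G t i j| ≤ K * S ^ i) (hS : 0 ≤ S)
    (hδ : |δ| ≤ C * (S * |u|)) (h0 : evt n (cst ℝ G) u (t + δ) = 0) :
    |tc n G t 0 0 + tc n G t 0 1 * δ + tc n G t 0 2 * δ ^ 2 + (tc n G t 1 0 * u + tc n G t 1 1 * u * δ) +
      tc n G t 2 0 * u ^ 2| ≤ (n + 1) ^ 2 * K * C ^ (2 * n) * (S * |u|) ^ 3 := by
  rw [evt_taylor] at h0
  obtain ⟨a, ha⟩ : ∃ a : ℕ → ℕ → ℝ, a = fun i j => tc n G t i j * u ^ i * δ ^ j := ⟨_, rfl⟩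
  have hC0 : 0 ≤ C := by linarith
  have hab : ∀ i j, i ≤ n → j ≤ n → |a i j| ≤ K * (C * (S * |u|)) ^ (i + j) := by
    intro i j hi _
    rw [ha]
    simp only
    rw [abs_mul, abs_mul, abs_pow, abs_pow, pow_add]
    have h1 : |tc n G t i j| * |u| ^ i ≤ K * (C * (S * |u|)) ^ i := by
      calc |tc n G t i j| * |u| ^ i ≤ (K * S ^ i) * |u| ^ i :=
            mul_le_mul_of_nonneg_right (htc i j hi) (pow_nonneg (abs_nonneg _) _)
        _ = K * (S * |u|) ^ i := by rw [mul_pow]; ring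
        _ ≤ K * (C * (S * |u|)) ^ i := by
            refine mul_le_mul_of_nonneg_left (pow_le_pow_left₀ hv ?_ _) hK
            exact le_mul_of_one_le_left hv hC
    have h2 : |δ| ^ j ≤ (C * (S * |u|)) ^ j := pow_le_pow_left₀ (abs_nonneg _) hδ _
    calc |tc n G t i j| * |u| ^ i * |δ| ^ j ≤ (K * (C * (S * |u|)) ^ i) * (C * (S * |u|)) ^ j :=
          mul_le_mul h1 h2 (pow_nonneg (abs_nonneg _) _) (by positivity)
      _ = _ := by ring
  have h1 := tail_le n 3 K C (S * |u|) hK hC hv hv1 a hab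
  have h2 : ∑ i ∈ range (n + 1), ∑ j ∈ range (n + 1), a i j = 0 := by
    rw [ha]
    exact h0
  have h3 : ∑ i ∈ range (n + 1), ∑ j ∈ range (n + 1), (if 3 ≤ i + j then a i j else 0) +
      ∑ i ∈ range (n + 1), ∑ j ∈ range (n + 1), (if 3 ≤ i + j then 0 else a i j) = 0 := by
    refine Eq.trans ?_ h2
    rw [← Finset.sum_add_distrib]
    refine Finset.sum_congr rfl fun i _ => ?_
    rw [← Finset.sum_add_distrib]
    refine Finset.sum_congr rfl fun j _ => ?_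
    split_ifs <;> ring
  have h4 := gaForm_sum_three hn (fun i j => if 3 ≤ i + j then 0 else a i j) (fun i j hij => if_pos hij)
  rw [h4] at h3
  have h5 : ((if 3 ≤ 0 + 0 then 0 else a 0 0) + (if 3 ≤ 0 + 1 then 0 else a 0 1) + (if 3 ≤ 0 + 2 then 0 else a 0 2) +
      ((if 3 ≤ 1 + 0 then 0 else a 1 0) + (if 3 ≤ 1 + 1 then 0 else a 1 1)) + (if 3 ≤ 2 + 0 then 0 else a 2 0)) =
      tc n G t 0 0 + tc n G t 0 1 * δ + tc n G t 0 2 * δ ^ 2 + (tc n G t 1 0 * u + tc n G t 1 1 * u * δ) +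
      tc n G t 2 0 * u ^ 2 := by
    norm_num [ha]
  rw [h5] at h3
  have h6 : tc n G t 0 0 + tc n G t 0 1 * δ + tc n G t 0 2 * δ ^ 2 + (tc n G t 1 0 * u + tc n G t 1 1 * u * δ) +
      tc n G t 2 0 * u ^ 2 = -∑ i ∈ range (n + 1), ∑ j ∈ range (n + 1), (if 3 ≤ i + j then a i j else 0) := by
    linarith
  rw [h6, abs_neg]
  exact h1

/-- first order: distance to the asymptote `O(S²/|x|)` -/
theorem near1 (n : ℕ) (hn : 4 ≤ n) (B T κ C : ℝ) (hB : 0 ≤ B) (hT : 1 ≤ T) (hκ : 0 < κ) (hC : 1 ≤ C) : ∃ C' : ℝ, 1 ≤ C' ∧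
    ∀ (G : ℕ → ℕ → ℤ) (S : ℝ), 1 ≤ S → (∀ i j, i + j ≤ n → |(G i j : ℝ)| ≤ B * S ^ (n - (i + j))) → ∀ t : ℝ, |t| ≤ T →
      tc n G t 0 0 = 0 → κ ≤ |tc n G t 0 1| → ∀ u δ : ℝ, S * |u| ≤ 1 → |δ| ≤ C * (S * |u|) →
      evt n (cst ℝ G) u (t + δ) = 0 → |tc n G t 0 1 * δ + tc n G t 1 0 * u| ≤ C' * (S * |u|) ^ 2 := by
  obtain ⟨K, hK⟩ : ∃ K : ℝ, K = (n + 1) * B * 2 ^ n * T ^ n := ⟨_, rfl⟩
  have hK0 : 0 ≤ K := by rw [hK]; positivity
  have hC0 : 0 ≤ C := by linarith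
  refine ⟨(n + 1) ^ 2 * K * C ^ (2 * n) + K * C ^ 2 + K * C + K + 1, ?_, ?_⟩
  · have : 0 ≤ (n + 1) ^ 2 * K * C ^ (2 * n) + K * C ^ 2 + K * C + K := by positivity
    linarith
  intro G S hS hG t ht h00 hκt u δ hv1 hδ h0
  have hS0 : 0 ≤ S := by linarith
  have hv : 0 ≤ S * |u| := mul_nonneg hS0 (abs_nonneg _)
  have htc : ∀ i j, i ≤ n → |tc n G t i j| ≤ K * S ^ i := by
    intro i j hi
    rw [hK]
    exact tc_le n B T S hB hT hS0 G hG t ht i j hi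
  have h1 := expan n hn K C S u δ hK0 hC hv hv1 G t htc hS0 hδ h0
  rw [h00, zero_add] at h1
  obtain ⟨v, hvd⟩ : ∃ v : ℝ, v = S * |u| := ⟨_, rfl⟩
  rw [← hvd] at h1 hδ hv hv1
  have b02 : |tc n G t 0 2 * δ ^ 2| ≤ K * C ^ 2 * v ^ 2 := by
    rw [abs_mul, abs_pow]
    have a1 := htc 0 2 (Nat.zero_le _)
    rw [pow_zero, mul_one] at a1
    calc |tc n G t 0 2| * |δ| ^ 2 ≤ K * (C * v) ^ 2 :=
          mul_le_mul a1 (pow_le_pow_left₀ (abs_nonneg _) hδ _) (by positivity) hK0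
      _ = _ := by ring
  have b11 : |tc n G t 1 1 * u * δ| ≤ K * C * v ^ 2 := by
    rw [abs_mul, abs_mul]
    have a1 := htc 1 1 (by omega)
    rw [pow_one] at a1
    have a2 : |tc n G t 1 1| * |u| ≤ K * v := by
      rw [hvd]
      calc |tc n G t 1 1| * |u| ≤ (K * S) * |u| := mul_le_mul_of_nonneg_right a1 (abs_nonneg _)
        _ = _ := by ring
    calc |tc n G t 1 1| * |u| * |δ| ≤ (K * v) * (C * v) := mul_le_mul a2 hδ (abs_nonneg _) (by positivity)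
      _ = _ := by ring
  have b20 : |tc n G t 2 0 * u ^ 2| ≤ K * v ^ 2 := by
    rw [abs_mul, abs_pow]
    have a1 := htc 2 0 (by omega)
    rw [hvd]
    calc |tc n G t 2 0| * |u| ^ 2 ≤ (K * S ^ 2) * |u| ^ 2 := mul_le_mul_of_nonneg_right a1 (by positivity)
      _ = _ := by ring
  have b3 : (n + 1) ^ 2 * K * C ^ (2 * n) * v ^ 3 ≤ (n + 1) ^ 2 * K * C ^ (2 * n) * v ^ 2 :=
    mul_le_mul_of_nonneg_left (pow_le_pow_of_le_one hv hv1 (by norm_num)) (by positivity)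
  have h2 := abs_le.1 (h1.trans b3)
  have h3 := abs_le.1 b02
  have h4 := abs_le.1 b11
  have h5 := abs_le.1 b20
  have hvv : 0 ≤ v ^ 2 := by positivity
  rw [← hvd, abs_le]
  constructor
  · nlinarith [h2.1, h2.2, h3.1, h3.2, h4.1, h4.2, h5.1, h5.2]
  · nlinarith [h2.1, h2.2, h3.1, h3.2, h4.1, h4.2, h5.1, h5.2]

/-- second order at a flex: distance to the asymptote `O(S³/x²)` -/
theorem near2 (n : ℕ) (hn : 4 ≤ n) (B T κ C : ℝ) (hB : 0 ≤ B) (hT : 1 ≤ T) (hκ : 0 < κ) (hC : 1 ≤ C) : ∃ A C' : ℝ, 1 ≤ A ∧ 1 ≤ C' ∧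
    ∀ (G : ℕ → ℕ → ℤ) (S : ℝ), 1 ≤ S → (∀ i j, i + j ≤ n → |(G i j : ℝ)| ≤ B * S ^ (n - (i + j))) → ∀ t : ℝ, |t| ≤ T →
      tc n G t 0 0 = 0 → κ ≤ |tc n G t 0 1| → flexv n G t = 0 → ∀ u z : ℝ, A * (S * |u|) ≤ 1 → |z| ≤ C * (S ^ 2 * |u|) →
      evt n (cst ℝ G) u (t + (z - tc n G t 1 0 / tc n G t 0 1) * u) = 0 → |z| ≤ C' * (S ^ 3 * u ^ 2) := by
  obtain ⟨K, hK⟩ : ∃ K : ℝ, K = (n + 1) * B * 2 ^ n * T ^ n := ⟨_, rfl⟩
  have hK0 : 0 ≤ K := by rw [hK]; positivity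
  have hC0 : 0 ≤ C := by linarith
  obtain ⟨C2, hC2⟩ : ∃ C2 : ℝ, C2 = C + K / κ := ⟨_, rfl⟩
  have hC21 : 1 ≤ C2 := by
    rw [hC2]
    have : 0 ≤ K / κ := by positivity
    linarith
  obtain ⟨C3, hC3⟩ : ∃ C3 : ℝ, C3 = K * (C + 2 * (K / κ)) + K := ⟨_, rfl⟩
  have hC30 : 0 ≤ C3 := by rw [hC3]; positivity
  obtain ⟨C4, hC4⟩ : ∃ C4 : ℝ, C4 = (n + 1) ^ 2 * K * C2 ^ (2 * n) := ⟨_, rfl⟩
  have hC40 : 0 ≤ C4 := by rw [hC4]; positivity
  refine ⟨1 + 2 * C3 / κ, 1 + 2 * C4 / κ, ?_, ?_, ?_⟩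
  · have : 0 ≤ 2 * C3 / κ := by positivity
    linarith
  · have : 0 ≤ 2 * C4 / κ := by positivity
    linarith
  intro G S hS hG t ht h00 hκt hfl u z hAv hz h0
  have hS0 : 0 ≤ S := by linarith
  have hu0 : 0 ≤ |u| := abs_nonneg _
  obtain ⟨v, hvd⟩ : ∃ v : ℝ, v = S * |u| := ⟨_, rfl⟩
  have hv : 0 ≤ v := by rw [hvd]; positivity
  rw [← hvd] at hAv
  have hC3k : 0 ≤ 2 * C3 / κ := by positivity
  have hv1 : v ≤ 1 := by nlinarith
  have hv2 : C3 * v ≤ κ / 2 := by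
    have h1 : 2 * C3 / κ * v ≤ 1 := by nlinarith
    rw [div_mul_eq_mul_div, div_le_iff₀ hκ] at h1
    linarith
  have htc : ∀ i j, i ≤ n → |tc n G t i j| ≤ K * S ^ i := by
    intro i j hi
    rw [hK]
    exact tc_le n B T S hB hT hS0 G hG t ht i j hi
  have hq0 : tc n G t 0 1 ≠ 0 := by
    intro h
    rw [h, abs_zero] at hκt
    linarith
  obtain ⟨s, hs⟩ : ∃ s : ℝ, s = tc n G t 1 0 / tc n G t 0 1 := ⟨_, rfl⟩
  rw [← hs] at h0
  have hst : tc n G t 0 1 * s = tc n G t 1 0 := by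
    rw [hs]
    field_simp
  have hsb : |s| ≤ K / κ * S := by
    rw [hs, abs_div]
    have a1 := htc 1 0 (by omega)
    rw [pow_one] at a1
    calc |tc n G t 1 0| / |tc n G t 0 1| ≤ (K * S) / κ := by
          apply div_le_div₀ (by positivity) a1 hκ hκt
      _ = _ := by ring
  have hzS : |z| ≤ C * S := by
    refine hz.trans ?_
    have : S ^ 2 * |u| = S * v := by rw [hvd]; ring
    rw [this]
    have : S * v ≤ S * 1 := mul_le_mul_of_nonneg_left hv1 hS0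
    nlinarith
  have hδ : |(z - s) * u| ≤ C2 * (S * |u|) := by
    rw [abs_mul]
    have h1 : |z - s| ≤ C2 * S := by
      refine (abs_sub _ _).trans ?_
      rw [hC2]
      linarith
    calc |z - s| * |u| ≤ (C2 * S) * |u| := mul_le_mul_of_nonneg_right h1 hu0
      _ = _ := by ring
  have h1 := expan n hn K C2 S u ((z - s) * u) hK0 hC21 (by rw [← hvd]; exact hv) (by rw [← hvd]; exact hv1) G t htc hS0 hδ h0
  rw [h00, zero_add, ← hC4, ← hvd] at h1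
  -- the flex condition
  have hbr : tc n G t 0 2 * s ^ 2 - tc n G t 1 1 * s + tc n G t 2 0 = 0 := by
    have h2 : (tc n G t 0 2 * s ^ 2 - tc n G t 1 1 * s + tc n G t 2 0) * tc n G t 0 1 ^ 2 = flexv n G t := by
      unfold flexv
      rw [← hst]
      ring
    rw [hfl] at h2
    exact (mul_eq_zero.1 h2).resolve_right (pow_ne_zero _ hq0)
  have hid : tc n G t 0 1 * ((z - s) * u) + tc n G t 0 2 * ((z - s) * u) ^ 2 + (tc n G t 1 0 * u + tc n G t 1 1 * u * ((z - s) * u)) +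
      tc n G t 2 0 * u ^ 2 = u * (z * (tc n G t 0 1 + u * (tc n G t 0 2 * (z - 2 * s) + tc n G t 1 1))) := by
    rw [← hst]
    have h2 : tc n G t 2 0 = -(tc n G t 0 2 * s ^ 2) + tc n G t 1 1 * s := by linarith
    rw [h2]
    ring
  rw [hid, abs_mul, abs_mul] at h1
  have hlow : κ / 2 ≤ |tc n G t 0 1 + u * (tc n G t 0 2 * (z - 2 * s) + tc n G t 1 1)| := by
    have h2 : |u * (tc n G t 0 2 * (z - 2 * s) + tc n G t 1 1)| ≤ κ / 2 := by
      rw [abs_mul]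
      have a02 := htc 0 2 (Nat.zero_le _)
      rw [pow_zero, mul_one] at a02
      have a11 := htc 1 1 (by omega)
      rw [pow_one] at a11
      have a3 : |z - 2 * s| ≤ (C + 2 * (K / κ)) * S := by
        refine (abs_sub _ _).trans ?_
        rw [abs_mul, abs_two]
        linarith
      have a4 : |tc n G t 0 2 * (z - 2 * s) + tc n G t 1 1| ≤ C3 * S := by
        refine (abs_add_le _ _).trans ?_
        rw [abs_mul, hC3]
        have : |tc n G t 0 2| * |z - 2 * s| ≤ K * ((C + 2 * (K / κ)) * S) :=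
          mul_le_mul a02 a3 (abs_nonneg _) hK0
        linarith
      calc |u| * |tc n G t 0 2 * (z - 2 * s) + tc n G t 1 1| ≤ |u| * (C3 * S) := mul_le_mul_of_nonneg_left a4 hu0
        _ = C3 * v := by rw [hvd]; ring
        _ ≤ κ / 2 := hv2
    have h3 : |tc n G t 0 1| - |u * (tc n G t 0 2 * (z - 2 * s) + tc n G t 1 1)| ≤
        |tc n G t 0 1 + u * (tc n G t 0 2 * (z - 2 * s) + tc n G t 1 1)| := by
      have := abs_sub_abs_le_abs_sub (tc n G t 0 1) (-(u * (tc n G t 0 2 * (z - 2 * s) + tc n G t 1 1)))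
      rw [abs_neg, sub_neg_eq_add] at this
      exact this
    linarith
  rcases eq_or_ne u 0 with hu | hu
  · subst hu
    have h2 : |z| ≤ 0 := by simpa using hz
    refine h2.trans ?_
    simp
  · have hu1 : 0 < |u| := abs_pos.2 hu
    have h2 : |z| * (κ / 2) ≤ C4 * (S ^ 3 * u ^ 2) := by
      have h3 : |u| * (|z| * (κ / 2)) ≤ C4 * v ^ 3 := by
        refine le_trans ?_ h1
        exact mul_le_mul_of_nonneg_left (mul_le_mul_of_nonneg_left hlow (abs_nonneg _)) hu0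
      have h4 : C4 * v ^ 3 = |u| * (C4 * (S ^ 3 * u ^ 2)) := by
        rw [hvd, ← sq_abs u]
        ring
      rw [h4] at h3
      exact le_of_mul_le_mul_left h3 hu1
    have h5 : |z| ≤ 2 * C4 / κ * (S ^ 3 * u ^ 2) := by
      rw [div_mul_eq_mul_div, le_div_iff₀ hκ]
      linarith
    have h6 : 0 ≤ S ^ 3 * u ^ 2 := by positivity
    linarith

end Pool.Agent.H99.UC
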