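import Pool.Agent.H99.UC.Rts
import Pool.Agent.H99.UC.Zb

/-! # [H99 UC ASY] Real zeros of `G` outside a box of size `A S` are near an asymptote

If the curve has a flex at every real point at infinity then the distance is `≤ C S³/x²`. -/

namespace Pool.Agent.H99.UC

open Finset Polynomial Pool.Agent.H72.ES

theorem split_top {M : Type*} [AddCommMonoid M] (n : ℕ) (g : ℕ → ℕ → M) :
    ∑ i ∈ range (n + 1), ∑ j ∈ range (n + 1 - i), g i j =
      g 0 n + ∑ i ∈ range (n + 1), ∑ j ∈ range (n + 1 - i), (if j = n then 0 else g i j) := by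
  have h1 : ∑ i ∈ range (n + 1), ∑ j ∈ range (n + 1 - i), g i j =
      ∑ i ∈ range (n + 1), ∑ j ∈ range (n + 1 - i), (if j = n then g i j else 0) +
      ∑ i ∈ range (n + 1), ∑ j ∈ range (n + 1 - i), (if j = n then 0 else g i j) := by
    rw [← Finset.sum_add_distrib]
    refine Finset.sum_congr rfl fun i _ => ?_
    rw [← Finset.sum_add_distrib]
    refine Finset.sum_congr rfl fun j _ => ?_
    split_ifs
    · rw [add_zero]
    · rw [zero_add]
  rw [h1]
  congr 1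
  rw [Finset.sum_eq_single 0]
  · rw [Finset.sum_eq_single n]
    · rw [if_pos rfl]
    · intro j _ hj
      rw [if_neg hj]
    · intro h
      exact absurd (mem_range.2 (by omega)) h
  · intro i hi hi0
    refine Finset.sum_eq_zero fun j hj => ?_
    have := mem_range.1 hj
    rw [if_neg (by omega)]
  · intro h
    exact absurd (mem_range.2 (by omega)) h

/-- a zero is not near the vertical direction -/
theorem not_vert (n : ℕ) (hn : 1 ≤ n) (B A : ℝ) (hB : 1 ≤ B) (hA : (n + 1) ^ 2 * B < A) (G : ℕ → ℕ → ℤ) (S : ℝ) (hS : 1 ≤ S)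
    (hG : ∀ i j, i + j ≤ n → |(G i j : ℝ)| ≤ B * S ^ (n - (i + j))) (h0 : G 0 n ≠ 0) (x y : ℝ)
    (hz : ev n (cst ℝ G) x y = 0) : |y| ≤ A * max S |x| := by
  by_contra hcon
  push Not at hcon
  have hA1 : 1 ≤ A := by
    have : (1 : ℝ) ≤ (n + 1) ^ 2 * B := by
      have h1 : (1 : ℝ) ≤ ((n : ℝ) + 1) ^ 2 := one_le_pow₀ (by linarith [Nat.cast_nonneg (α := ℝ) n])
      nlinarith
    linarith
  have hA0 : 0 < A := by linarith
  have hS0 : 0 < S := by linarith
  have hm0 : 0 < max S |x| := lt_of_lt_of_le hS0 (le_max_left _ _)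
  have hy0 : 0 < |y| := lt_trans (by positivity) hcon
  have hSy : S ≤ |y| / A := by
    rw [le_div_iff₀ hA0]
    have : S * A ≤ A * max S |x| := by
      rw [mul_comm]
      exact mul_le_mul_of_nonneg_left (le_max_left _ _) hA0.le
    linarith
  have hxy : |x| ≤ |y| / A := by
    rw [le_div_iff₀ hA0]
    have : |x| * A ≤ A * max S |x| := by
      rw [mul_comm]
      exact mul_le_mul_of_nonneg_left (le_max_right _ _) hA0.le
    linarith
  unfold ev cst at hz
  rw [split_top n fun i j => ((G i j : ℤ) : ℝ) * x ^ i * y ^ j] at hz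
  have hterm : ∀ i ∈ range (n + 1), ∀ j ∈ range (n + 1 - i),
      |if j = n then (0 : ℝ) else ((G i j : ℤ) : ℝ) * x ^ i * y ^ j| ≤ B * |y| ^ n / A := by
    intro i hi j hj
    have hi' := mem_range.1 hi
    have hj' := mem_range.1 hj
    split_ifs with h
    · rw [abs_zero]
      positivity
    · rw [abs_mul, abs_mul, abs_pow, abs_pow]
      have a1 := hG i j (by omega)
      have a2 : S ^ (n - (i + j)) ≤ (|y| / A) ^ (n - (i + j)) := pow_le_pow_left₀ hS0.le hSy _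
      have a3 : |x| ^ i ≤ (|y| / A) ^ i := pow_le_pow_left₀ (abs_nonneg _) hxy _
      have hq : 0 ≤ |y| / A := by positivity
      have a4 : (|y| / A) ^ (n - (i + j)) * (|y| / A) ^ i * |y| ^ j = |y| ^ n / A ^ (n - j) := by
        rw [← pow_add, div_pow]
        have e1 : n - (i + j) + i = n - j := by omega
        rw [e1, div_mul_eq_mul_div, ← pow_add]
        congr 2
        omega
      have a5 : |y| ^ n / A ^ (n - j) ≤ |y| ^ n / A := by
        apply div_le_div_of_nonneg_left (by positivity) hA0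
        calc A = A ^ 1 := (pow_one A).symm
          _ ≤ A ^ (n - j) := pow_le_pow_right₀ hA1 (by omega)
      calc |((G i j : ℤ) : ℝ)| * |x| ^ i * |y| ^ j
          ≤ (B * (|y| / A) ^ (n - (i + j))) * (|y| / A) ^ i * |y| ^ j := by
            refine mul_le_mul_of_nonneg_right ?_ (by positivity)
            refine mul_le_mul (a1.trans (mul_le_mul_of_nonneg_left a2 (by linarith))) a3 (by positivity) (by positivity)
        _ = B * ((|y| / A) ^ (n - (i + j)) * (|y| / A) ^ i * |y| ^ j) := by ring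
        _ ≤ B * (|y| ^ n / A) := by
            rw [a4]
            exact mul_le_mul_of_nonneg_left a5 (by linarith)
        _ = _ := by ring
  have hq0 : 0 ≤ B * |y| ^ n / A := by positivity
  have hsum : |∑ i ∈ range (n + 1), ∑ j ∈ range (n + 1 - i), (if j = n then (0 : ℝ) else ((G i j : ℤ) : ℝ) * x ^ i * y ^ j)| ≤
      (n + 1) * ((n + 1) * (B * |y| ^ n / A)) := by
    refine (Finset.abs_sum_le_sum_abs _ _).trans ?_
    have h1 : ∀ i ∈ range (n + 1), |∑ j ∈ range (n + 1 - i), (if j = n then (0 : ℝ) else ((G i j : ℤ) : ℝ) * x ^ i * y ^ j)| ≤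
        (n + 1) * (B * |y| ^ n / A) := by
      intro i hi
      refine (Finset.abs_sum_le_sum_abs _ _).trans ((Finset.sum_le_card_nsmul _ _ _ (hterm i hi)).trans ?_)
      rw [card_range, nsmul_eq_mul]
      refine mul_le_mul_of_nonneg_right ?_ hq0
      have : n + 1 - i ≤ n + 1 := Nat.sub_le _ _
      exact_mod_cast this
    refine (Finset.sum_le_card_nsmul _ _ _ h1).trans ?_
    rw [card_range, nsmul_eq_mul]
    push_cast
    exact le_rfl
  have h1 : (1 : ℝ) ≤ |((G 0 n : ℤ) : ℝ)| := by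
    have : (1 : ℤ) ≤ |G 0 n| := Int.one_le_abs h0
    exact_mod_cast this
  have h2 : |((G 0 n : ℤ) : ℝ) * x ^ 0 * y ^ n| ≤ (n + 1) * ((n + 1) * (B * |y| ^ n / A)) := by
    have h3 : ((G 0 n : ℤ) : ℝ) * x ^ 0 * y ^ n = -∑ i ∈ range (n + 1), ∑ j ∈ range (n + 1 - i),
        (if j = n then (0 : ℝ) else ((G i j : ℤ) : ℝ) * x ^ i * y ^ j) := by linarith
    rw [h3, abs_neg]
    exact hsum
  rw [pow_zero, mul_one, abs_mul, abs_pow] at h2
  have hyn : 0 < |y| ^ n := by positivity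
  have h3 : |y| ^ n ≤ |((G 0 n : ℤ) : ℝ)| * |y| ^ n := le_mul_of_one_le_left hyn.le h1
  have h4 : (n + 1 : ℝ) * ((n + 1) * (B * |y| ^ n / A)) = ((n + 1) ^ 2 * B) / A * |y| ^ n := by
    field_simp
  have h5 : ((n + 1 : ℝ) ^ 2 * B) / A < 1 := by
    rw [div_lt_one hA0]
    exact hA
  rw [h4] at h2
  have h6 : ((n + 1 : ℝ) ^ 2 * B) / A * |y| ^ n < 1 * |y| ^ n := mul_lt_mul_of_pos_right h5 hyn
  linarith

theorem asy (n : ℕ) (hn : 4 ≤ n) (φ : ℤ[X]) (hφ : φ.natDegree = n)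
    (hsep : IsCoprime (φ.map (Int.castRingHom ℂ)) (derivative (φ.map (Int.castRingHom ℂ)))) (B : ℝ) (hB : 1 ≤ B) :
    ∃ A C : ℝ, 1 ≤ A ∧ 1 ≤ C ∧ ∀ (G : ℕ → ℕ → ℤ) (S : ℝ), 1 ≤ S → part n 0 G = φ →
      (∀ i j, i + j ≤ n → |(G i j : ℝ)| ≤ B * S ^ (n - (i + j))) → (∀ t : ℝ, aeval t φ = 0 → flexv n G t = 0) →
      ∀ x y : ℝ, ev n (cst ℝ G) x y = 0 → A * S ≤ |x| →
        ∃ t : ℝ, aeval t φ = 0 ∧ tc n G t 0 1 ≠ 0 ∧
          |y - t * x + tc n G t 1 0 / tc n G t 0 1| ≤ C * (S ^ 3 * (1 / x) ^ 2) := by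
  obtain ⟨ρ, Cρ, T, κ, hρ, hCρ, hT, hκ, hrt, hnear⟩ := rts n (by omega) φ hφ hsep
  obtain ⟨A0, hA0⟩ : ∃ A0 : ℝ, A0 = (n + 1) ^ 2 * B + 1 := ⟨_, rfl⟩
  have hA01 : 1 ≤ A0 := by
    rw [hA0]
    have : 0 ≤ ((n : ℝ) + 1) ^ 2 * B := by positivity
    linarith
  obtain ⟨T', hT'⟩ : ∃ T' : ℝ, T' = A0 + T := ⟨_, rfl⟩
  have hT'1 : 1 ≤ T' := by rw [hT']; linarith
  obtain ⟨K, hK⟩ : ∃ K : ℝ, K = (n + 1) * B * 2 ^ n * T' ^ n := ⟨_, rfl⟩
  have hK0 : 0 ≤ K := by rw [hK]; positivity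
  obtain ⟨K1, hK1⟩ : ∃ K1 : ℝ, K1 = (n + 1) ^ 2 * K + 1 := ⟨_, rfl⟩
  have hK11 : 1 ≤ K1 := by
    rw [hK1]
    have : 0 ≤ ((n : ℝ) + 1) ^ 2 * K := by positivity
    linarith
  obtain ⟨C1, hC1⟩ : ∃ C1 : ℝ, C1 = Cρ * K1 := ⟨_, rfl⟩
  have hC11 : 1 ≤ C1 := by rw [hC1]; nlinarith
  obtain ⟨C2, hC21, h1⟩ := near1 n hn B T' κ C1 (by linarith) hT'1 hκ hC11
  obtain ⟨C3, hC3⟩ : ∃ C3 : ℝ, C3 = C2 / κ + 1 := ⟨_, rfl⟩
  have hC31 : 1 ≤ C3 := by
    rw [hC3]
    have : 0 ≤ C2 / κ := by positivity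
    linarith
  obtain ⟨A2, C4, hA21, hC41, h2⟩ := near2 n hn B T' κ C3 (by linarith) hT'1 hκ hC31
  refine ⟨A0 + A2 + K1 / ρ, C4, ?_, hC41, ?_⟩
  · have : 0 ≤ K1 / ρ := by positivity
    linarith
  intro G S hS hGφ hG hfl x y hz hx
  have hS0 : 0 < S := by linarith
  have hK1ρ : 0 ≤ K1 / ρ := by positivity
  have hx0 : 0 < |x| := by
    refine lt_of_lt_of_le ?_ hx
    have : 0 < A0 + A2 + K1 / ρ := by linarith
    positivity
  have hxne : x ≠ 0 := abs_pos.1 hx0
  have hlead : lead n G = φ := by rw [← part_zero, hGφ]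
  have hG0 : G 0 n ≠ 0 := by
    intro h
    have h3 : (lead n G).coeff n = G 0 n := by
      rw [lead_coeff]
      simp
    rw [hlead, h] at h3
    have h4 : φ.leadingCoeff = 0 := by rw [leadingCoeff, hφ, h3]
    rw [leadingCoeff_eq_zero] at h4
    rw [h4, natDegree_zero] at hφ
    omega
  have hvert := not_vert n (by omega) B A0 hB (by rw [hA0]; linarith) G S hS hG hG0 x y hz
  have hSx : S ≤ |x| := by
    have : 1 * S ≤ (A0 + A2 + K1 / ρ) * S := mul_le_mul_of_nonneg_right (by linarith) hS0.le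
    linarith
  rw [max_eq_right hSx] at hvert
  obtain ⟨u, hu⟩ : ∃ u : ℝ, u = 1 / x := ⟨_, rfl⟩
  have hux : u * x = 1 := by rw [hu]; field_simp
  have huab : |u| * |x| = 1 := by rw [← abs_mul, hux, abs_one]
  have hu0 : 0 < |u| := by
    rw [hu, abs_div, abs_one]
    positivity
  obtain ⟨τ, hτ⟩ : ∃ τ : ℝ, τ = u * y := ⟨_, rfl⟩
  have hev : evt n (cst ℝ G) u τ = 0 := by
    have h3 := ev_eq_evt n (cst ℝ G) x y u hux
    rw [hz] at h3
    rcases mul_eq_zero.1 h3.symm with h | h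
    · exact absurd h (pow_ne_zero _ hxne)
    · rw [hτ]
      exact h
  have hτb : |τ| ≤ A0 := by
    rw [hτ, abs_mul]
    calc |u| * |y| ≤ |u| * (A0 * |x|) := mul_le_mul_of_nonneg_left hvert hu0.le
      _ = A0 * (|u| * |x|) := by ring
      _ = A0 := by rw [huab, mul_one]
  -- smallness of `v = S |u|`
  have hvA : (A0 + A2 + K1 / ρ) * (S * |u|) ≤ 1 := by
    calc (A0 + A2 + K1 / ρ) * (S * |u|) = ((A0 + A2 + K1 / ρ) * S) * |u| := by ring
      _ ≤ |x| * |u| := mul_le_mul_of_nonneg_right hx hu0.le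
      _ = 1 := by rw [mul_comm, huab]
  have hv0 : 0 ≤ S * |u| := by positivity
  have hv1 : S * |u| ≤ 1 := by nlinarith
  have hvA2 : A2 * (S * |u|) ≤ 1 := by nlinarith
  have hvρ : K1 * (S * |u|) ≤ ρ := by
    have h3 : K1 / ρ * (S * |u|) ≤ 1 := by nlinarith
    rw [div_mul_eq_mul_div, div_le_one hρ] at h3
    exact h3
  -- `φ(τ)` is small
  have hφτ : |aeval τ φ| ≤ K1 * (S * |u|) := by
    have h3 := evt_taylor n G u τ 0
    rw [add_zero, hev] at h3
    have htc : ∀ i j, i ≤ n → |tc n G τ i j| ≤ K * S ^ i := by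
      intro i j hi
      rw [hK]
      exact tc_le n B T' S (by linarith) hT'1 hS0.le G hG τ (by rw [hT']; linarith) i j hi
    have hab : ∀ i j, i ≤ n → j ≤ n → |tc n G τ i j * u ^ i * 0 ^ j| ≤ K * (1 * (S * |u|)) ^ (i + j) := by
      intro i j hi hj
      rcases Nat.eq_zero_or_pos j with h | h
      · subst h
        rw [pow_zero, mul_one, add_zero, one_mul, abs_mul, abs_pow, mul_pow]
        calc |tc n G τ i 0| * |u| ^ i ≤ (K * S ^ i) * |u| ^ i := mul_le_mul_of_nonneg_right (htc i 0 hi) (by positivity)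
          _ = _ := by ring
      · rw [zero_pow (by omega), mul_zero, abs_zero]
        positivity
    have h4 := tail_le n 1 K 1 (S * |u|) hK0 le_rfl hv0 hv1 _ hab
    rw [one_pow, mul_one, pow_one] at h4
    have h5 : aeval τ φ + ∑ i ∈ range (n + 1), ∑ j ∈ range (n + 1), (if 1 ≤ i + j then tc n G τ i j * u ^ i * 0 ^ j else 0) = 0 := by
      refine Eq.trans ?_ h3.symm
      have h6 : aeval τ φ = ∑ i ∈ range (n + 1), ∑ j ∈ range (n + 1), (if 1 ≤ i + j then 0 else tc n G τ i j * u ^ i * 0 ^ j) := by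
        rw [Finset.sum_eq_single 0]
        · rw [Finset.sum_eq_single 0]
          · rw [if_neg (by omega), pow_zero, pow_zero, mul_one, mul_one, tc_zero_zero, hlead]
          · intro j _ hj
            rw [if_pos (by omega)]
          · intro h
            exact absurd (mem_range.2 (by omega)) h
        · intro i _ hi
          refine Finset.sum_eq_zero fun j _ => ?_
          rw [if_pos (by omega)]
        · intro h
          exact absurd (mem_range.2 (by omega)) h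
      rw [h6, ← Finset.sum_add_distrib]
      refine Finset.sum_congr rfl fun i _ => ?_
      rw [← Finset.sum_add_distrib]
      refine Finset.sum_congr rfl fun j _ => ?_
      split_ifs
      · rw [zero_add]
      · rw [add_zero]
    have h6 : |aeval τ φ| ≤ (n + 1) ^ 2 * K * (S * |u|) := by
      have h7 : aeval τ φ = -∑ i ∈ range (n + 1), ∑ j ∈ range (n + 1), (if 1 ≤ i + j then tc n G τ i j * u ^ i * 0 ^ j else 0) := by
        linarith
      rw [h7, abs_neg]
      exact h4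
    rw [hK1]
    nlinarith
  obtain ⟨t, ht, hτt⟩ := hnear τ (hφτ.trans hvρ)
  obtain ⟨htT, htκ⟩ := hrt t ht
  have ht00 : tc n G t 0 0 = 0 := by rw [tc_zero_zero, hlead, ht]
  have htκ' : κ ≤ |tc n G t 0 1| := by rw [tc_zero_one, hlead]; exact htκ
  have htc0 : tc n G t 0 1 ≠ 0 := by
    intro h
    rw [h, abs_zero] at htκ'
    linarith
  obtain ⟨s, hs⟩ : ∃ s : ℝ, s = tc n G t 1 0 / tc n G t 0 1 := ⟨_, rfl⟩
  have hst : tc n G t 0 1 * s = tc n G t 1 0 := by
    rw [hs]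
    field_simp
  obtain ⟨z, hzd⟩ : ∃ z : ℝ, z = y - t * x + s := ⟨_, rfl⟩
  have hδ : τ - t = (z - s) * u := by
    rw [hzd, hτ]
    have : t = t * (u * x) := by rw [hux, mul_one]
    linear_combination (-1 : ℝ) * this
  have hδ1 : |τ - t| ≤ C1 * (S * |u|) := by
    refine hτt.trans ?_
    rw [hC1]
    calc Cρ * |aeval τ φ| ≤ Cρ * (K1 * (S * |u|)) := mul_le_mul_of_nonneg_left hφτ (by linarith)
      _ = _ := by ring
  have h3 := h1 G S hS hG t (by rw [hT']; linarith) ht00 htκ' u (τ - t) hv1 hδ1 (by rw [add_sub_cancel]; exact hev)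
  have h4 : tc n G t 0 1 * (τ - t) + tc n G t 1 0 * u = tc n G t 0 1 * (u * z) := by
    rw [hδ, ← hst]
    ring
  rw [h4, abs_mul, abs_mul] at h3
  have h5 : |z| ≤ C3 * (S ^ 2 * |u|) := by
    have h6 : κ * (|u| * |z|) ≤ C2 * (S * |u|) ^ 2 :=
      (mul_le_mul_of_nonneg_right htκ' (by positivity)).trans h3
    have h7 : |u| * (κ * |z|) ≤ |u| * (C2 * (S ^ 2 * |u|)) := by
      calc |u| * (κ * |z|) = κ * (|u| * |z|) := by ring
        _ ≤ C2 * (S * |u|) ^ 2 := h6
        _ = _ := by ring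
    have h8 := le_of_mul_le_mul_left h7 hu0
    have h9 : |z| ≤ C2 / κ * (S ^ 2 * |u|) := by
      rw [div_mul_eq_mul_div, le_div_iff₀ hκ]
      linarith
    have h10 : 0 ≤ S ^ 2 * |u| := by positivity
    rw [hC3]
    linarith
  have h6 := h2 G S hS hG t (by rw [hT']; linarith) ht00 htκ' (hfl t ht) u z hvA2 h5 (by
    rw [← hs, ← hδ, add_sub_cancel]
    exact hev)
  refine ⟨t, ht, htc0, ?_⟩
  rw [← hs, ← hzd, ← hu]
  exact h6

end Pool.Agent.H99.UC
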