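import Pool.Agent.H6.AB.Three

/-! # [H99 UC BRA] The branch `t = T(u)` of `Φ(u,t) = 0` near `(0,r)` and `y = x T(S/x)` -/

namespace Pool.Agent.H99.UC

open Pool.Agent.H6.AB

/-- the array for `t/2` -/
private noncomputable def b2 (b : ℕ → ℕ → ℝ) : ℕ → ℕ → ℝ := fun k j => b k j * 2 ^ j

private theorem b2_le {n : ℕ} {b : ℕ → ℕ → ℝ} {B : ℝ} (hb : ∀ k ≤ n, ∀ j ≤ n, |b k j| ≤ B) :
    ∀ k ≤ n, ∀ j ≤ n, |b2 b k j| ≤ B * 2 ^ n := by
  intro k hk j hj
  unfold b2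
  rw [abs_mul, abs_pow, abs_two]
  have h1 : (2 : ℝ) ^ j ≤ 2 ^ n := pow_le_pow_right₀ (by norm_num) hj
  have hB : 0 ≤ B := (abs_nonneg _).trans (hb k hk j hj)
  exact mul_le_mul (hb k hk j hj) h1 (by positivity) hB

private theorem Ph_b2 (n : ℕ) (b : ℕ → ℕ → ℝ) (u t : ℝ) : Ph n (b2 b) u (t / 2) = Ph n b u t := by
  unfold Ph b2
  refine Finset.sum_congr rfl fun k _ => Finset.sum_congr rfl fun j _ => ?_
  rw [div_pow]
  field_simp

private theorem Phu_b2 (n : ℕ) (b : ℕ → ℕ → ℝ) (u t : ℝ) : Phu n (b2 b) u (t / 2) = Phu n b u t := by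
  unfold Phu b2
  refine Finset.sum_congr rfl fun k _ => Finset.sum_congr rfl fun j _ => ?_
  rw [div_pow]
  field_simp

private theorem Pht_b2 (n : ℕ) (b : ℕ → ℕ → ℝ) (u t : ℝ) : Pht n (b2 b) u (t / 2) = 2 * Pht n b u t := by
  unfold Pht b2
  rw [Finset.mul_sum]
  refine Finset.sum_congr rfl fun k _ => ?_
  rw [Finset.mul_sum]
  refine Finset.sum_congr rfl fun j _ => ?_
  rcases Nat.eq_zero_or_pos j with rfl | hj
  · simp
  · obtain ⟨m, rfl⟩ : ∃ m, j = m + 1 := ⟨j - 1, by omega⟩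
    rw [Nat.add_sub_cancel, div_pow, pow_succ]
    field_simp

/-- the constant -/
noncomputable def cD (n : ℕ) : ℝ := ((n : ℝ) + 1) ^ 2 * 2 ^ n * (4 * (n : ℝ) ^ 2 + n + 1)

theorem cD_pos (n : ℕ) : 0 < cD n := by
  unfold cD
  positivity

private theorem half_le {t : ℝ} (ht : |t| ≤ 2) : |t / 2| ≤ 1 := by
  rw [abs_div, abs_two]
  linarith

theorem Ph_lipu (n : ℕ) {b : ℕ → ℕ → ℝ} {B : ℝ} (hB : 0 ≤ B) (hb : ∀ k ≤ n, ∀ j ≤ n, |b k j| ≤ B) {u v t : ℝ}
    (hu : |u| ≤ 1) (hv : |v| ≤ 1) (ht : |t| ≤ 2) : |Ph n b u t - Ph n b v t| ≤ cD n * B * |u - v| := by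
  have h1 := Ph_rest n (by positivity : 0 ≤ B * 2 ^ n) (b2_le hb) hu hv (half_le ht) (half_le ht)
  rw [Ph_b2, Ph_b2, Ph_b2, sub_self, abs_zero, mul_zero, add_zero] at h1
  have e : Ph n b u t - Ph n b 0 t - (Ph n b v t - Ph n b 0 t) = Ph n b u t - Ph n b v t := by ring
  rw [e] at h1
  refine h1.trans ?_
  unfold cD
  have h2 : (n : ℝ) ≤ 4 * (n : ℝ) ^ 2 + n + 1 := by nlinarith [sq_nonneg (n : ℝ)]
  have h3 : 0 ≤ ((n : ℝ) + 1) ^ 2 * 2 ^ n * B * |u - v| := by positivity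
  nlinarith

theorem Pht_lip0 (n : ℕ) {b : ℕ → ℕ → ℝ} {B : ℝ} (hB : 0 ≤ B) (hb : ∀ k ≤ n, ∀ j ≤ n, |b k j| ≤ B) {u t : ℝ}
    (hu : |u| ≤ 1) (ht : |t| ≤ 2) : |Pht n b u t - Pht n b 0 t| ≤ cD n * B * |u| := by
  have h1 := Pht_near n (by positivity : 0 ≤ B * 2 ^ n) (b2_le hb) hu (half_le ht)
  rw [Pht_b2, Pht_b2, ← mul_sub, abs_mul, abs_two] at h1
  unfold cD
  have h2 : (n : ℝ) ≤ 4 * (n : ℝ) ^ 2 + n + 1 := by nlinarith [sq_nonneg (n : ℝ)]
  have h3 : 0 ≤ ((n : ℝ) + 1) ^ 2 * 2 ^ n * B * |u| := by positivity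
  have h4 := abs_nonneg (Pht n b u t - Pht n b 0 t)
  nlinarith

theorem Ph_tay2 (n : ℕ) {b : ℕ → ℕ → ℝ} {B : ℝ} (hB : 0 ≤ B) (hb : ∀ k ≤ n, ∀ j ≤ n, |b k j| ≤ B) {u v s t : ℝ}
    (hu : |u| ≤ 1) (hv : |v| ≤ 1) (hs : |s| ≤ 2) (ht : |t| ≤ 2) :
    |Ph n b u t - Ph n b v s - (Phu n b v s * (u - v) + Pht n b v s * (t - s))| ≤
      cD n * B * ((u - v) ^ 2 + (t - s) ^ 2) := by
  have h1 := Ph_taylor n (by positivity : 0 ≤ B * 2 ^ n) (b2_le hb) hu hv (half_le hs) (half_le ht)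
  rw [Ph_b2, Ph_b2, Phu_b2, Pht_b2] at h1
  have e : 2 * Pht n b v s * (t / 2 - s / 2) = Pht n b v s * (t - s) := by ring
  rw [e] at h1
  refine h1.trans ?_
  unfold cD
  have h2 : (t / 2 - s / 2) ^ 2 ≤ (t - s) ^ 2 := by nlinarith [sq_nonneg (t - s)]
  have h3 : (2 * (n : ℝ)) ^ 2 * ((u - v) ^ 2 + (t / 2 - s / 2) ^ 2) ≤ (4 * (n : ℝ) ^ 2 + n + 1) * ((u - v) ^ 2 + (t - s) ^ 2) := by
    refine mul_le_mul ?_ (by linarith) (by positivity) (by positivity)
    nlinarith [(Nat.cast_nonneg n : (0 : ℝ) ≤ n)]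
  have h4 : 0 ≤ ((n : ℝ) + 1) ^ 2 * 2 ^ n * B := by positivity
  calc ((n : ℝ) + 1) ^ 2 * (B * 2 ^ n * ((2 * (n : ℝ)) ^ 2 * ((u - v) ^ 2 + (t / 2 - s / 2) ^ 2)))
      = (((n : ℝ) + 1) ^ 2 * 2 ^ n * B) * ((2 * (n : ℝ)) ^ 2 * ((u - v) ^ 2 + (t / 2 - s / 2) ^ 2)) := by ring
    _ ≤ (((n : ℝ) + 1) ^ 2 * 2 ^ n * B) * ((4 * (n : ℝ) ^ 2 + n + 1) * ((u - v) ^ 2 + (t - s) ^ 2)) :=
        mul_le_mul_of_nonneg_left h3 h4
    _ = _ := by ring

/-- a root of `f` near the root `r` of `f₀`, positive derivative -/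
private theorem root_pos (f₀ f₀' f : ℝ → ℝ) (r c θ δ : ℝ) (hθ : 0 < θ) (h0 : ∀ t, HasDerivAt f₀ (f₀' t) t)
    (hr : f₀ r = 0) (hd : ∀ t, |t - r| ≤ θ → c ≤ f₀' t) (hf : Continuous f) (hδ : δ < c * θ)
    (hff : ∀ t, |t - r| ≤ θ → |f t - f₀ t| ≤ δ) : ∃ t, |t - r| ≤ θ ∧ f t = 0 := by
  have hc : Continuous f₀ := continuous_iff_continuousAt.2 fun t => (h0 t).continuousAt
  obtain ⟨ξ, hξ, hξ'⟩ := exists_hasDerivAt_eq_slope f₀ f₀' (by linarith : r < r + θ) hc.continuousOn (fun x _ => h0 x)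
  obtain ⟨ζ, hζ, hζ'⟩ := exists_hasDerivAt_eq_slope f₀ f₀' (by linarith : r - θ < r) hc.continuousOn (fun x _ => h0 x)
  have k1 : c ≤ f₀' ξ := hd ξ (by rw [abs_le]; constructor <;> linarith [hξ.1, hξ.2])
  have k2 : c ≤ f₀' ζ := hd ζ (by rw [abs_le]; constructor <;> linarith [hζ.1, hζ.2])
  rw [hξ', hr] at k1
  rw [hζ', hr] at k2
  have e1 : r + θ - r = θ := by ring
  have e2 : r - (r - θ) = θ := by ring
  rw [e1, le_div_iff₀ hθ] at k1
  rw [e2, le_div_iff₀ hθ] at k2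
  have q1 := hff (r + θ) (by rw [e1, abs_of_pos hθ])
  have q2 := hff (r - θ) (by rw [abs_sub_comm, e2, abs_of_pos hθ])
  rw [abs_le] at q1 q2
  have p1 : 0 ≤ f (r + θ) := by linarith [q1.1]
  have p2 : f (r - θ) ≤ 0 := by linarith [q2.2]
  obtain ⟨t, ht, ht'⟩ := intermediate_value_Icc (by linarith : r - θ ≤ r + θ) hf.continuousOn ⟨p2, p1⟩
  exact ⟨t, by rw [abs_le]; constructor <;> linarith [ht.1, ht.2], ht'⟩

/-- a root of `f` near the root `r` of `f₀` -/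
theorem root_any (f₀ f₀' f : ℝ → ℝ) (r c θ δ : ℝ) (hc0 : 0 < c) (hθ : 0 < θ) (h0 : ∀ t, HasDerivAt f₀ (f₀' t) t)
    (hr : f₀ r = 0) (hd : ∀ t, |t - r| ≤ θ → c ≤ |f₀' t|) (hf : Continuous f) (hδ : δ < c * θ)
    (hff : ∀ t, |t - r| ≤ θ → |f t - f₀ t| ≤ δ) : ∃ t, |t - r| ≤ θ ∧ f t = 0 := by
  have hsign : (∀ t, |t - r| ≤ θ → c ≤ f₀' t) ∨ (∀ t, |t - r| ≤ θ → c ≤ -f₀' t) := by
    by_contra hcon
    push Not at hcon
    obtain ⟨⟨t₁, h1, h1'⟩, ⟨t₂, h2, h2'⟩⟩ := hcon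
    have k1 : f₀' t₁ < 0 := by
      rcases le_abs.1 (hd t₁ h1) with h | h
      · linarith
      · linarith
    have k2 : 0 < f₀' t₂ := by
      rcases le_abs.1 (hd t₂ h2) with h | h
      · linarith
      · linarith
    rw [abs_le] at h1 h2
    have hbad : ∃ z, |z - r| ≤ θ ∧ f₀' z = 0 := by
      rcases le_total t₁ t₂ with h | h
      · obtain ⟨z, hz, hz'⟩ := exists_hasDerivWithinAt_eq_of_gt_of_lt h (fun x _ => (h0 x).hasDerivWithinAt) k1 k2
        exact ⟨z, by rw [abs_le]; constructor <;> linarith [hz.1, hz.2], hz'⟩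
      · obtain ⟨z, hz, hz'⟩ := exists_hasDerivWithinAt_eq_of_lt_of_gt h (fun x _ => (h0 x).hasDerivWithinAt) k2 k1
        exact ⟨z, by rw [abs_le]; constructor <;> linarith [hz.1, hz.2], hz'⟩
    obtain ⟨z, hz, hz'⟩ := hbad
    have := hd z hz
    rw [hz', abs_zero] at this
    linarith
  rcases hsign with h | h
  · exact root_pos f₀ f₀' f r c θ δ hθ h0 hr h hf hδ hff
  · obtain ⟨t, ht, ht'⟩ := root_pos (fun t => -f₀ t) (fun t => -f₀' t) (fun t => -f t) r c θ δ hθ (fun t => (h0 t).neg)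
      (by rw [hr, neg_zero]) h hf.neg hδ (fun t ht => by
        have e : -f t - -f₀ t = -(f t - f₀ t) := by ring
        rw [e, abs_neg]
        exact hff t ht)
    exact ⟨t, ht, neg_eq_zero.1 ht'⟩

/-- a quadratic remainder gives the derivative -/
theorem deriv_of_quad (f : ℝ → ℝ) (m u η C : ℝ) (hu : |u| < η) (h : ∀ v, |v| ≤ η → |f v - f u - m * (v - u)| ≤ C * (v - u) ^ 2) :
    HasDerivAt f m u := by
  rw [hasDerivAt_iff_isLittleO]
  refine Asymptotics.IsBigO.trans_isLittleO (g := fun x => ‖x - u‖ ^ 2) ?_ (Asymptotics.isLittleO_pow_sub_sub u (m := 2) (by norm_num))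
  refine Asymptotics.IsBigO.of_bound C ?_
  have hn : {v : ℝ | |v| < η} ∈ nhds u := (isOpen_lt continuous_abs continuous_const).mem_nhds hu
  filter_upwards [hn] with v hv
  rw [Real.norm_eq_abs, Real.norm_eq_abs, Real.norm_eq_abs, sq_abs, abs_of_nonneg (sq_nonneg (v - u)), smul_eq_mul, mul_comm (v - u) m]
  exact h v (le_of_lt hv)

/-- **the branch** -/
theorem branch (n : ℕ) {b : ℕ → ℕ → ℝ} {B : ℝ} (hB : 0 < B) (hb : ∀ k ≤ n, ∀ j ≤ n, |b k j| ≤ B) {r c θ η : ℝ} (hc : 0 < c)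
    (hθ : 0 < θ) (hθ1 : θ ≤ 1) (hr2 : |r| + θ ≤ 2) (hr : Ph n b 0 r = 0) (hd : ∀ t, |t - r| ≤ θ → c ≤ |Pht n b 0 t|)
    (hη1 : η ≤ 1) (hη : cD n * B * η ≤ c * θ / 4) :
    ∃ T m : ℝ → ℝ, (∀ u, |u| ≤ η → Ph n b u (T u) = 0 ∧ m u * Pht n b u (T u) = -Phu n b u (T u)) ∧
      (∀ u v, |u| ≤ η → |v| ≤ η → |T v - T u - m u * (v - u)| ≤
        (2 / c * (cD n * B * (1 + (2 / c * (cD n * B)) ^ 2))) * (v - u) ^ 2) ∧
      (∀ u t, |u| ≤ η → |t - r| ≤ θ → c / 2 * |t - T u| ≤ |Ph n b u t|) := by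
  have hD := cD_pos n
  have hDB : 0 < cD n * B := by positivity
  have h2 : ∀ t, |t - r| ≤ θ → |t| ≤ 2 := by
    intro t ht
    have : |t| ≤ |t - r| + |r| := by
      have := abs_add_le (t - r) r
      rwa [sub_add_cancel] at this
    linarith
  have hlow : ∀ u t, |u| ≤ η → |t - r| ≤ θ → c / 2 ≤ |Pht n b u t| := by
    intro u t hu ht
    have k1 := Pht_lip0 n hB.le hb (hu.trans hη1) (h2 t ht)
    have k2 := hd t ht
    have k3 : cD n * B * |u| ≤ c / 4 := by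
      have : cD n * B * |u| ≤ cD n * B * η := mul_le_mul_of_nonneg_left hu hDB.le
      have : c * θ / 4 ≤ c / 4 := by nlinarith
      linarith
    have k4 : |Pht n b 0 t| ≤ |Pht n b u t| + |Pht n b u t - Pht n b 0 t| := by
      have := abs_sub (Pht n b u t) (Pht n b u t - Pht n b 0 t)
      have e : Pht n b u t - (Pht n b u t - Pht n b 0 t) = Pht n b 0 t := by ring
      rwa [e] at this
    linarith
  have hmono : ∀ u t s, |u| ≤ η → |t - r| ≤ θ → |s - r| ≤ θ → c / 2 * |t - s| ≤ |Ph n b u t - Ph n b u s| := by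
    have aux : ∀ u t s, |u| ≤ η → |t - r| ≤ θ → |s - r| ≤ θ → s < t → c / 2 * |t - s| ≤ |Ph n b u t - Ph n b u s| := by
      intro u t s hu ht hs hst
      have hcont : Continuous (fun t => Ph n b u t) := continuous_iff_continuousAt.2 fun t => (hasDerivAt_Ph n b u t).continuousAt
      obtain ⟨ξ, hξ, hξ'⟩ := exists_hasDerivAt_eq_slope (fun t => Ph n b u t) (fun t => Pht n b u t) hst hcont.continuousOn
        (fun x _ => hasDerivAt_Ph n b u x)
      rw [abs_le] at ht hs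
      have k1 := hlow u ξ hu (by rw [abs_le]; constructor <;> linarith [hξ.1, hξ.2])
      have hpos : 0 < t - s := by linarith
      have k2 : Ph n b u t - Ph n b u s = Pht n b u ξ * (t - s) := by
        rw [hξ']
        field_simp
      rw [k2, abs_mul]
      exact mul_le_mul_of_nonneg_right k1 (abs_nonneg _)
    intro u t s hu ht hs
    rcases lt_trichotomy s t with h | h | h
    · exact aux u t s hu ht hs h
    · rw [h]
      simp
    · have := aux u s t hu hs ht h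
      rw [abs_sub_comm t s, abs_sub_comm (Ph n b u t)]
      exact this
  have hex : ∀ u, ∃ t, |u| ≤ η → |t - r| ≤ θ ∧ Ph n b u t = 0 := by
    intro u
    by_cases hu : |u| ≤ η
    · obtain ⟨t, ht, ht'⟩ := root_any (fun t => Ph n b 0 t) (fun t => Pht n b 0 t) (fun t => Ph n b u t) r c θ (c * θ / 4) hc hθ
        (fun t => hasDerivAt_Ph n b 0 t) hr hd (continuous_iff_continuousAt.2 fun t => (hasDerivAt_Ph n b u t).continuousAt)
        (by nlinarith [mul_pos hc hθ]) (by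
          intro t ht
          have k1 := Ph_lipu n hB.le hb (hu.trans hη1) (by simp : |(0 : ℝ)| ≤ 1) (h2 t ht)
          rw [sub_zero] at k1
          refine k1.trans ((mul_le_mul_of_nonneg_left hu hDB.le).trans hη))
      exact ⟨t, fun _ => ⟨ht, ht'⟩⟩
    · exact ⟨0, fun h => absurd h hu⟩
  choose T hT using hex
  refine ⟨T, fun u => -Phu n b u (T u) / Pht n b u (T u), ?_, ?_, ?_⟩
  · intro u hu
    refine ⟨(hT u hu).2, ?_⟩
    have k1 := hlow u (T u) hu (hT u hu).1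
    have k2 : Pht n b u (T u) ≠ 0 := by
      intro h
      rw [h, abs_zero] at k1
      linarith
    field_simp
  · intro u v hu hv
    obtain ⟨a1, a2⟩ := hT u hu
    obtain ⟨b1, b2⟩ := hT v hv
    have k1 := hlow u (T u) hu a1
    have k2 : Pht n b u (T u) ≠ 0 := by
      intro h
      rw [h, abs_zero] at k1
      linarith
    have k3 := Ph_tay2 n hB.le hb (hv.trans hη1) (hu.trans hη1) (h2 _ a1) (h2 _ b1)
    rw [a2, b2] at k3
    have k4 := hmono v (T v) (T u) hv b1 a1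
    rw [b2, zero_sub, abs_neg] at k4
    have k5 := Ph_lipu n hB.le hb (hv.trans hη1) (hu.trans hη1) (h2 _ a1)
    rw [a2, sub_zero] at k5
    have k6 : |T v - T u| ≤ 2 / c * (cD n * B) * |v - u| := by
      have : c / 2 * |T v - T u| ≤ cD n * B * |v - u| := k4.trans k5
      rw [div_mul_eq_mul_div, div_mul_eq_mul_div, le_div_iff₀ hc]
      linarith
    have k7 : (T v - T u) ^ 2 ≤ (2 / c * (cD n * B)) ^ 2 * (v - u) ^ 2 := by
      rw [← mul_pow, ← sq_abs (T v - T u), ← sq_abs (2 / c * (cD n * B) * (v - u))]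
      refine pow_le_pow_left₀ (abs_nonneg _) ?_ 2
      rw [abs_mul, abs_of_pos (by positivity : 0 < 2 / c * (cD n * B))]
      exact k6
    have k8 : |Pht n b u (T u)| * |T v - T u - -Phu n b u (T u) / Pht n b u (T u) * (v - u)| ≤
        cD n * B * ((v - u) ^ 2 + (T v - T u) ^ 2) := by
      rw [← abs_mul]
      have e : Pht n b u (T u) * (T v - T u - -Phu n b u (T u) / Pht n b u (T u) * (v - u)) =
          -(0 - 0 - (Phu n b u (T u) * (v - u) + Pht n b u (T u) * (T v - T u))) := by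
        field_simp
        ring
      rw [e, abs_neg]
      exact k3
    have k9 : cD n * B * ((v - u) ^ 2 + (T v - T u) ^ 2) ≤ cD n * B * (1 + (2 / c * (cD n * B)) ^ 2) * (v - u) ^ 2 := by
      have : (v - u) ^ 2 + (T v - T u) ^ 2 ≤ (1 + (2 / c * (cD n * B)) ^ 2) * (v - u) ^ 2 := by linarith
      calc cD n * B * ((v - u) ^ 2 + (T v - T u) ^ 2) ≤ cD n * B * ((1 + (2 / c * (cD n * B)) ^ 2) * (v - u) ^ 2) :=
            mul_le_mul_of_nonneg_left this hDB.le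
        _ = _ := by ring
    have k10 : c / 2 * |T v - T u - -Phu n b u (T u) / Pht n b u (T u) * (v - u)| ≤
        cD n * B * (1 + (2 / c * (cD n * B)) ^ 2) * (v - u) ^ 2 :=
      ((mul_le_mul_of_nonneg_right k1 (abs_nonneg _)).trans k8).trans k9
    have k11 : 2 / c * (c / 2 * |T v - T u - -Phu n b u (T u) / Pht n b u (T u) * (v - u)|) ≤
        2 / c * (cD n * B * (1 + (2 / c * (cD n * B)) ^ 2) * (v - u) ^ 2) := mul_le_mul_of_nonneg_left k10 (by positivity)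
    have e1 : 2 / c * (c / 2 * |T v - T u - -Phu n b u (T u) / Pht n b u (T u) * (v - u)|) =
        |T v - T u - -Phu n b u (T u) / Pht n b u (T u) * (v - u)| := by field_simp
    rw [e1] at k11
    refine k11.trans (le_of_eq ?_)
    ring
  · intro u t hu ht
    obtain ⟨a1, a2⟩ := hT u hu
    have := hmono u t (T u) hu ht a1
    rwa [a2, sub_zero] at this

/-- **the branch in the plane**: `y = Φ(x) = x T(S/x)`, `J = Φ'` -/
theorem phi_branch (n : ℕ) {b : ℕ → ℕ → ℝ} {B : ℝ} (hB : 0 < B) (hb : ∀ k ≤ n, ∀ j ≤ n, |b k j| ≤ B) {r c θ η : ℝ} (hc : 0 < c)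
    (hθ : 0 < θ) (hθ1 : θ ≤ 1) (hr2 : |r| + θ ≤ 2) (hr : Ph n b 0 r = 0) (hd : ∀ t, |t - r| ≤ θ → c ≤ |Pht n b 0 t|)
    (hη1 : η ≤ 1) (hη : cD n * B * η ≤ c * θ / 4) (S : ℝ) (hS : 0 < S) :
    ∃ Φ J : ℝ → ℝ, (∀ x, x ≠ 0 → |S / x| < η → HasDerivAt Φ (J x) x) ∧
      (∀ x y U, |S / x| ≤ U → |S / y| ≤ U → U ≤ η →
        |J x - J y| ≤ 8 * (2 / c * (cD n * B * (1 + (2 / c * (cD n * B)) ^ 2))) * U ^ 2) ∧
      (∀ x t, |S / x| ≤ η → |t - r| ≤ θ → c / 2 * |x * t - Φ x| ≤ |x| * |Ph n b (S / x) t|) ∧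
      (∀ x, |S / x| ≤ η → ∃ t, Ph n b (S / x) t = 0 ∧
        t * Pht n b (S / x) t + S / x * Phu n b (S / x) t = J x * Pht n b (S / x) t) := by
  obtain ⟨T, m, h1, h2, h3⟩ := branch n hB hb hc hθ hθ1 hr2 hr hd hη1 hη
  obtain ⟨C, hC⟩ : ∃ C : ℝ, C = 2 / c * (cD n * B * (1 + (2 / c * (cD n * B)) ^ 2)) := ⟨_, rfl⟩
  have hC0 : 0 ≤ C := by
    rw [hC]
    have := cD_pos n
    positivity
  rw [← hC] at h2 ⊢
  refine ⟨fun x => x * T (S / x), fun x => T (S / x) - S / x * m (S / x), ?_, ?_, ?_, ?_⟩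
  · intro x hx hu
    have k1 : HasDerivAt T (m (S / x)) (S / x) := deriv_of_quad T _ _ η C hu fun v hv => h2 _ v hu.le hv
    have k2 : HasDerivAt (fun x : ℝ => S / x) (-(S / x ^ 2)) x := by
      have := (hasDerivAt_inv hx).const_mul S
      have e : -(S / x ^ 2) = S * -(x ^ 2)⁻¹ := by
        rw [div_eq_mul_inv]
        ring
      rw [e]
      simpa [div_eq_mul_inv] using this
    have k3 := k1.comp x k2
    have k4 := (hasDerivAt_id x).mul k3
    have e : T (S / x) - S / x * m (S / x) = 1 * T (S / x) + x * (m (S / x) * -(S / x ^ 2)) := by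
      field_simp
      ring
    show HasDerivAt (fun x => x * T (S / x)) (T (S / x) - S / x * m (S / x)) x
    rw [e]
    exact k4
  · intro x y U hx hy hU
    obtain ⟨u, hu⟩ : ∃ u : ℝ, u = S / x := ⟨_, rfl⟩
    obtain ⟨v, hv⟩ : ∃ v : ℝ, v = S / y := ⟨_, rfl⟩
    show |(T (S / x) - S / x * m (S / x)) - (T (S / y) - S / y * m (S / y))| ≤ 8 * C * U ^ 2
    rw [← hu, ← hv]
    rw [← hu] at hx
    rw [← hv] at hy
    have k1 := h2 v u (hy.trans hU) (hx.trans hU)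
    have k2 := h2 u v (hx.trans hU) (hy.trans hU)
    have hU0 : 0 ≤ U := (abs_nonneg _).trans hx
    have huv : |u - v| ≤ 2 * U := (abs_sub _ _).trans (by linarith)
    -- the slopes
    have k3 : |m v - m u| ≤ 2 * C * |u - v| := by
      by_cases h : u = v
      · rw [h]
        simp
      · have hpos : 0 < |u - v| := abs_pos.2 (sub_ne_zero.2 h)
        have k4 : |m v - m u| * |u - v| ≤ 2 * C * |u - v| * |u - v| := by
          rw [← abs_mul]
          have e : (m v - m u) * (u - v) = -(T u - T v - m v * (u - v)) - (T v - T u - m u * (v - u)) := by ring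
          rw [e]
          refine (abs_sub _ _).trans ?_
          rw [abs_neg]
          have e2 : (u - v) ^ 2 = |u - v| * |u - v| := by rw [← sq, sq_abs]
          have e3 : (v - u) ^ 2 = |u - v| * |u - v| := by rw [← e2]; ring
          rw [e2] at k1
          rw [e3] at k2
          linarith
        exact le_of_mul_le_mul_right k4 hpos
    have e : T u - u * m u - (T v - v * m v) = (T u - T v - m v * (u - v)) + u * (m v - m u) := by ring
    rw [e]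
    have k5 : |u * (m v - m u)| ≤ U * (2 * C * (2 * U)) := by
      rw [abs_mul]
      refine mul_le_mul hx (k3.trans ?_) (abs_nonneg _) hU0
      exact mul_le_mul_of_nonneg_left huv (by positivity)
    have k6 : (u - v) ^ 2 ≤ (2 * U) ^ 2 := by
      rw [← sq_abs]
      exact pow_le_pow_left₀ (abs_nonneg _) huv 2
    have k7 : C * (u - v) ^ 2 ≤ C * (2 * U) ^ 2 := mul_le_mul_of_nonneg_left k6 hC0
    calc |(T u - T v - m v * (u - v)) + u * (m v - m u)| ≤ |T u - T v - m v * (u - v)| + |u * (m v - m u)| := abs_add_le _ _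
      _ ≤ C * (2 * U) ^ 2 + U * (2 * C * (2 * U)) := add_le_add (k1.trans k7) k5
      _ = 8 * C * U ^ 2 := by ring
  · intro x t hx ht
    show c / 2 * |x * t - x * T (S / x)| ≤ |x| * |Ph n b (S / x) t|
    rw [← mul_sub, abs_mul]
    have := mul_le_mul_of_nonneg_left (h3 (S / x) t hx ht) (abs_nonneg x)
    linarith
  · intro x hx
    obtain ⟨a1, a2⟩ := h1 (S / x) hx
    refine ⟨T (S / x), a1, ?_⟩
    show _ = (T (S / x) - S / x * m (S / x)) * Pht n b (S / x) (T (S / x))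
    linear_combination (S / x) * a2

end Pool.Agent.H99.UC
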