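import Pool.Agent.H88.TS.Rot
import Pool.Agent.H99.UC.Asy
import Pool.Agent.H99.UC.Alg

/-! # [H99 UC CC] The span case with contact `≥ 3` everywhere at infinity: no large integer zero (Roth)

If `F_(n-1) = w₀ f_x + w₁ f_y` and there is a flex at infinity then every asymptote is `y + w₁ = t (x + w₀)` and the curve is `O(S³/x²)` close to it;
`D w₀, D w₁` are integers, so Roth gives `|x| = O(S⁶)`. -/

namespace Pool.Agent.H99.UC

open Finset Polynomial Pool.Agent.H72.ES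

theorem roth_sq (φ : ℤ[X]) (hφ0 : φ ≠ 0) (t : ℝ) (ht : Irrational t) (hroot : aeval t φ = 0) :
    ∃ c : ℝ, 0 < c ∧ ∀ p q : ℤ, q ≠ 0 → c ≤ |(q : ℝ)| ^ 3 * (q * t - p) ^ 2 := by
  obtain ⟨c, hc, h⟩ := Pool.Agent.H88.TS.roth φ hφ0 t ht hroot (1 / 2) (by norm_num)
  refine ⟨c ^ 2, by positivity, ?_⟩
  have key : ∀ p q : ℤ, 1 ≤ q → c ^ 2 ≤ |(q : ℝ)| ^ 3 * (q * t - p) ^ 2 := by
    intro p q hq
    have hq1 : (1 : ℝ) ≤ q := by exact_mod_cast hq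
    have h1 := h p q hq
    have h2 : ((q : ℝ) ^ (1 + (1 / 2 : ℝ))) ^ 2 = |(q : ℝ)| ^ 3 := by
      rw [abs_of_nonneg (by linarith), ← Real.rpow_natCast, ← Real.rpow_mul (by linarith), ← Real.rpow_natCast]
      norm_num
    calc c ^ 2 ≤ ((q : ℝ) ^ (1 + (1 / 2 : ℝ)) * |q * t - p|) ^ 2 := pow_le_pow_left₀ hc.le h1 2
      _ = _ := by rw [mul_pow, h2, sq_abs]
  intro p q hq
  rcases lt_or_gt_of_ne hq with h0 | h0
  · have h3 := key (-p) (-q) (by omega)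
    push_cast at h3
    rw [abs_neg] at h3
    calc c ^ 2 ≤ _ := h3
      _ = _ := by ring
  · exact key p q (by omega)

theorem roth_all (φ : ℤ[X]) (hφ0 : φ ≠ 0) (hirrat : ∀ t : ℝ, aeval t φ = 0 → Irrational t) :
    ∃ c : ℝ, 0 < c ∧ ∀ t : ℝ, aeval t φ = 0 → ∀ p q : ℤ, q ≠ 0 → c ≤ |(q : ℝ)| ^ 3 * (q * t - p) ^ 2 := by
  have H : ∀ F : Finset ℝ, (∀ t ∈ F, aeval t φ = 0) →
      ∃ c : ℝ, 0 < c ∧ ∀ t ∈ F, ∀ p q : ℤ, q ≠ 0 → c ≤ |(q : ℝ)| ^ 3 * (q * t - p) ^ 2 := by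
    classical
    intro F
    induction F using Finset.induction_on with
    | empty => exact fun _ => ⟨1, one_pos, fun t ht => absurd ht (Finset.notMem_empty t)⟩
    | insert a F ha ih =>
      intro hF
      obtain ⟨c1, hc1, h1⟩ := ih fun t ht => hF t (Finset.mem_insert_of_mem ht)
      have ha0 := hF a (Finset.mem_insert_self _ _)
      obtain ⟨c2, hc2, h2⟩ := roth_sq φ hφ0 a (hirrat a ha0) ha0
      refine ⟨min c1 c2, lt_min hc1 hc2, ?_⟩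
      intro t ht p q hq
      rcases Finset.mem_insert.1 ht with rfl | ht
      · exact (min_le_right _ _).trans (h2 p q hq)
      · exact (min_le_left _ _).trans (h1 t ht p q hq)
  classical
  obtain ⟨c, hc, h⟩ := H (φ.aroots ℝ).toFinset (fun t ht => by
    rw [Multiset.mem_toFinset, mem_aroots] at ht
    exact ht.2)
  exact ⟨c, hc, fun t ht => h t (by rw [Multiset.mem_toFinset, mem_aroots]; exact ⟨hφ0, ht⟩)⟩

theorem irrat (n : ℕ) (hn : 2 ≤ n) (φ : ℤ[X]) (hφ : φ.natDegree = n) (hirr : Irreducible (φ.map (Int.castRingHom ℚ))) (t : ℝ)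
    (ht : aeval t φ = 0) : Irrational t := by
  rintro ⟨q, rfl⟩
  have h0 : ((q : ℚ) : ℝ) = algebraMap ℚ ℝ q := rfl
  rw [h0, aeval_algebraMap_apply] at ht
  have h1 : aeval q φ = 0 := (algebraMap ℚ ℝ).injective (by rw [ht, map_zero])
  have h2 : IsRoot (φ.map (Int.castRingHom ℚ)) q := by
    rw [IsRoot.def, ← h1, aeval_def, eval₂_eq_eval_map]
    rfl
  have h3 := degree_eq_one_of_irreducible_of_root hirr h2
  have h4 : (φ.map (Int.castRingHom ℚ)).natDegree = n := by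
    rw [natDegree_map_eq_of_injective (RingHom.injective_int _), hφ]
  have h5 : (φ.map (Int.castRingHom ℚ)).natDegree = 1 := natDegree_eq_of_degree_eq_some h3
  omega

theorem cc (n : ℕ) (hn : 4 ≤ n) (φ : ℤ[X]) (hφ : φ.natDegree = n) (hirr : Irreducible (φ.map (Int.castRingHom ℚ)))
    (hsep : IsCoprime (φ.map (Int.castRingHom ℂ)) (derivative (φ.map (Int.castRingHom ℂ)))) (B : ℝ) (hB : 1 ≤ B) :
    ∃ C : ℝ, 1 ≤ C ∧ ∀ (G : ℕ → ℕ → ℤ) (S : ℝ), 1 ≤ S → part n 0 G = φ →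
      (∀ i j, i + j ≤ n → |(G i j : ℝ)| ≤ B * S ^ (n - (i + j))) →
      ∀ w₀ w₁ : ℚ, (∀ j < n, (G (n - 1 - j) j : ℚ) = w₀ * (n - j : ℕ) * G (n - j) j + w₁ * (j + 1 : ℕ) * G (n - 1 - j) (j + 1)) →
      ∀ θ : ℝ, aeval θ φ = 0 → flexv n G θ = 0 →
      ∀ x y : ℤ, ev n (cst ℝ G) (x : ℝ) (y : ℝ) = 0 → |(x : ℝ)| ≤ C * S ^ 6 ∧ |(y : ℝ)| ≤ C * S ^ 6 := by
  have hφ0 : φ ≠ 0 := by
    rintro rfl
    rw [natDegree_zero] at hφ
    omega
  obtain ⟨A, C₁, hA, hC₁, hasy⟩ := asy n hn φ hφ hsep B hB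
  obtain ⟨D, W, hD, hW, hden⟩ := denom n (by omega) φ hφ hsep B (by linarith)
  obtain ⟨c, hc, hroth⟩ := roth_all φ hφ0 (irrat n (by omega) φ hφ hirr)
  obtain ⟨A0, hA0⟩ : ∃ A0 : ℝ, A0 = (n + 1) ^ 2 * B + 1 := ⟨_, rfl⟩
  have hA01 : 1 ≤ A0 := by
    rw [hA0]
    have : 0 ≤ ((n : ℝ) + 1) ^ 2 * B := by positivity
    linarith
  have hD1 : (1 : ℝ) ≤ |(D : ℝ)| := by
    have : (1 : ℤ) ≤ |D| := Int.one_le_abs hD
    exact_mod_cast this
  obtain ⟨K, hK⟩ : ∃ K : ℝ, K = A + 2 * W + 8 * |(D : ℝ)| ^ 5 * C₁ ^ 2 / c := ⟨_, rfl⟩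
  have hK0 : 0 ≤ 8 * |(D : ℝ)| ^ 5 * C₁ ^ 2 / c := by positivity
  have hK1 : 1 ≤ K := by linarith
  refine ⟨A0 * K, by nlinarith, ?_⟩
  intro G S hS hGφ hG w₀ w₁ hw θ hθ hfl x y hz
  have hS0 : 0 < S := by linarith
  have hS6 : S ≤ S ^ 6 := le_self_pow₀ hS (by norm_num)
  have hx : |(x : ℝ)| ≤ K * S ^ 6 := by
    by_contra hcon
    push Not at hcon
    have hAx : A * S ≤ |(x : ℝ)| := by
      have : A * S ≤ K * S ^ 6 := mul_le_mul (by linarith) hS6 hS0.le (by linarith)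
      linarith
    have hWx : 2 * (W * S) < |(x : ℝ)| := by
      have : (2 * W) * S ≤ K * S ^ 6 := mul_le_mul (by linarith) hS6 hS0.le (by linarith)
      linarith
    have hx0 : 0 < |(x : ℝ)| := by
      have : 0 < W * S := by positivity
      linarith
    obtain ⟨t, ht, h01, habs⟩ := hasy G S hS hGφ hG (fun t ht => conj n φ hirr G θ hθ hfl t ht) x y hz hAx
    have hG1 : ∀ j < n, |(G (n - 1 - j) j : ℝ)| ≤ B * S := by
      intro j hj
      have := hG (n - 1 - j) j (by omega)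
      rwa [show n - (n - 1 - j + j) = 1 by omega, pow_one] at this
    obtain ⟨⟨k₀, hk₀⟩, ⟨k₁, hk₁⟩, hw₀, hw₁⟩ := hden G S hS0.le hGφ hG1 w₀ w₁ hw
    have hk₀' : (D : ℝ) * w₀ = k₀ := by exact_mod_cast congrArg (fun q : ℚ => (q : ℝ)) hk₀
    have hk₁' : (D : ℝ) * w₁ = k₁ := by exact_mod_cast congrArg (fun q : ℚ => (q : ℝ)) hk₁
    rw [slope n (by omega) G φ hGφ w₀ w₁ hw t ht, mul_div_cancel_left₀ _ h01] at habs
    have hX1 : |((D * x + k₀ : ℤ) : ℝ)| ≤ 2 * |(D : ℝ)| * |(x : ℝ)| := by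
      push_cast
      rw [← hk₀', ← mul_add, abs_mul]
      have h1 : |(x : ℝ) + w₀| ≤ 2 * |(x : ℝ)| := by
        refine (abs_add_le _ _).trans ?_
        have : 0 ≤ W * S := by positivity
        linarith
      nlinarith
    have hX0 : D * x + k₀ ≠ 0 := by
      intro h
      have h1 : (D : ℝ) * ((x : ℝ) + w₀) = 0 := by
        rw [mul_add, hk₀']
        exact_mod_cast h
      have h2 : (x : ℝ) + w₀ = 0 := by
        rcases mul_eq_zero.1 h1 with h | h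
        · exfalso
          rw [h, abs_zero] at hD1
          linarith
        · exact h
      have h3 : (x : ℝ) = -w₀ := by linarith
      rw [h3, abs_neg] at hWx
      have : 0 < W * S := by positivity
      linarith
    have hY : |((D * x + k₀ : ℤ) : ℝ) * t - ((D * y + k₁ : ℤ) : ℝ)| ≤ |(D : ℝ)| * (C₁ * (S ^ 3 * (1 / (x : ℝ)) ^ 2)) := by
      have e : ((D * x + k₀ : ℤ) : ℝ) * t - ((D * y + k₁ : ℤ) : ℝ) = -((D : ℝ) * (y - t * x + (w₁ - w₀ * t))) := by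
        push_cast
        rw [← hk₀', ← hk₁']
        ring
      rw [e, abs_neg, abs_mul]
      exact mul_le_mul_of_nonneg_left habs (abs_nonneg _)
    have h1 := hroth t ht (D * y + k₁) (D * x + k₀) hX0
    have h2 : c ≤ (2 * |(D : ℝ)| * |(x : ℝ)|) ^ 3 * (|(D : ℝ)| * (C₁ * (S ^ 3 * (1 / (x : ℝ)) ^ 2))) ^ 2 := by
      refine h1.trans ?_
      rw [← sq_abs (((D * x + k₀ : ℤ) : ℝ) * t - ((D * y + k₁ : ℤ) : ℝ))]
      exact mul_le_mul (pow_le_pow_left₀ (abs_nonneg _) hX1 3) (pow_le_pow_left₀ (abs_nonneg _) hY 2) (by positivity) (by positivity)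
    have h3 : (2 * |(D : ℝ)| * |(x : ℝ)|) ^ 3 * (|(D : ℝ)| * (C₁ * (S ^ 3 * (1 / (x : ℝ)) ^ 2))) ^ 2 =
        8 * |(D : ℝ)| ^ 5 * C₁ ^ 2 * S ^ 6 / |(x : ℝ)| := by
      have e2 : (1 / (x : ℝ)) ^ 2 = 1 / |(x : ℝ)| ^ 2 := by rw [sq_abs, one_div, one_div, inv_pow]
      rw [e2]
      field_simp
      ring
    rw [h3, le_div_iff₀ hx0] at h2
    have h4 : |(x : ℝ)| ≤ 8 * |(D : ℝ)| ^ 5 * C₁ ^ 2 * S ^ 6 / c := by
      rw [le_div_iff₀ hc]
      linarith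
    have h5 : 8 * |(D : ℝ)| ^ 5 * C₁ ^ 2 * S ^ 6 / c = 8 * |(D : ℝ)| ^ 5 * C₁ ^ 2 / c * S ^ 6 := by ring
    have h6 : 8 * |(D : ℝ)| ^ 5 * C₁ ^ 2 / c * S ^ 6 ≤ K * S ^ 6 :=
      mul_le_mul_of_nonneg_right (by linarith) (by positivity)
    linarith
  have h0n : G 0 n ≠ 0 := by
    have h1 := part0_coeff n G φ hGφ (le_refl n)
    rw [Nat.sub_self] at h1
    rw [h1]
    have := leadingCoeff_ne_zero.2 hφ0
    rwa [leadingCoeff, hφ] at this
  have hy := not_vert n (by omega) B A0 hB (by rw [hA0]; linarith) G S hS hG h0n x y hz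
  have hS6' : 0 ≤ K * S ^ 6 := by positivity
  refine ⟨?_, ?_⟩
  · refine hx.trans ?_
    rw [mul_assoc]
    exact le_mul_of_one_le_left hS6' hA01
  · refine hy.trans ?_
    rw [mul_assoc]
    refine mul_le_mul_of_nonneg_left (max_le ?_ hx) (by linarith)
    calc S ≤ S ^ 6 := hS6
      _ ≤ K * S ^ 6 := le_mul_of_one_le_left (by positivity) hK1

end Pool.Agent.H99.UC
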