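import Pool.Agent.H99.UC.Win

/-! # [H99 UC KEY] The number of lines (direction, level) of the rich windows along a branch `y = Φ(x)` -/

namespace Pool.Agent.H99.UC

open Finset

theorem keys (lo hi X L δ Δ : ℝ) (m₀ N₀ : ℕ) (hm₀ : 1 ≤ m₀) (Φ J : ℝ → ℝ) (hX : 1 ≤ X) (hL : 0 < L) (hlX : hi - lo ≤ X)
    (hδ0 : 0 ≤ δ) (hδ : δ ≤ 1 / (16 * X)) (hΔ : 0 ≤ Δ) (hΦ : ∀ x ∈ Set.Icc lo hi, HasDerivAt Φ (J x) x)
    (hJ : ∀ x ∈ Set.Icc lo hi, ∀ y ∈ Set.Icc lo hi, |J x - J y| ≤ Δ)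
    (hcrit : ∀ a b : ℤ, 0 < a → ∃ κ : ℝ, 1 / (4 * X) < κ ∧ κ < 1 / (2 * X) ∧ ∃ Z : Finset ℝ, Z.card ≤ N₀ ∧
      ∀ x ∈ Set.Icc lo hi, (a * J x - b = κ ∨ a * J x - b = -κ) → x ∈ Z)
    (T : Finset (ℤ × ℤ)) (hT : ∀ P ∈ T, lo ≤ (P.1 : ℝ) ∧ (P.1 : ℝ) ≤ hi ∧ |(P.2 : ℝ) - Φ P.1| ≤ δ)
    (Ks : Finset ((ℤ × ℤ) × ℤ)) (p q : (ℤ × ℤ) × ℤ → ℤ × ℤ) (hk : ∀ k ∈ Ks, p k ∈ T ∧ q k ∈ T ∧ 0 < k.1.1 ∧
        IsCoprime k.1.1 k.1.2 ∧ (∃ g : ℤ, (m₀ : ℤ) ≤ g ∧ (q k).1 - (p k).1 = g * k.1.1 ∧ (q k).2 - (p k).2 = g * k.1.2) ∧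
        ((q k).1 : ℝ) - (p k).1 ≤ L ∧ k.1.1 * (p k).2 - k.1.2 * (p k).1 = k.2)
    (hdis : ∀ k ∈ Ks, ∀ l ∈ Ks, k ≠ l → (p k).1 ≤ (p l).1 → (q k).1 < (p l).1) :
    (Ks.card : ℝ) ≤ (N₀ + 1) * ((Δ + 4 * δ) * (L / m₀) ^ 2 + 1) := by
  classical
  have hX0 : 0 < X := by linarith
  have hm0 : (0 : ℝ) < m₀ := by exact_mod_cast hm₀
  have hm1 : (1 : ℝ) ≤ m₀ := by exact_mod_cast hm₀
  -- facts on one key
  have hfact : ∀ k ∈ Ks, (1 : ℝ) ≤ k.1.1 ∧ (k.1.1 : ℝ) ≤ ((q k).1 : ℝ) - (p k).1 ∧ (k.1.1 : ℝ) * m₀ ≤ L ∧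
      ∃ ξ ∈ Set.Icc lo hi, |(k.1.2 : ℝ) / k.1.1 - J ξ| ≤ 2 * δ := by
    intro k hkk
    obtain ⟨k1, k2, k3, k4, ⟨g, g1, g2, g3⟩, k6, k7⟩ := hk k hkk
    obtain ⟨t1, t2, t3⟩ := hT _ k1
    obtain ⟨s1, s2, s3⟩ := hT _ k2
    have a1 : (1 : ℝ) ≤ k.1.1 := by exact_mod_cast k3
    have gm : (m₀ : ℝ) ≤ g := by exact_mod_cast g1
    have hg : (1 : ℝ) ≤ g := hm1.trans gm
    have e1 : ((q k).1 : ℝ) - (p k).1 = g * k.1.1 := by exact_mod_cast g2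
    have e2 : ((q k).2 : ℝ) - (p k).2 = g * k.1.2 := by exact_mod_cast g3
    have hpos : (1 : ℝ) ≤ ((q k).1 : ℝ) - (p k).1 := by
      rw [e1]
      nlinarith
    refine ⟨a1, by rw [e1]; nlinarith, ?_, ?_⟩
    · have : (k.1.1 : ℝ) * m₀ ≤ g * k.1.1 := by nlinarith
      linarith
    · have hlt : ((p k).1 : ℝ) < (q k).1 := by linarith
      have hsub : ∀ z ∈ Set.Icc ((p k).1 : ℝ) (q k).1, z ∈ Set.Icc lo hi := fun z hz => ⟨t1.trans hz.1, hz.2.trans s2⟩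
      obtain ⟨ξ, hξ, hξ'⟩ := exists_hasDerivAt_eq_slope Φ J hlt
        (fun z hz => (hΦ z (hsub z hz)).continuousAt.continuousWithinAt)
        (fun z hz => hΦ z (hsub z (Set.Ioo_subset_Icc_self hz)))
      refine ⟨ξ, hsub ξ (Set.Ioo_subset_Icc_self hξ), ?_⟩
      have hd0 : 0 < ((q k).1 : ℝ) - (p k).1 := by linarith
      have e3 : (k.1.2 : ℝ) / k.1.1 = (((q k).2 : ℝ) - (p k).2) / (((q k).1 : ℝ) - (p k).1) := by
        rw [e1, e2]
        have : (g : ℝ) ≠ 0 := by linarith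
        have : (k.1.1 : ℝ) ≠ 0 := by linarith
        field_simp
      rw [e3, hξ', ← sub_div, abs_div, abs_of_pos hd0, div_le_iff₀ hd0]
      have e4 : ((q k).2 : ℝ) - (p k).2 - (Φ (q k).1 - Φ (p k).1) = (((q k).2 : ℝ) - Φ (q k).1) - (((p k).2 : ℝ) - Φ (p k).1) := by ring
      rw [e4]
      refine (abs_sub _ _).trans ?_
      nlinarith
  -- directions
  obtain ⟨V, hV⟩ : ∃ V : Finset (ℤ × ℤ), V = Ks.image Prod.fst := ⟨_, rfl⟩
  have hVc : (V.card : ℝ) ≤ (Δ + 4 * δ) * (L / m₀) ^ 2 + 1 := by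
    refine frac_card V (L / m₀) (Δ + 4 * δ) (by positivity) (by linarith) ?_ ?_
    · intro v hv
      rw [hV] at hv
      obtain ⟨k, hkk, rfl⟩ := mem_image.1 hv
      obtain ⟨k1, k2, k3, k4, _⟩ := hk k hkk
      obtain ⟨f1, f2, f3, _⟩ := hfact k hkk
      exact ⟨k3, by rw [le_div_iff₀ hm0]; exact f3, k4⟩
    · intro v hv v' hv'
      rw [hV] at hv hv'
      obtain ⟨k, hkk, rfl⟩ := mem_image.1 hv
      obtain ⟨k', hkk', rfl⟩ := mem_image.1 hv'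
      obtain ⟨_, _, _, ξ, hξ, h1⟩ := hfact k hkk
      obtain ⟨_, _, _, ξ', hξ', h2⟩ := hfact k' hkk'
      have h3 := hJ ξ hξ ξ' hξ'
      have e : (k.1.2 : ℝ) / k.1.1 - (k'.1.2 : ℝ) / k'.1.1 =
          ((k.1.2 : ℝ) / k.1.1 - J ξ) + (J ξ - J ξ') - ((k'.1.2 : ℝ) / k'.1.1 - J ξ') := by ring
      rw [e]
      calc _ ≤ |((k.1.2 : ℝ) / k.1.1 - J ξ) + (J ξ - J ξ')| + |(k'.1.2 : ℝ) / k'.1.1 - J ξ'| := abs_sub _ _
        _ ≤ (|(k.1.2 : ℝ) / k.1.1 - J ξ| + |J ξ - J ξ'|) + |(k'.1.2 : ℝ) / k'.1.1 - J ξ'| := by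
            gcongr
            exact abs_add_le _ _
        _ ≤ Δ + 4 * δ := by linarith
  -- levels of one direction
  have hfib : ∀ v ∈ V, (Ks.filter fun k => k.1 = v).card ≤ N₀ + 1 := by
    intro v hv
    rw [hV] at hv
    obtain ⟨k₀, hk₀, hkv⟩ := mem_image.1 hv
    have hv0 : 0 < v.1 := by
      rw [← hkv]
      exact (hk k₀ hk₀).2.2.1
    have hv0' : (0 : ℝ) < v.1 := by exact_mod_cast hv0
    have hvX : (v.1 : ℝ) ≤ X := by
      obtain ⟨f1, f2, f3, _⟩ := hfact k₀ hk₀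
      obtain ⟨k1, k2, _⟩ := hk k₀ hk₀
      obtain ⟨t1, t2, t3⟩ := hT _ k1
      obtain ⟨s1, s2, s3⟩ := hT _ k2
      rw [← hkv]
      linarith
    obtain ⟨κ, hκ1, hκ2, Z, hZc, hZ⟩ := hcrit v.1 v.2 hv0
    have hκ0 : 0 < κ := lt_trans (by positivity) hκ1
    obtain ⟨Lv, hLv⟩ : ∃ Lv : Finset ℤ, Lv = (Ks.filter fun k => k.1 = v).image Prod.snd := ⟨_, rfl⟩
    have hLc : Lv.card = (Ks.filter fun k => k.1 = v).card := by
      rw [hLv]
      refine card_image_of_injOn ?_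
      intro k hk1 k' hk1' h
      rw [mem_coe, mem_filter] at hk1 hk1'
      exact Prod.ext (hk1.2.trans hk1'.2.symm) h
    have hmem : ∀ l ∈ Lv, (v, l) ∈ Ks := by
      intro l hl
      rw [hLv] at hl
      obtain ⟨k, hk1, rfl⟩ := mem_image.1 hl
      rw [mem_filter] at hk1
      have : k = (v, k.2) := Prod.ext hk1.2 rfl
      rw [← this]
      exact hk1.1
    have hη : (v.1 : ℝ) * δ ≤ 1 / 16 := by
      calc (v.1 : ℝ) * δ ≤ X * (1 / (16 * X)) := mul_le_mul hvX hδ hδ0 hX0.le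
        _ = 1 / 16 := by field_simp
    have hmain := rolle_levels (fun x => (v.1 : ℝ) * Φ x - v.2 * x) (fun x => (v.1 : ℝ) * J x - v.2) lo hi κ (v.1 * δ)
      (fun x hx => by
        have h1 := (hΦ x hx).const_mul (v.1 : ℝ)
        have h2 := (hasDerivAt_id x).const_mul (v.2 : ℝ)
        rw [mul_one] at h2
        exact h1.sub h2) Z (fun x hx h => hZ x hx h) (fun l => ((p (v, l)).1 : ℝ)) (fun l => ((q (v, l)).1 : ℝ))
      (by
        have h1 : κ * (hi - lo) ≤ κ * X := mul_le_mul_of_nonneg_left hlX hκ0.le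
        have h2 : κ * X < 1 / 2 := by
          have h3 := mul_lt_mul_of_pos_right hκ2 hX0
          have e : 1 / (2 * X) * X = 1 / 2 := by field_simp
          rwa [e] at h3
        linarith) hκ0 Lv ?_ ?_
    · rw [← hLc]
      omega
    · intro l hl
      have hkk := hmem l hl
      obtain ⟨k1, k2, k3, k4, ⟨g, g1, g2, g3⟩, k6, k7⟩ := hk _ hkk
      obtain ⟨f1, f2, f3, _⟩ := hfact _ hkk
      obtain ⟨t1, t2, t3⟩ := hT _ k1
      obtain ⟨s1, s2, s3⟩ := hT _ k2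
      simp only at k7 g2 g3 f1 f2
      have e0 : (v.1 : ℝ) * (p (v, l)).2 - v.2 * (p (v, l)).1 = l := by exact_mod_cast k7
      have e0' : (v.1 : ℝ) * (q (v, l)).2 - v.2 * (q (v, l)).1 = l := by
        have : v.1 * (q (v, l)).2 - v.2 * (q (v, l)).1 = l := by
          have h1 : (q (v, l)).1 = (p (v, l)).1 + g * v.1 := by linarith
          have h2 : (q (v, l)).2 = (p (v, l)).2 + g * v.2 := by linarith
          rw [h1, h2]
          linear_combination k7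
        exact_mod_cast this
      refine ⟨t1, by linarith, s2, ?_, ?_, ?_⟩
      · have e : (v.1 : ℝ) * Φ (p (v, l)).1 - v.2 * (p (v, l)).1 - l = v.1 * -((p (v, l)).2 - Φ (p (v, l)).1) := by
          rw [← e0]
          ring
        show |(v.1 : ℝ) * Φ (p (v, l)).1 - v.2 * (p (v, l)).1 - l| ≤ v.1 * δ
        rw [e, abs_mul, abs_neg, abs_of_pos hv0']
        exact mul_le_mul_of_nonneg_left t3 hv0'.le
      · have e : (v.1 : ℝ) * Φ (q (v, l)).1 - v.2 * (q (v, l)).1 - l = v.1 * -((q (v, l)).2 - Φ (q (v, l)).1) := by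
          rw [← e0']
          ring
        show |(v.1 : ℝ) * Φ (q (v, l)).1 - v.2 * (q (v, l)).1 - l| ≤ v.1 * δ
        rw [e, abs_mul, abs_neg, abs_of_pos hv0']
        exact mul_le_mul_of_nonneg_left s3 hv0'.le
      · show 2 * (v.1 * δ) < κ * (((q (v, l)).1 : ℝ) - (p (v, l)).1)
        have h1 : 2 * (v.1 * δ) ≤ v.1 * (1 / (8 * X)) := by
          have : v.1 * δ ≤ v.1 * (1 / (16 * X)) := mul_le_mul_of_nonneg_left hδ hv0'.le
          have e : (1 : ℝ) / (8 * X) = 2 * (1 / (16 * X)) := by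
            field_simp
            norm_num
          rw [e]
          linarith
        have h2 : (1 : ℝ) / (8 * X) < κ := by
          refine lt_of_le_of_lt ?_ hκ1
          apply one_div_le_one_div_of_le (by positivity)
          linarith
        calc 2 * (v.1 * δ) ≤ v.1 * (1 / (8 * X)) := h1
          _ < v.1 * κ := mul_lt_mul_of_pos_left h2 hv0'
          _ ≤ (((q (v, l)).1 : ℝ) - (p (v, l)).1) * κ := mul_le_mul_of_nonneg_right f2 hκ0.le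
          _ = _ := mul_comm _ _
    · intro l hl m hm hlm hpl
      have h1 := hdis _ (hmem l hl) _ (hmem m hm) (fun h => hlm (congrArg Prod.snd h)) (by exact_mod_cast hpl)
      show ((q (v, l)).1 : ℝ) < (p (v, m)).1
      exact_mod_cast h1
  have hcard : Ks.card ≤ (N₀ + 1) * (Ks.image Prod.fst).card :=
    Finset.card_le_mul_card_image _ (N₀ + 1) fun v hv => hfib v (by rw [hV]; exact hv)
  rw [← hV] at hcard
  have h1 : (Ks.card : ℝ) ≤ (((N₀ + 1) * V.card : ℕ) : ℝ) := by exact_mod_cast hcard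
  push_cast at h1
  have h2 : (0 : ℝ) ≤ (N₀ : ℝ) + 1 := by positivity
  exact h1.trans (mul_le_mul_of_nonneg_left hVc h2)

end Pool.Agent.H99.UC
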