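import Pool.Agent.H6.AB.Three

/-! # [H99 UC RSL] The number of places on the curve `Φ(u,t) = 0` where `a (t Φ_t + u Φ_u) = β Φ_t`

`crit_card`: at most `2 n²` values of `u`, if `φ = Φ(0,·)` has degree `n`, is squarefree and `φ(β/a) ≠ 0`: resultant in `t`, at `u = 0`. -/

namespace Pool.Agent.H99.UC

open Polynomial Pool.Agent.H6.AB

theorem det_deg (m d : ℕ) (M : Matrix (Fin m) (Fin m) ℝ[X]) (hM : ∀ i j, (M i j).natDegree ≤ d) :
    M.det.natDegree ≤ m * d := by
  rw [Matrix.det_apply]
  refine natDegree_sum_le_of_forall_le _ _ fun σ _ => ?_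
  have h1 : (Equiv.Perm.sign σ • ∏ i, M (σ i) i).natDegree ≤ (∏ i, M (σ i) i).natDegree := by
    rcases Int.units_eq_one_or (Equiv.Perm.sign σ) with h | h
    · rw [h, one_smul]
    · rw [h, Units.neg_smul, one_smul, natDegree_neg]
  refine h1.trans ((natDegree_prod_le _ _).trans ?_)
  refine (Finset.sum_le_card_nsmul _ _ d fun i _ => hM _ _).trans ?_
  simp

theorem res_deg (m d : ℕ) (f g : ℝ[X][X]) (hf : ∀ i, (f.coeff i).natDegree ≤ d) (hg : ∀ i, (g.coeff i).natDegree ≤ d) :
    (resultant f g m m).natDegree ≤ (m + m) * d := by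
  unfold resultant
  refine det_deg _ d _ fun i j => ?_
  unfold sylvester
  rw [Matrix.of_apply]
  induction j using Fin.addCases with
  | left j =>
    rw [Fin.addCases_left]
    split_ifs
    · exact hg _
    · simp
  | right j =>
    rw [Fin.addCases_right]
    split_ifs
    · exact hf _
    · simp

/-- `ΣΣ c k j u^k t^j` as a polynomial in `t` over `ℝ[u]` -/
noncomputable def P2 (n : ℕ) (c : ℕ → ℕ → ℝ) : ℝ[X][X] :=
  ∑ k ∈ Finset.range (n + 1), ∑ j ∈ Finset.range (n + 1), monomial j (C (c k j) * X ^ k)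

theorem P2_coeff (n : ℕ) (c : ℕ → ℕ → ℝ) (i : ℕ) : (P2 n c).coeff i =
    if i ≤ n then ∑ k ∈ Finset.range (n + 1), C (c k i) * X ^ k else 0 := by
  unfold P2
  rw [finsetSum_coeff]
  by_cases hi : i ≤ n
  · rw [if_pos hi]
    refine Finset.sum_congr rfl fun k _ => ?_
    rw [finsetSum_coeff, Finset.sum_eq_single i]
    · rw [coeff_monomial, if_pos rfl]
    · intro j _ hj
      rw [coeff_monomial, if_neg hj]
    · intro h
      exact absurd (Finset.mem_range.2 (by omega)) h
  · rw [if_neg hi]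
    refine Finset.sum_eq_zero fun k _ => ?_
    rw [finsetSum_coeff]
    refine Finset.sum_eq_zero fun j hj => ?_
    have := Finset.mem_range.1 hj
    rw [coeff_monomial, if_neg (by omega)]

theorem P2_cdeg (n : ℕ) (c : ℕ → ℕ → ℝ) (i : ℕ) : ((P2 n c).coeff i).natDegree ≤ n := by
  rw [P2_coeff]
  split_ifs
  · refine natDegree_sum_le_of_forall_le _ _ fun k hk => ?_
    refine (natDegree_C_mul_X_pow_le _ _).trans ?_
    have := Finset.mem_range.1 hk
    omega
  · simp

theorem P2_deg (n : ℕ) (c : ℕ → ℕ → ℝ) : (P2 n c).natDegree ≤ n := by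
  rw [natDegree_le_iff_coeff_eq_zero]
  intro i hi
  rw [P2_coeff, if_neg (by omega)]

theorem P2_eval (n : ℕ) (c : ℕ → ℕ → ℝ) (u t : ℝ) : ((P2 n c).map (evalRingHom u)).eval t =
    ∑ k ∈ Finset.range (n + 1), ∑ j ∈ Finset.range (n + 1), c k j * (u ^ k * t ^ j) := by
  unfold P2
  rw [Polynomial.map_sum, eval_finsetSum]
  refine Finset.sum_congr rfl fun k _ => ?_
  rw [Polynomial.map_sum, eval_finsetSum]
  refine Finset.sum_congr rfl fun j _ => ?_
  simp [mul_assoc]

theorem P2_eval_der (n : ℕ) (b : ℕ → ℕ → ℝ) (u t : ℝ) :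
    (derivative ((P2 n b).map (evalRingHom u))).eval t = Pht n b u t := by
  have h1 := ((P2 n b).map (evalRingHom u)).hasDerivAt t
  have h2 := hasDerivAt_Ph n b u t
  have e : (fun t => eval t ((P2 n b).map (evalRingHom u))) = fun t => Ph n b u t := by
    funext t
    rw [P2_eval]
    rfl
  rw [e] at h1
  exact h1.unique h2

theorem crit_card (n : ℕ) (hn : 1 ≤ n) (b : ℕ → ℕ → ℝ) (hb : ∀ k j, n < k + j → b k j = 0) (hb0 : b 0 n ≠ 0)
    (φ : ℝ[X]) (hφ : φ = (P2 n b).map (evalRingHom 0)) (hsep : IsCoprime φ (derivative φ)) (a β : ℝ) (ha : a ≠ 0)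
    (hβ : φ.eval (β / a) ≠ 0) : ∃ Z : Finset ℝ, Z.card ≤ (n + n) * n ∧ ∀ u t : ℝ, Ph n b u t = 0 →
      a * (t * Pht n b u t + u * Phu n b u t) - β * Pht n b u t = 0 → u ∈ Z := by
  classical
  -- the second polynomial
  obtain ⟨Kp, hKp⟩ : ∃ Kp : ℝ[X][X], Kp = C (C a) * (X * derivative (P2 n b) + P2 n (fun k j => k * b k j)) -
      C (C β) * derivative (P2 n b) := ⟨_, rfl⟩
  have hKcoeff : ∀ i, Kp.coeff i = C a * ((P2 n b).coeff i * (i : ℝ[X]) + (P2 n (fun k j => k * b k j)).coeff i) -
      C β * ((P2 n b).coeff (i + 1) * ((i : ℝ[X]) + 1)) := by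
    intro i
    rw [hKp, coeff_sub, coeff_C_mul, coeff_C_mul, coeff_add, coeff_derivative]
    congr 3
    rcases Nat.eq_zero_or_pos i with rfl | hi
    · simp
    · obtain ⟨m, rfl⟩ : ∃ m, i = m + 1 := ⟨i - 1, by omega⟩
      rw [coeff_X_mul, coeff_derivative]
      push_cast
      ring
  have hKdeg : Kp.natDegree ≤ n := by
    rw [natDegree_le_iff_coeff_eq_zero]
    intro i hi
    rw [hKcoeff, P2_coeff, P2_coeff, P2_coeff, if_neg (by omega), if_neg (by omega), if_neg (by omega)]
    ring
  have hKc : ∀ i, (Kp.coeff i).natDegree ≤ n := by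
    intro i
    rw [hKcoeff]
    have hc : ∀ (q : ℝ[X]) (m : ℕ), q.natDegree ≤ n → (q * ((m : ℝ[X]))).natDegree ≤ n := by
      intro q m hq
      have e : ((m : ℕ) : ℝ[X]) = C (m : ℝ) := by simp
      rw [e]
      exact (natDegree_mul_C_le _ _).trans hq
    refine (natDegree_sub_le _ _).trans (max_le ?_ ?_)
    · refine (natDegree_C_mul_le _ _).trans ((natDegree_add_le _ _).trans (max_le ?_ ?_))
      · exact hc _ _ (P2_cdeg _ _ _)
      · exact P2_cdeg _ _ _
    · refine (natDegree_C_mul_le _ _).trans ?_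
      have e : ((i : ℝ[X]) + 1) = ((i + 1 : ℕ) : ℝ[X]) := by push_cast; ring
      rw [e]
      exact hc _ _ (P2_cdeg _ _ _)
  obtain ⟨R, hR⟩ : ∃ R : ℝ[X], R = resultant (P2 n b) Kp n n := ⟨_, rfl⟩
  have hRdeg : R.natDegree ≤ (n + n) * n := by
    rw [hR]
    exact res_deg n n _ _ (P2_cdeg n b) hKc
  have hReval : ∀ u, R.eval u = resultant ((P2 n b).map (evalRingHom u)) (Kp.map (evalRingHom u)) n n := by
    intro u
    rw [hR, resultant_map_map]
    rfl
  -- `R(0) ≠ 0`
  have hcoef : ∀ i, φ.coeff i = if i ≤ n then b 0 i else 0 := by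
    intro i
    rw [hφ, coeff_map, P2_coeff]
    split_ifs with hi
    · rw [map_sum, Finset.sum_eq_single 0]
      · simp
      · intro k _ hk
        simp [hk]
      · intro h
        exact absurd (Finset.mem_range.2 (by omega)) h
    · simp
  have hφd : φ.natDegree = n := by
    refine le_antisymm ?_ (le_natDegree_of_ne_zero (by rw [hcoef, if_pos le_rfl]; exact hb0))
    rw [hφ]
    exact natDegree_map_le.trans (P2_deg n b)
  have hK0 : Kp.map (evalRingHom 0) = (C a * X - C β) * derivative φ := by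
    have h1 : (P2 n (fun k j => k * b k j)).map (evalRingHom (0 : ℝ)) = 0 := by
      ext i
      rw [coeff_map, P2_coeff, coeff_zero]
      split_ifs
      · rw [map_sum]
        refine Finset.sum_eq_zero fun k _ => ?_
        rcases Nat.eq_zero_or_pos k with rfl | hk
        · simp
        · simp [hk.ne']
      · simp
    rw [hKp, Polynomial.map_sub, Polynomial.map_mul, Polynomial.map_mul, Polynomial.map_add, Polynomial.map_mul, h1, map_C, map_C,
      map_X, ← derivative_map, ← hφ]
    simp only [coe_evalRingHom, eval_C, add_zero]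
    ring
  have hR0 : R.eval 0 ≠ 0 := by
    rw [hReval, ← hφ, hK0]
    have hlin : C a * X - C β = C a * (X - C (β / a)) := by
      rw [mul_sub, ← C_mul, mul_div_cancel₀ _ ha]
    have hcop1 : IsCoprime φ (X - C (β / a)) := by
      refine IsCoprime.symm ?_
      rw [(irreducible_X_sub_C (β / a)).coprime_iff_not_dvd, dvd_iff_isRoot]
      exact hβ
    have hu : IsUnit (C a : ℝ[X]) := isUnit_C.2 (isUnit_iff_ne_zero.2 ha)
    have hcop : IsCoprime φ ((C a * X - C β) * derivative φ) := by
      refine IsCoprime.mul_right ?_ hsep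
      rw [hlin]
      exact (isCoprime_mul_unit_left_right hu φ _).2 hcop1
    have hdd : (derivative φ).natDegree = n - 1 := by
      rw [natDegree_eq_of_degree_eq_some (degree_derivative_eq _ (by omega)), hφd]
    have hφ1 : φ ≠ 0 := by
      rintro h0
      rw [h0, natDegree_zero] at hφd
      omega
    have hd0 : derivative φ ≠ 0 := by
      intro h0
      have h1 : (derivative φ).degree = ((n - 1 : ℕ) : WithBot ℕ) := by
        rw [degree_derivative_eq _ (by omega), hφd]
      rw [h0, degree_zero] at h1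
      exact absurd h1 (by simp)
    have hdeg : ((C a * X - C β) * derivative φ).natDegree = n := by
      rw [hlin, mul_assoc, natDegree_C_mul ha, natDegree_mul (X_sub_C_ne_zero _) hd0, natDegree_X_sub_C, hdd]
      omega
    have h4 := resultant_ne_zero _ _ hcop
    rwa [hφd, hdeg] at h4
  have hRne : R ≠ 0 := by
    intro h0
    apply hR0
    rw [h0, eval_zero]
  refine ⟨R.roots.toFinset, (Multiset.toFinset_card_le _).trans ((card_roots' _).trans hRdeg), ?_⟩
  intro u t h1 h2
  rw [Multiset.mem_toFinset, mem_roots hRne, IsRoot.def, hReval]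
  obtain ⟨p, q, _, _, hpq⟩ := exists_mul_add_mul_eq_C_resultant (m := n) (n := n) ((P2 n b).map (evalRingHom u)) (Kp.map (evalRingHom u))
    (natDegree_map_le.trans (P2_deg n b)) (natDegree_map_le.trans hKdeg) (Or.inl (by omega))
  have h3 := congrArg (eval t) hpq
  rw [eval_add, eval_mul, eval_mul, eval_C] at h3
  have e1 : eval t ((P2 n b).map (evalRingHom u)) = 0 := by
    rw [P2_eval]
    exact h1
  have e2 : eval t (Kp.map (evalRingHom u)) = 0 := by
    rw [hKp, Polynomial.map_sub, Polynomial.map_mul, Polynomial.map_mul, Polynomial.map_add, Polynomial.map_mul, map_C, map_C,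
      map_X, ← derivative_map]
    simp only [coe_evalRingHom, eval_C, eval_sub, eval_mul, eval_add, eval_X]
    rw [P2_eval_der, P2_eval]
    rw [← h2]
    congr 2
    congr 1
    unfold Phu
    rw [Finset.mul_sum]
    refine Finset.sum_congr rfl fun k _ => ?_
    rw [Finset.mul_sum]
    refine Finset.sum_congr rfl fun j _ => ?_
    rcases Nat.eq_zero_or_pos k with rfl | hk
    · simp
    · obtain ⟨m, rfl⟩ : ∃ m, k = m + 1 := ⟨k - 1, by omega⟩
      rw [Nat.add_sub_cancel, pow_succ]
      ring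
  rw [e1, e2, zero_mul, zero_mul, add_zero] at h3
  exact h3.symm

end Pool.Agent.H99.UC
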