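import Pool.Agent.H6.AC.Str3
import Pool.Agent.H8.AA.Cls
import Pool.Agent.H99.UC.Rsl
import Pool.Agent.H99.UC.Bra
import Pool.Agent.H99.UC.Key

/-! # [H99 UC CEL] The points near one branch at one scale: at most `C S^(5/6)` -/

namespace Pool.Agent.H99.UC

open Polynomial Pool.Agent.H8.AA Pool.Agent.H6.AB

/-- the coefficients of `Φ` -/
noncomputable def bs5 (n : ℕ) (e : ℕ → ℕ → ℤ) (S : ℝ) (k j : ℕ) : ℝ :=
  if k + j ≤ n then (e (n - k - j) j : ℝ) / S ^ k else 0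

private theorem bs_inner (n : ℕ) (e : ℕ → ℕ → ℤ) (S : ℝ) {k : ℕ} (hk : k ≤ n) (g : ℕ → ℝ) :
    ∑ j ∈ Finset.range (n + 1), bs5 n e S k j * g j =
      ∑ j ∈ Finset.range (n - k + 1), (e (n - k - j) j : ℝ) / S ^ k * g j := by
  symm
  apply Finset.sum_subset_zero_on_sdiff
  · intro j hj
    rw [Finset.mem_range] at hj ⊢
    omega
  · intro j hj
    rw [Finset.mem_sdiff, Finset.mem_range, Finset.mem_range] at hj
    have : ¬ k + j ≤ n := by omega
    rw [bs5, if_neg this, zero_mul]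
  · intro j hj
    rw [Finset.mem_range] at hj
    have : k + j ≤ n := by omega
    rw [bs5, if_pos this]

private theorem Ph_bs (n : ℕ) (e : ℕ → ℕ → ℤ) {S : ℝ} (hS : S ≠ 0) (u t : ℝ) :
    Ph n (bs5 n e S) (S * u) t =
      ∑ k ∈ Finset.range (n + 1), u ^ (n - k) * aeval t (fm e k) := by
  unfold Ph
  rw [← Finset.sum_range_reflect]
  apply Finset.sum_congr rfl
  intro k hk
  rw [Finset.mem_range] at hk
  have h1 : n + 1 - 1 - k = n - k := by omega
  have h2 : n - (n - k) = k := by omega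
  rw [h1, bs_inner n e S (by omega) (fun j => (S * u) ^ (n - k) * t ^ j), h2, fm_aeval,
    Finset.mul_sum]
  apply Finset.sum_congr rfl
  intro j _
  rw [mul_pow]
  have : S ^ (n - k) ≠ 0 := pow_ne_zero _ hS
  field_simp

theorem Ph5_zero (n : ℕ) (e : ℕ → ℕ → ℤ) {S : ℝ} (hS : S ≠ 0) (t : ℝ) :
    Ph n (bs5 n e S) 0 t = aeval t (fm e n) := by
  have h := Ph_bs n e hS 0 t
  rw [mul_zero] at h
  rw [h, Finset.sum_eq_single n]
  · simp
  · intro k hk hkn
    rw [Finset.mem_range] at hk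
    rw [zero_pow (by omega), zero_mul]
  · intro h
    exact absurd (Finset.mem_range.2 (Nat.lt_succ_self n)) h

theorem Pht5_zero (n : ℕ) (e : ℕ → ℕ → ℤ) (S t : ℝ) :
    Pht n (bs5 n e S) 0 t = aeval t (derivative (fm e n)) := by
  unfold Pht
  rw [Finset.sum_eq_single 0]
  · rw [bs_inner n e S (Nat.zero_le n) (fun j => j * 0 ^ 0 * t ^ (j - 1)), fm_daeval]
    simp
  · intro k _ hk
    apply Finset.sum_eq_zero
    intro j _
    rw [zero_pow hk]
    ring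
  · intro h
    exact absurd (Finset.mem_range.2 (Nat.succ_pos n)) h

/-- `F(x,y) = x^n Φ(S/x, y/x)` -/
theorem ev_Ph5 (n : ℕ) (e : ℕ → ℕ → ℤ) {S : ℝ} (hS : S ≠ 0) (x y : ℤ) (hx : x ≠ 0) :
    (ev n e x y : ℝ) = (x : ℝ) ^ n * Ph n (bs5 n e S) (S / x) ((y : ℝ) / x) := by
  rw [ev_eq n e x y hx, ← Ph_bs n e hS (1 / (x : ℝ)) ((y : ℝ) / x), mul_one_div]

theorem bs5_le (n : ℕ) (e : ℕ → ℕ → ℤ) {S B : ℝ} (hS : 0 < S) (hB : 0 ≤ B)
    (hb : ∀ a b, a + b ≤ n → |(e a b : ℝ)| ≤ B * S ^ (n - (a + b))) : ∀ k ≤ n, ∀ j ≤ n, |bs5 n e S k j| ≤ B := by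
  intro k _ j _
  unfold bs5
  split_ifs with h
  · rw [abs_div, abs_of_pos (pow_pos hS k), div_le_iff₀ (pow_pos hS k)]
    have h3 := hb (n - k - j) j (by omega)
    have h4 : n - (n - k - j + j) = k := by omega
    rwa [h4] at h3
  · rw [abs_zero]
    exact hB

theorem P2_bs5 (n : ℕ) (e : ℕ → ℕ → ℤ) (S : ℝ) :
    (P2 n (bs5 n e S)).map (evalRingHom 0) = (fm e n).map (Int.castRingHom ℝ) := by
  ext i
  rw [coeff_map, P2_coeff, coeff_map, fm_coeff]
  by_cases hi : i ≤ n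
  · rw [if_pos hi, if_pos hi, map_sum, Finset.sum_eq_single 0]
    · unfold bs5
      rw [if_pos (by omega)]
      simp
    · intro k _ hk
      simp [hk]
    · intro h
      exact absurd (Finset.mem_range.2 (by omega)) h
  · rw [if_neg hi, if_neg hi]
    simp

theorem fm_sep (n : ℕ) (e : ℕ → ℕ → ℤ) (h : Ir n e) :
    IsCoprime ((fm e n).map (Int.castRingHom ℝ)) (derivative ((fm e n).map (Int.castRingHom ℝ))) := by
  have h1 : ((fm e n).map (Int.castRingHom ℚ)).Separable := h.2.separable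
  have h2 := h1.map (f := algebraMap ℚ ℝ)
  rw [Polynomial.map_map] at h2
  have e1 : (algebraMap ℚ ℝ).comp (Int.castRingHom ℚ) = Int.castRingHom ℝ := RingHom.ext_int _ _
  rw [e1] at h2
  exact h2

/-- the places where the slope takes given values -/
theorem crit5 (n : ℕ) (hn : 1 ≤ n) (e : ℕ → ℕ → ℤ) (h : Ir n e) (S X : ℝ) (hX : 0 < X) (J : ℝ → ℝ) (I : Set ℝ)
    (hI : ∀ x ∈ I, x ≠ 0) (hS : S ≠ 0) (hJ : ∀ x ∈ I, ∃ t, Ph n (bs5 n e S) (S / x) t = 0 ∧
      t * Pht n (bs5 n e S) (S / x) t + S / x * Phu n (bs5 n e S) (S / x) t = J x * Pht n (bs5 n e S) (S / x) t)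
    (a b : ℤ) (ha : 0 < a) : ∃ κ : ℝ, 1 / (4 * X) < κ ∧ κ < 1 / (2 * X) ∧ ∃ Z : Finset ℝ, Z.card ≤ 4 * n ^ 2 ∧
      ∀ x ∈ I, (a * J x - b = κ ∨ a * J x - b = -κ) → x ∈ Z := by
  classical
  have ha' : (a : ℝ) ≠ 0 := by exact_mod_cast ha.ne'
  obtain ⟨φ, hφ⟩ : ∃ φ : ℝ[X], φ = (fm e n).map (Int.castRingHom ℝ) := ⟨_, rfl⟩
  have hφ0 : φ ≠ 0 := by
    intro h0
    have h1 : φ.coeff n = (e 0 n : ℝ) := by
      rw [hφ, coeff_map, fm_coeff, if_pos le_rfl, Nat.sub_self]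
      rfl
    rw [h0, coeff_zero] at h1
    exact h.1 (by exact_mod_cast h1.symm)
  have hfin : (φ.rootSet ℝ).Finite := rootSet_finite φ ℝ
  have hroot : ∀ z : ℝ, φ.eval z = 0 → z ∈ φ.rootSet ℝ := by
    intro z hz
    rw [mem_rootSet]
    exact ⟨hφ0, by rwa [aeval_def, ← eval_map, Algebra.algebraMap_self, Polynomial.map_id]⟩
  have hf1 : ((fun κ : ℝ => ((b : ℝ) + κ) / a) ⁻¹' (φ.rootSet ℝ)).Finite := by
    refine hfin.preimage (Set.injOn_of_injective ?_)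
    intro x y hxy
    have hxy' : ((b : ℝ) + x) / a = ((b : ℝ) + y) / a := hxy
    field_simp at hxy'
    linarith
  have hf2 : ((fun κ : ℝ => ((b : ℝ) - κ) / a) ⁻¹' (φ.rootSet ℝ)).Finite := by
    refine hfin.preimage (Set.injOn_of_injective ?_)
    intro x y hxy
    have hxy' : ((b : ℝ) - x) / a = ((b : ℝ) - y) / a := hxy
    field_simp at hxy'
    linarith
  have hlt : 1 / (4 * X) < 1 / (2 * X) := by
    apply one_div_lt_one_div_of_lt (by positivity)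
    linarith
  obtain ⟨κ, hκ, hκn⟩ := ((Set.Ioo_infinite hlt).diff (hf1.union hf2)).nonempty
  have hn1 : φ.eval (((b : ℝ) + κ) / a) ≠ 0 := fun h0 => hκn (Or.inl (hroot _ h0))
  have hn2 : φ.eval (((b : ℝ) - κ) / a) ≠ 0 := fun h0 => hκn (Or.inr (hroot _ h0))
  have hb : ∀ k j, n < k + j → bs5 n e S k j = 0 := by
    intro k j hkj
    unfold bs5
    rw [if_neg (by omega)]
  have hb0 : bs5 n e S 0 n ≠ 0 := by
    unfold bs5
    rw [if_pos (by omega)]
    simpa using h.1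
  have hφe : φ = (P2 n (bs5 n e S)).map (evalRingHom 0) := by rw [hφ, P2_bs5]
  have hsep : IsCoprime φ (derivative φ) := by
    rw [hφ]
    exact fm_sep n e h
  obtain ⟨Z1, hZ1c, hZ1⟩ := crit_card n hn _ hb hb0 φ hφe hsep a ((b : ℝ) + κ) ha' hn1
  obtain ⟨Z2, hZ2c, hZ2⟩ := crit_card n hn _ hb hb0 φ hφe hsep a ((b : ℝ) - κ) ha' hn2
  refine ⟨κ, hκ.1, hκ.2, (Z1 ∪ Z2).image fun u => S / u, ?_, ?_⟩
  · refine Finset.card_image_le.trans ((Finset.card_union_le _ _).trans ?_)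
    calc Z1.card + Z2.card ≤ (n + n) * n + (n + n) * n := Nat.add_le_add hZ1c hZ2c
      _ = 4 * n ^ 2 := by ring
  · intro x hx hor
    obtain ⟨t, ht1, ht2⟩ := hJ x hx
    rw [Finset.mem_image]
    refine ⟨S / x, ?_, ?_⟩
    · rw [Finset.mem_union]
      rcases hor with h1 | h1
      · left
        refine hZ1 _ t ht1 ?_
        rw [ht2]
        linear_combination (Pht n (bs5 n e S) (S / x) t) * h1
      · right
        refine hZ2 _ t ht1 ?_
        rw [ht2]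
        linear_combination (Pht n (bs5 n e S) (S / x) t) * h1
    · have := hI x hx
      field_simp

end Pool.Agent.H99.UC
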