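import Pool.Agent.H99.UC.Cel

/-! # [H99 UC CEL2] One branch, one scale: `cell` -/

namespace Pool.Agent.H99.UC

open Polynomial Pool.Agent.H8.AA Pool.Agent.H6.AB

/-- points on a line with rational direction are collinear -/
theorem on_line {a b l : ℤ} (ha : a ≠ 0) {P Q R : ℤ × ℤ} (hP : a * P.2 - b * P.1 = l) (hQ : a * Q.2 - b * Q.1 = l)
    (hR : a * R.2 - b * R.1 = l) : (Q.1 - P.1) * (R.2 - P.2) = (R.1 - P.1) * (Q.2 - P.2) := by
  apply mul_left_cancel₀ ha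
  linear_combination (Q.1 - P.1) * (hR - hP) - (R.1 - P.1) * (hQ - hP)

theorem cell (n : ℕ) (hn : 4 ≤ n) (B c₀ c θ : ℝ) (hB : 1 ≤ B) (hc₀ : 0 < c₀) (hc : 0 < c) (hθ : 0 < θ) (hθ1 : θ ≤ 1) :
    ∃ C K : ℝ, 0 ≤ C ∧ 1 ≤ K ∧ ∀ (e : ℕ → ℕ → ℤ) (S H : ℕ), 1 ≤ S → 1 ≤ H → H ^ 2 ≤ S ^ n →
    (∀ a b, a + b ≤ n → |(e a b : ℝ)| ≤ B * (S : ℝ) ^ (n - (a + b))) → Ir n e → Gd n c₀ e →
    ∀ r : ℝ, aeval r (fm e n) = 0 → |r| + θ ≤ 2 → (∀ t, |t - r| ≤ θ → c ≤ |aeval t (derivative (fm e n))|) →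
    ∀ X lo hi : ℝ, K * S ≤ X → lo ≤ hi → hi - lo ≤ X → (0 < lo ∨ hi < 0) → (∀ x ∈ Set.Icc lo hi, X ≤ |x| ∧ |x| ≤ 2 * X) →
    ∀ T : Finset (ℤ × ℤ), (∀ P ∈ T, |ev n e P.1 P.2| ≤ (H : ℤ) ∧ |P.2| ≤ |P.1| ∧ lo ≤ (P.1 : ℝ) ∧ (P.1 : ℝ) ≤ hi ∧
      |(P.2 : ℝ) / P.1 - r| ≤ θ) → (T.card : ℝ) ≤ C * (S : ℝ) ^ (5 / 6 : ℝ) := by
  obtain ⟨K₁, hK₁, hstr⟩ := Pool.Agent.H6.AC.str3 n (by omega) B c₀ hB hc₀
  have hB0 : 0 < B := by linarith
  obtain ⟨D, hD⟩ : ∃ D : ℝ, D = cD n * B := ⟨_, rfl⟩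
  have hD0 : 0 < D := by
    rw [hD]
    exact mul_pos (cD_pos n) hB0
  obtain ⟨η, hη⟩ : ∃ η : ℝ, η = min 1 (c * θ / (4 * D)) := ⟨_, rfl⟩
  have hη0 : 0 < η := by
    rw [hη]
    exact lt_min one_pos (by positivity)
  have hη1 : η ≤ 1 := by
    rw [hη]
    exact min_le_left _ _
  have hηD : cD n * B * η ≤ c * θ / 4 := by
    rw [← hD]
    have h1 : η ≤ c * θ / (4 * D) := by
      rw [hη]
      exact min_le_right _ _
    calc D * η ≤ D * (c * θ / (4 * D)) := mul_le_mul_of_nonneg_left h1 hD0.le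
      _ = c * θ / 4 := by field_simp
  obtain ⟨Cb, hCb⟩ : ∃ Cb : ℝ, Cb = 2 / c * (cD n * B * (1 + (2 / c * (cD n * B)) ^ 2)) := ⟨_, rfl⟩
  have hCb0 : 0 ≤ Cb := by
    rw [hCb, ← hD]
    positivity
  refine ⟨2 * (K₁ + 2) + (4 * n ^ 2 + 1) * (8 * Cb + 8 / c + 1) * (3 * n), K₁ + 2 / η + 32 / c + 1, by positivity, ?_, ?_⟩
  · have : 0 ≤ 2 / η + 32 / c := by positivity
    linarith
  intro e S H hS hH hHS hb hI hG r hr hr2 hd X lo hi hKX hlh hlX hsgn hIX T hT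
  have hS1 : (1 : ℝ) ≤ S := by exact_mod_cast hS
  have hS0 : (0 : ℝ) < S := by linarith
  have hH1 : (1 : ℝ) ≤ H := by exact_mod_cast hH
  obtain ⟨K, hK⟩ : ∃ K : ℝ, K = K₁ + 2 / η + 32 / c + 1 := ⟨_, rfl⟩
  rw [← hK] at hKX
  have h2η : 0 < 2 / η := by positivity
  have h32 : 0 < 32 / c := by positivity
  have hK1 : 1 ≤ K := by rw [hK]; linarith
  have hKK₁ : K₁ ≤ K := by rw [hK]; linarith
  have hKη : 2 / η ≤ K := by rw [hK]; linarith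
  have hKc : 32 / c ≤ K := by rw [hK]; linarith
  have hK0 : 0 < K := by linarith
  have hSX : (S : ℝ) ≤ X := by nlinarith
  have hX1 : 1 ≤ X := hS1.trans hSX
  have hX0 : 0 < X := by linarith
  have hq0 : 0 < (S : ℝ) / X := by positivity
  have hqK : (S : ℝ) / X ≤ 1 / K := by
    rw [div_le_div_iff₀ hX0 hK0]
    linarith
  have hq1 : (S : ℝ) / X ≤ 1 := by
    rw [div_le_one hX0]
    exact hSX
  have hqη : (S : ℝ) / X < η := by
    refine lt_of_le_of_lt hqK ?_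
    rw [div_lt_iff₀ hK0]
    have h1 : η * (2 / η) ≤ η * K := mul_le_mul_of_nonneg_left hKη hη0.le
    have h2 : η * (2 / η) = 2 := by field_simp
    linarith
  have hqc : (S : ℝ) / X ≤ c / 32 := by
    refine hqK.trans ?_
    rw [div_le_div_iff₀ hK0 (by norm_num)]
    have h1 : c * (32 / c) ≤ c * K := mul_le_mul_of_nonneg_left hKc hc.le
    have h2 : c * (32 / c) = 32 := by field_simp
    linarith
  -- the size of `x`
  have hux : ∀ x ∈ Set.Icc lo hi, x ≠ 0 ∧ |(S : ℝ) / x| ≤ S / X := by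
    intro x hx
    have h1 := (hIX x hx).1
    have hx0 : 0 < |x| := by linarith
    refine ⟨fun h => by rw [h, abs_zero] at hx0; exact lt_irrefl _ hx0, ?_⟩
    rw [abs_div, abs_of_pos hS0]
    exact div_le_div_of_nonneg_left hS0.le hX0 h1
  -- the branch
  obtain ⟨Φ, J, hΦ, hJ, hnear, hcr⟩ := phi_branch n hB0 (bs5_le n e hS0 hB0.le hb) hc hθ hθ1 hr2
    (by rw [Ph5_zero n e hS0.ne']; exact hr) (fun t ht => by rw [Pht5_zero]; exact hd t ht) hη1 hηD S hS0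
  rw [← hCb] at hJ
  -- `H ≤ S^(n-2)`
  obtain ⟨m, hm⟩ : ∃ m, n = m + 2 := ⟨n - 2, by omega⟩
  have hHm : (H : ℝ) ≤ (S : ℝ) ^ m := by
    have h1 : H ^ 2 ≤ (S ^ m) ^ 2 := by
      rw [← pow_mul]
      refine hHS.trans (Nat.pow_le_pow_right hS (by omega))
    have h2 : H ≤ S ^ m := by
      by_contra hcon
      push Not at hcon
      have := Nat.pow_lt_pow_left hcon (by norm_num : 2 ≠ 0)
      omega
    exact_mod_cast h2
  -- distance from the branch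
  obtain ⟨δ, hδ⟩ : ∃ δ : ℝ, δ = 2 / c * (((S : ℝ) / X) ^ 2 / X) := ⟨_, rfl⟩
  have hδ0 : 0 ≤ δ := by rw [hδ]; positivity
  have hδ1 : δ ≤ 1 / (16 * X) := by
    have h1 : ((S : ℝ) / X) ^ 2 ≤ c / 32 := by
      calc ((S : ℝ) / X) ^ 2 ≤ ((S : ℝ) / X) ^ 1 := pow_le_pow_of_le_one hq0.le hq1 (by norm_num)
        _ = (S : ℝ) / X := pow_one _
        _ ≤ c / 32 := hqc
    calc δ = 2 / c * (((S : ℝ) / X) ^ 2 / X) := hδ
      _ ≤ 2 / c * (c / 32 / X) := by gcongr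
      _ = 1 / (16 * X) := by field_simp; norm_num
  have hdist : ∀ P ∈ T, |(P.2 : ℝ) - Φ P.1| ≤ δ := by
    intro P hP
    obtain ⟨p1, p2, p3, p4, p5⟩ := hT P hP
    obtain ⟨x0, xu⟩ := hux P.1 ⟨p3, p4⟩
    obtain ⟨xX, _⟩ := hIX P.1 ⟨p3, p4⟩
    have x0' : P.1 ≠ 0 := by exact_mod_cast x0
    have hax : 0 < |(P.1 : ℝ)| := abs_pos.2 x0
    have h1 := hnear P.1 ((P.2 : ℝ) / P.1) (xu.trans hqη.le) p5
    have h2 : (P.1 : ℝ) * ((P.2 : ℝ) / P.1) = P.2 := by field_simp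
    rw [h2] at h1
    have h3 := ev_Ph5 n e hS0.ne' P.1 P.2 x0'
    have h4 : |(ev n e P.1 P.2 : ℝ)| ≤ H := by exact_mod_cast p1
    rw [h3, abs_mul, abs_pow] at h4
    have h5 : |(P.1 : ℝ)| * |Ph n (bs5 n e S) (S / P.1) ((P.2 : ℝ) / P.1)| ≤ H / |(P.1 : ℝ)| ^ (m + 1) := by
      rw [le_div_iff₀ (by positivity)]
      calc _ = |(P.1 : ℝ)| ^ n * |Ph n (bs5 n e S) (S / P.1) ((P.2 : ℝ) / P.1)| := by
            rw [hm]
            ring
        _ ≤ H := h4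
    have h6 : H / |(P.1 : ℝ)| ^ (m + 1) ≤ ((S : ℝ) / X) ^ 2 / X := by
      calc H / |(P.1 : ℝ)| ^ (m + 1) ≤ (S : ℝ) ^ m / X ^ (m + 1) := by gcongr
        _ = ((S : ℝ) / X) ^ m / X := by
            rw [div_pow, pow_succ]
            field_simp
        _ ≤ ((S : ℝ) / X) ^ 2 / X := by
            apply div_le_div_of_nonneg_right _ hX0.le
            exact pow_le_pow_of_le_one hq0.le hq1 (by omega)
    have h7 : c / 2 * |(P.2 : ℝ) - Φ P.1| ≤ ((S : ℝ) / X) ^ 2 / X := h1.trans (h5.trans h6)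
    rw [hδ]
    calc |(P.2 : ℝ) - Φ P.1| = 2 / c * (c / 2 * |(P.2 : ℝ) - Φ P.1|) := by field_simp
      _ ≤ 2 / c * (((S : ℝ) / X) ^ 2 / X) := mul_le_mul_of_nonneg_left h7 (by positivity)
  have hinj : ∀ P ∈ T, ∀ Q ∈ T, P.1 = Q.1 → P = Q := by
    intro P hP Q hQ h
    have h1 := hdist P hP
    have h2 := hdist Q hQ
    rw [← h] at h2
    have h3 : |(P.2 : ℝ) - Q.2| < 1 := by
      have e1 : (P.2 : ℝ) - Q.2 = ((P.2 : ℝ) - Φ P.1) - ((Q.2 : ℝ) - Φ P.1) := by ring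
      rw [e1]
      refine lt_of_le_of_lt (abs_sub _ _) ?_
      have h4 : (1 : ℝ) / (16 * X) ≤ 1 / 16 := by
        apply one_div_le_one_div_of_le (by norm_num)
        linarith
      linarith
    have h4 : |P.2 - Q.2| < 1 := by exact_mod_cast h3
    have h5 : P.2 = Q.2 := by
      have := Int.abs_lt_one_iff.1 h4
      linarith
    exact Prod.ext h h5
  -- the sixth root of `S`
  obtain ⟨z, hz⟩ : ∃ z : ℝ, z = (S : ℝ) ^ (1 / 6 : ℝ) := ⟨_, rfl⟩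
  have hz1 : 1 ≤ z := by
    rw [hz]
    exact Real.one_le_rpow hS1 (by norm_num)
  have hz0 : 0 < z := by linarith
  have hz6 : z ^ 6 = S := by
    rw [hz, ← Real.rpow_natCast ((S : ℝ) ^ (1 / 6 : ℝ)) 6, ← Real.rpow_mul hS0.le]
    norm_num
  have hz5 : (S : ℝ) ^ (5 / 6 : ℝ) = z ^ 5 := by
    rw [hz, ← Real.rpow_natCast ((S : ℝ) ^ (1 / 6 : ℝ)) 5, ← Real.rpow_mul hS0.le]
    norm_num
  have hW : (S : ℝ) ^ 2 ≤ (z ^ 4) ^ 3 := by
    rw [← hz6]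
    exact le_of_eq (by ring)
  obtain ⟨L, hL⟩ : ∃ L : ℝ, L = X / (K₁ * z ^ 4) := ⟨_, rfl⟩
  have hK₁0 : 0 < K₁ := by linarith
  have hL0 : 0 < L := by rw [hL]; positivity
  -- collinear
  have hcol : ∀ P ∈ T, ∀ Q ∈ T, ∀ R ∈ T, |(P.1 : ℝ) - Q.1| ≤ L → |(P.1 : ℝ) - R.1| ≤ L → |(Q.1 : ℝ) - R.1| ≤ L →
      (Q.1 - P.1) * (R.2 - P.2) = (R.1 - P.1) * (Q.2 - P.2) := by
    intro P hP Q hQ R hR hPQ hPR hQR
    have hmem : ∀ i : Fin 3, (![P, Q, R] i) ∈ T := by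
      intro i
      fin_cases i
      · exact hP
      · exact hQ
      · exact hR
    have key := hstr e S (z ^ 4) X H hS1 (one_le_pow₀ hz1)
      (by
        refine hHm.trans (pow_le_pow_right₀ hS1 (by omega))) hW
      (by
        have e1 : n - 2 = m := by omega
        rw [e1]
        have h1 : (S : ℝ) ^ m ≤ X ^ m := pow_le_pow_left₀ hS0.le hSX m
        have h2 : X ^ m ≤ z ^ 4 * X ^ m := le_mul_of_one_le_left (by positivity) (one_le_pow₀ hz1)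
        linarith) hb hG ((mul_le_mul_of_nonneg_right hKK₁ hS0.le).trans hKX)
      (fun i => (![P, Q, R] i).1) (fun i => (![P, Q, R] i).2) ?_ ?_ ?_ ?_
    · exact key
    · intro i
      obtain ⟨p1, p2, p3, p4, p5⟩ := hT _ (hmem i)
      obtain ⟨x1, x2⟩ := hIX _ ⟨p3, p4⟩
      exact ⟨x1, x2, p2, by exact_mod_cast p1⟩
    · intro i j
      obtain ⟨_, _, p3, p4, _⟩ := hT _ (hmem i)
      obtain ⟨_, _, q3, q4, _⟩ := hT _ (hmem j)
      have h1 : (0 : ℝ) < ((![P, Q, R] i).1 : ℝ) * ((![P, Q, R] j).1 : ℝ) := by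
        rcases hsgn with h | h
        · exact mul_pos (by linarith) (by linarith)
        · exact mul_pos_of_neg_of_neg (by linarith) (by linarith)
      exact_mod_cast h1
    · intro i j
      rw [← hL]
      fin_cases i <;> fin_cases j <;> simp [hL0.le, hPQ, hPR, hQR, abs_sub_comm] <;>
        first
          | exact hPQ
          | exact hPR
          | exact hQR
          | (rw [abs_sub_comm]; exact hPQ)
          | (rw [abs_sub_comm]; exact hPR)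
          | (rw [abs_sub_comm]; exact hQR)
    · intro i j s hs
      obtain ⟨_, _, _, _, p5⟩ := hT _ (hmem i)
      obtain ⟨_, _, _, _, q5⟩ := hT _ (hmem j)
      have hs' : |s - r| ≤ θ := by
        rw [abs_le] at p5 q5 ⊢
        rw [Set.mem_uIcc] at hs
        rcases hs with ⟨h1, h2⟩ | ⟨h1, h2⟩ <;> constructor <;> linarith [p5.1, p5.2, q5.1, q5.2]
      intro h0
      have := hd s hs'
      rw [h0, abs_zero] at this
      linarith
  -- lines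
  have hHz : (H : ℝ) ^ (1 / (n : ℝ)) ≤ z ^ 3 := by
    have hn0 : (0 : ℝ) < n := by
      have : 0 < n := by omega
      exact_mod_cast this
    have h1 : (H : ℝ) ≤ (z ^ 3) ^ n := by
      have h2 : (H : ℝ) ^ 2 ≤ ((z ^ 3) ^ n) ^ 2 := by
        have h3 : (H : ℝ) ^ 2 ≤ (S : ℝ) ^ n := by exact_mod_cast hHS
        refine h3.trans (le_of_eq ?_)
        rw [← hz6, ← pow_mul, ← pow_mul, ← pow_mul]
        congr 1
        ring
      exact le_of_sq_le_sq h2 (by positivity)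
    calc (H : ℝ) ^ (1 / (n : ℝ)) ≤ ((z ^ 3) ^ n) ^ (1 / (n : ℝ)) :=
          Real.rpow_le_rpow (by linarith) h1 (by positivity)
      _ = z ^ 3 := by
          rw [← Real.rpow_natCast (z ^ 3) n, ← Real.rpow_mul (by positivity), mul_one_div_cancel hn0.ne', Real.rpow_one]
  have hline : ∀ (a b l : ℤ), 0 < a → ((T.filter fun P => a * P.2 - b * P.1 = l).card : ℝ) ≤ 3 * n * z ^ 3 := by
    intro a b l ha
    have h1 := cls n (by omega) e hI H hH1 (T.filter fun P => a * P.2 - b * P.1 = l)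
      (fun P hP Q hQ R hR => on_line ha.ne' (Finset.mem_filter.1 hP).2 (Finset.mem_filter.1 hQ).2 (Finset.mem_filter.1 hR).2)
      (fun P hP => by exact_mod_cast (hT P (Finset.mem_filter.1 hP).1).1)
    refine h1.trans ?_
    have h2 : (1 : ℝ) ≤ z ^ 3 := one_le_pow₀ hz1
    have h3 : (0 : ℝ) ≤ n := Nat.cast_nonneg _
    have h4 : 2 * (H : ℝ) ^ (1 / (n : ℝ)) + 1 ≤ 3 * z ^ 3 := by linarith
    calc (n : ℝ) * (2 * (H : ℝ) ^ (1 / (n : ℝ)) + 1) ≤ n * (3 * z ^ 3) := mul_le_mul_of_nonneg_left h4 h3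
      _ = _ := by ring
  -- the number `m₀`
  obtain ⟨m₀, hm₀⟩ : ∃ m₀ : ℕ, m₀ = ⌈z⌉₊ := ⟨_, rfl⟩
  have hm1 : z ≤ m₀ := by rw [hm₀]; exact Nat.le_ceil _
  have hm2 : (m₀ : ℝ) ≤ 2 * z := by
    have := (Nat.ceil_lt_add_one hz0.le).le
    rw [← hm₀] at this
    linarith
  have hm3 : 1 ≤ m₀ := by
    have : (1 : ℝ) ≤ m₀ := hz1.trans hm1
    exact_mod_cast this
  have hmr : (0 : ℝ) < m₀ := by exact_mod_cast hm3
  -- the numbers of the key lemma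
  obtain ⟨N, hN⟩ : ∃ N : ℝ, N = (((4 * n ^ 2 : ℕ) : ℝ) + 1) * ((8 * Cb * ((S : ℝ) / X) ^ 2 + 4 * δ) * (L / m₀) ^ 2 + 1) := ⟨_, rfl⟩
  have hwin := windows T lo hi L hL0 m₀ hm3 (3 * n * z ^ 3) N (by positivity) (fun P hP => ⟨(hT P hP).2.2.1, (hT P hP).2.2.2.1⟩)
    hinj hlh hcol hline (by
      intro Ks p q h1 h2
      rw [hN]
      refine keys lo hi X L δ (8 * Cb * ((S : ℝ) / X) ^ 2) m₀ (4 * n ^ 2) hm3 Φ J hX1 hL0 hlX hδ0 hδ1 (by positivity)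
        (fun x hx => hΦ x (hux x hx).1 (lt_of_le_of_lt (hux x hx).2 hqη))
        (fun x hx y hy => hJ x y (S / X) (hux x hx).2 (hux y hy).2 hqη.le) ?_ T
        (fun P hP => ⟨(hT P hP).2.2.1, (hT P hP).2.2.2.1, hdist P hP⟩) Ks p q h1 h2
      intro a b ha
      exact crit5 n (by omega) e hI S X hX0 J (Set.Icc lo hi) (fun x hx => (hux x hx).1) hS0.ne'
        (fun x hx => hcr x ((hux x hx).2.trans hqη.le)) a b ha)
  -- the end
  have hpoor : ((hi - lo) / L + 2) * m₀ ≤ 2 * (K₁ + 2) * z ^ 5 := by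
    have h1 : (hi - lo) / L ≤ K₁ * z ^ 4 := by
      calc (hi - lo) / L ≤ X / L := div_le_div_of_nonneg_right hlX hL0.le
        _ = K₁ * z ^ 4 := by
            rw [hL]
            field_simp
    have h2 : (1 : ℝ) ≤ z ^ 4 := one_le_pow₀ hz1
    have h3 : (hi - lo) / L + 2 ≤ (K₁ + 2) * z ^ 4 := by linarith
    have h4 : 0 ≤ (hi - lo) / L + 2 := by
      have : 0 ≤ (hi - lo) / L := div_nonneg (by linarith) hL0.le
      linarith
    calc ((hi - lo) / L + 2) * m₀ ≤ ((K₁ + 2) * z ^ 4) * (2 * z) := mul_le_mul h3 hm2 hmr.le (by positivity)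
      _ = _ := by ring
  have hrich : N * (3 * n * z ^ 3) ≤ (4 * n ^ 2 + 1) * (8 * Cb + 8 / c + 1) * (3 * n) * z ^ 5 := by
    have h1 : L / m₀ ≤ X / z ^ 5 := by
      rw [hL]
      have h2 : z ^ 5 ≤ K₁ * z ^ 4 * m₀ := by
        calc z ^ 5 = 1 * z ^ 4 * z := by ring
          _ ≤ K₁ * z ^ 4 * m₀ := by gcongr
      rw [div_div]
      exact div_le_div_of_nonneg_left hX0.le (by positivity) h2
    have h2 : (L / m₀) ^ 2 ≤ (X / z ^ 5) ^ 2 := pow_le_pow_left₀ (by positivity) h1 2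
    have h3 : 8 * Cb * ((S : ℝ) / X) ^ 2 + 4 * δ ≤ (8 * Cb + 8 / c) * ((S : ℝ) / X) ^ 2 := by
      have h4 : ((S : ℝ) / X) ^ 2 / X ≤ ((S : ℝ) / X) ^ 2 := div_le_self (by positivity) hX1
      have h5 : 4 * δ ≤ 8 / c * ((S : ℝ) / X) ^ 2 := by
        calc 4 * δ = 8 / c * (((S : ℝ) / X) ^ 2 / X) := by rw [hδ]; ring
          _ ≤ _ := mul_le_mul_of_nonneg_left h4 (by positivity)
      linarith
    have h4 : (8 * Cb * ((S : ℝ) / X) ^ 2 + 4 * δ) * (L / m₀) ^ 2 ≤ (8 * Cb + 8 / c) * z ^ 2 := by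
      calc (8 * Cb * ((S : ℝ) / X) ^ 2 + 4 * δ) * (L / m₀) ^ 2 ≤
          ((8 * Cb + 8 / c) * ((S : ℝ) / X) ^ 2) * (X / z ^ 5) ^ 2 := by
            refine mul_le_mul h3 h2 (by positivity) (by positivity)
        _ = (8 * Cb + 8 / c) * z ^ 2 := by
            rw [← hz6]
            field_simp
    have h5 : (1 : ℝ) ≤ z ^ 2 := one_le_pow₀ hz1
    have h6 : N ≤ (4 * n ^ 2 + 1) * ((8 * Cb + 8 / c + 1) * z ^ 2) := by
      rw [hN]
      push_cast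
      refine mul_le_mul_of_nonneg_left ?_ (by positivity)
      linarith
    calc N * (3 * n * z ^ 3) ≤ ((4 * n ^ 2 + 1) * ((8 * Cb + 8 / c + 1) * z ^ 2)) * (3 * n * z ^ 3) :=
          mul_le_mul_of_nonneg_right h6 (by positivity)
      _ = _ := by ring
  rw [hz5]
  calc (T.card : ℝ) ≤ ((hi - lo) / L + 2) * m₀ + N * (3 * n * z ^ 3) := hwin
    _ ≤ 2 * (K₁ + 2) * z ^ 5 + (4 * n ^ 2 + 1) * (8 * Cb + 8 / c + 1) * (3 * n) * z ^ 5 := add_le_add hpoor hrich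
    _ = _ := by ring

end Pool.Agent.H99.UC
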