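import Mathlib

/-! # [H99 UC ROL] Levels of a function and Rolle; fractions in a short interval; the direction of a set of collinear points -/

namespace Pool.Agent.H99.UC

open Finset

/-- between a place with `|f'| < κ` and one with `|f'| > κ` the derivative takes one of the values `± κ` -/
theorem cross (f g : ℝ → ℝ) (a b κ : ℝ) (hab : a < b) (hf : ∀ x ∈ Set.Icc a b, HasDerivAt f (g x) x)
    (h1 : |g a| < κ) (h2 : κ < |g b|) : ∃ z, a < z ∧ z < b ∧ (g z = κ ∨ g z = -κ) := by
  have hd : ∀ x ∈ Set.Icc a b, HasDerivWithinAt f (g x) (Set.Icc a b) x := fun x hx => (hf x hx).hasDerivWithinAt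
  rw [abs_lt] at h1
  rcases lt_abs.1 h2 with h | h
  · obtain ⟨z, hz, hz'⟩ := exists_hasDerivWithinAt_eq_of_gt_of_lt hab.le hd h1.2 h
    exact ⟨z, hz.1, hz.2, Or.inl hz'⟩
  · obtain ⟨z, hz, hz'⟩ := exists_hasDerivWithinAt_eq_of_lt_of_gt hab.le hd (m := -κ) h1.1 (by linarith)
    exact ⟨z, hz.1, hz.2, Or.inr hz'⟩

/-- **levels and Rolle**: `f` is near the integer `l` at the ends of `[p l, q l]`, these intervals are disjoint: at most one more than the number of
places where `f' = ± κ` -/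
theorem rolle_levels (f g : ℝ → ℝ) (lo hi κ η : ℝ) (hf : ∀ x ∈ Set.Icc lo hi, HasDerivAt f (g x) x) (Z : Finset ℝ)
    (hZ : ∀ x ∈ Set.Icc lo hi, (g x = κ ∨ g x = -κ) → x ∈ Z) (p q : ℤ → ℝ) (hκ : κ * (hi - lo) < 1 - 2 * η) (hκ0 : 0 < κ)
    (Lv : Finset ℤ)
    (h1 : ∀ l ∈ Lv, lo ≤ p l ∧ p l < q l ∧ q l ≤ hi ∧ |f (p l) - l| ≤ η ∧ |f (q l) - l| ≤ η ∧ 2 * η < κ * (q l - p l))
    (h2 : ∀ l ∈ Lv, ∀ m ∈ Lv, l ≠ m → p l ≤ p m → q l < p m) : Lv.card ≤ Z.card + 1 := by
  classical
  have key : ∀ s : Finset ℤ, s ⊆ Lv → s.Nonempty → ∃ l ∈ s, (∀ m ∈ s, p m ≤ p l) ∧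
      s.card ≤ (Z.filter (· < p l)).card + 1 := by
    intro s
    induction s using Finset.induction_on_max_value p with
    | empty =>
      intro _ h
      exact absurd h Finset.not_nonempty_empty
    | insert a s ha hmax ih =>
      intro hs _
      refine ⟨a, mem_insert_self _ _, ?_, ?_⟩
      · intro m hm
        rcases mem_insert.1 hm with rfl | hm
        · exact le_rfl
        · exact hmax m hm
      · rw [card_insert_of_notMem ha]
        by_cases hne : s.Nonempty
        · obtain ⟨l, hl, hlm, hlc⟩ := ih (subset_trans (subset_insert _ _) hs) hne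
          have haL : a ∈ Lv := hs (mem_insert_self _ _)
          have hlL : l ∈ Lv := hs (mem_insert_of_mem hl)
          have hla : l ≠ a := by
            rintro rfl
            exact ha hl
          obtain ⟨a1, a2, a3, a4, a5, a6⟩ := h1 l hlL
          obtain ⟨b1, b2, b3, b4, b5, b6⟩ := h1 a haL
          have hq : q l < p a := h2 l hlL a haL hla (hmax l hl)
          have hIcc : ∀ x y : ℝ, lo ≤ x → y ≤ hi → ∀ z ∈ Set.Icc x y, z ∈ Set.Icc lo hi :=
            fun x y hx hy z hz => ⟨hx.trans hz.1, hz.2.trans hy⟩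
          obtain ⟨ξ, hξ, hξ'⟩ := exists_hasDerivAt_eq_slope f g a2
            (fun x hx => (hf x (hIcc _ _ a1 a3 x hx)).continuousAt.continuousWithinAt)
            (fun x hx => hf x (hIcc _ _ a1 a3 x (Set.Ioo_subset_Icc_self hx)))
          have hgξ : |g ξ| < κ := by
            rw [hξ', abs_div, abs_of_pos (sub_pos.2 a2), div_lt_iff₀ (sub_pos.2 a2)]
            refine lt_of_le_of_lt ?_ a6
            have e : f (q l) - f (p l) = (f (q l) - l) - (f (p l) - l) := by ring
            rw [e]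
            exact (abs_sub _ _).trans (by linarith)
          obtain ⟨y, hy, hy'⟩ := exists_hasDerivAt_eq_slope f g hq
            (fun x hx => (hf x (hIcc _ _ (by linarith) (by linarith) x hx)).continuousAt.continuousWithinAt)
            (fun x hx => hf x (hIcc _ _ (by linarith) (by linarith) x (Set.Ioo_subset_Icc_self hx)))
          have hgy : κ < |g y| := by
            rw [hy', abs_div, abs_of_pos (sub_pos.2 hq), lt_div_iff₀ (sub_pos.2 hq)]
            have c1 : (1 : ℝ) ≤ |(a : ℝ) - l| := by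
              have : (1 : ℤ) ≤ |a - l| := Int.one_le_abs (sub_ne_zero.2 hla.symm)
              exact_mod_cast this
            have c2 : |(a : ℝ) - l| ≤ |f (p a) - f (q l)| + 2 * η := by
              have e : (a : ℝ) - l = (f (p a) - f (q l)) + (-(f (p a) - a) + (f (q l) - l)) := by ring
              rw [e]
              refine (abs_add_le _ _).trans ?_
              have : |(-(f (p a) - a) + (f (q l) - l))| ≤ η + η := by
                refine (abs_add_le _ _).trans ?_
                rw [abs_neg]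
                linarith
              linarith
            have c3 : κ * (p a - q l) ≤ κ * (hi - lo) := mul_le_mul_of_nonneg_left (by linarith) hκ0.le
            linarith
          have hξy : ξ < y := lt_trans hξ.2 hy.1
          obtain ⟨z, hz1, hz2, hz3⟩ := cross f g ξ y κ hξy
            (fun x hx => hf x (hIcc _ _ (by linarith [hξ.1]) (by linarith [hy.2]) x hx)) hgξ hgy
          have hzZ : z ∈ Z := hZ z ⟨by linarith [hξ.1], by linarith [hy.2]⟩ hz3
          have hsub : insert z (Z.filter (· < p l)) ⊆ Z.filter (· < p a) := by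
            intro w hw
            rcases mem_insert.1 hw with rfl | hw
            · exact mem_filter.2 ⟨hzZ, by linarith [hy.2]⟩
            · obtain ⟨w1, w2⟩ := mem_filter.1 hw
              exact mem_filter.2 ⟨w1, by linarith⟩
          have hznot : z ∉ Z.filter (· < p l) := by
            intro hz
            have := (mem_filter.1 hz).2
            linarith [hξ.1]
          have := card_le_card hsub
          rw [card_insert_of_notMem hznot] at this
          omega
        · rw [not_nonempty_iff_eq_empty.1 hne]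
          simp
  by_cases hL : Lv.Nonempty
  · obtain ⟨l, _, _, hc⟩ := key Lv (subset_refl _) hL
    have := card_filter_le Z (· < p l)
    omega
  · rw [not_nonempty_iff_eq_empty.1 hL]
    simp

/-- reduced fractions with denominators `≤ A` in an interval of length `Δ` -/
theorem frac_card (V : Finset (ℤ × ℤ)) (A Δ : ℝ) (hA : 0 < A) (hΔ : 0 ≤ Δ)
    (hV : ∀ v ∈ V, 0 < v.1 ∧ (v.1 : ℝ) ≤ A ∧ IsCoprime v.1 v.2)
    (hd : ∀ v ∈ V, ∀ w ∈ V, |(v.2 : ℝ) / v.1 - (w.2 : ℝ) / w.1| ≤ Δ) : (V.card : ℝ) ≤ Δ * A ^ 2 + 1 := by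
  classical
  by_cases hne : V.Nonempty
  · obtain ⟨v₀, hv₀, hmin⟩ := Finset.exists_min_image V (fun v => (v.2 : ℝ) / v.1) hne
    obtain ⟨h, hh⟩ : ∃ h : ℤ × ℤ → ℤ, h = fun v => ⌊((v.2 : ℝ) / v.1 - (v₀.2 : ℝ) / v₀.1) * A ^ 2⌋ := ⟨_, rfl⟩
    have hA2 : 0 < A ^ 2 := by positivity
    have hsep : ∀ v ∈ V, ∀ w ∈ V, (v.2 : ℝ) / v.1 ≤ (w.2 : ℝ) / w.1 → v ≠ w → h v < h w := by
      intro v hv w hw hvw hne
      obtain ⟨v1, v2, v3⟩ := hV v hv
      obtain ⟨w1, w2, w3⟩ := hV w hw
      have v1' : (0 : ℝ) < v.1 := by exact_mod_cast v1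
      have w1' : (0 : ℝ) < w.1 := by exact_mod_cast w1
      have hnum : w.2 * v.1 - v.2 * w.1 ≠ 0 := by
        intro h0
        apply hne
        have e : w.2 * v.1 = v.2 * w.1 := by linarith
        have d1 : v.1 ∣ w.1 := by
          have : v.1 ∣ v.2 * w.1 := ⟨w.2, by rw [← e]; ring⟩
          exact v3.dvd_of_dvd_mul_left this
        have d2 : w.1 ∣ v.1 := by
          have : w.1 ∣ w.2 * v.1 := ⟨v.2, by rw [e]; ring⟩
          exact w3.dvd_of_dvd_mul_left this
        have e1 : v.1 = w.1 := Int.dvd_antisymm v1.le w1.le d1 d2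
        have e2 : v.2 = w.2 := by
          rw [e1] at e
          exact (mul_right_cancel₀ w1.ne' e).symm
        exact Prod.ext e1 e2
      have hdiff : (w.2 : ℝ) / w.1 - (v.2 : ℝ) / v.1 = ((w.2 * v.1 - v.2 * w.1 : ℤ) : ℝ) / (w.1 * v.1) := by
        push_cast
        field_simp
      have hpos : 0 < w.2 * v.1 - v.2 * w.1 := by
        rcases lt_or_gt_of_ne hnum with h3 | h3
        · exfalso
          have h4 : ((w.2 * v.1 - v.2 * w.1 : ℤ) : ℝ) < 0 := by exact_mod_cast h3
          have h5 : (w.2 : ℝ) / w.1 - (v.2 : ℝ) / v.1 < 0 := by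
            rw [hdiff]
            exact div_neg_of_neg_of_pos h4 (by positivity)
          linarith
        · exact h3
      have hge : (1 : ℝ) ≤ ((w.2 * v.1 - v.2 * w.1 : ℤ) : ℝ) := by exact_mod_cast hpos
      have h6 : (1 : ℝ) ≤ ((w.2 : ℝ) / w.1 - (v.2 : ℝ) / v.1) * A ^ 2 := by
        rw [hdiff, div_mul_eq_mul_div, le_div_iff₀ (by positivity), one_mul]
        have h7 : (w.1 : ℝ) * v.1 ≤ A ^ 2 := by
          rw [sq]
          exact mul_le_mul w2 v2 v1'.le hA.le
        nlinarith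
      rw [hh]
      show ⌊_⌋ < ⌊_⌋
      have h8 : ⌊((v.2 : ℝ) / v.1 - (v₀.2 : ℝ) / v₀.1) * A ^ 2⌋ + 1 ≤ ⌊((w.2 : ℝ) / w.1 - (v₀.2 : ℝ) / v₀.1) * A ^ 2⌋ := by
        rw [Int.le_floor]
        push_cast
        have h9 := Int.floor_le (((v.2 : ℝ) / v.1 - (v₀.2 : ℝ) / v₀.1) * A ^ 2)
        nlinarith
      omega
    have hinj : Set.InjOn h V := by
      intro v hv w hw hvw
      by_contra hne
      rcases le_total ((v.2 : ℝ) / v.1) ((w.2 : ℝ) / w.1) with h3 | h3
      · have := hsep v hv w hw h3 hne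
        omega
      · have := hsep w hw v hv h3 (Ne.symm hne)
        omega
    have hmaps : ∀ v ∈ V, h v ∈ Finset.Icc (0 : ℤ) ⌊Δ * A ^ 2⌋ := by
      intro v hv
      rw [Finset.mem_Icc, hh]
      constructor
      · rw [Int.le_floor]
        push_cast
        exact mul_nonneg (sub_nonneg.2 (hmin v hv)) hA2.le
      · apply Int.floor_le_floor
        refine mul_le_mul_of_nonneg_right ?_ hA2.le
        exact (le_abs_self _).trans (hd v hv v₀ hv₀)
    have h1 := Finset.card_le_card_of_injOn h hmaps hinj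
    rw [Int.card_Icc] at h1
    have h2 : (V.card : ℤ) ≤ ⌊Δ * A ^ 2⌋ + 1 := by
      have h3 : 0 ≤ ⌊Δ * A ^ 2⌋ := Int.floor_nonneg.2 (by positivity)
      omega
    have h3 : ((V.card : ℤ) : ℝ) ≤ ((⌊Δ * A ^ 2⌋ + 1 : ℤ) : ℝ) := by exact_mod_cast h2
    push_cast at h3
    have h4 := Int.floor_le (Δ * A ^ 2)
    linarith
  · rw [Finset.not_nonempty_iff_eq_empty.1 hne, Finset.card_empty]
    push_cast
    positivity

/-- the direction of a collinear set -/
theorem line_vec (U : Finset (ℤ × ℤ)) (hinj : ∀ P ∈ U, ∀ Q ∈ U, P.1 = Q.1 → P = Q)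
    (hcol : ∀ P ∈ U, ∀ Q ∈ U, ∀ R ∈ U, (Q.1 - P.1) * (R.2 - P.2) = (R.1 - P.1) * (Q.2 - P.2)) (hcard : 2 ≤ U.card) :
    ∃ P ∈ U, ∃ Q ∈ U, ∃ a b g : ℤ, 0 < a ∧ 0 < g ∧ IsCoprime a b ∧ (U.card : ℤ) ≤ g + 1 ∧ Q.1 - P.1 = g * a ∧
      Q.2 - P.2 = g * b ∧ ∀ R ∈ U, a * R.2 - b * R.1 = a * P.2 - b * P.1 := by
  classical
  have hne : U.Nonempty := Finset.card_pos.1 (by omega)
  obtain ⟨P, hP, hPm⟩ := Finset.exists_min_image U (fun R => R.1) hne
  obtain ⟨Q, hQ, hQm⟩ := Finset.exists_max_image U (fun R => R.1) hne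
  have hPQ : P.1 < Q.1 := by
    rcases (hPm Q hQ).lt_or_eq with h | h
    · exact h
    · exfalso
      have h1 : U ⊆ {P} := by
        intro R hR
        rw [Finset.mem_singleton]
        refine hinj R hR P hP (le_antisymm ?_ (hPm R hR))
        exact (hQm R hR).trans h.ge
      have := Finset.card_le_card h1
      rw [Finset.card_singleton] at this
      omega
  have hg : 0 < Int.gcd (Q.1 - P.1) (Q.2 - P.2) := by
    rw [Int.gcd_pos_iff]
    left
    omega
  obtain ⟨a, b, hab, ha, hb⟩ := Int.exists_gcd_one hg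
  obtain ⟨g, hgd⟩ : ∃ g : ℤ, g = (Int.gcd (Q.1 - P.1) (Q.2 - P.2) : ℤ) := ⟨_, rfl⟩
  rw [← hgd] at ha hb
  have hg0 : 0 < g := by
    rw [hgd]
    exact_mod_cast hg
  have ha0 : 0 < a := by
    by_contra hcon
    push Not at hcon
    have : a * g ≤ 0 := mul_nonpos_of_nonpos_of_nonneg hcon hg0.le
    omega
  have hcop : IsCoprime a b := Int.isCoprime_iff_gcd_eq_one.2 hab
  have hline : ∀ R ∈ U, a * (R.2 - P.2) = (R.1 - P.1) * b := by
    intro R hR
    have h1 := hcol P hP Q hQ R hR
    rw [ha, hb] at h1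
    have h2 : g * (a * (R.2 - P.2)) = g * ((R.1 - P.1) * b) := by linarith
    exact mul_left_cancel₀ hg0.ne' h2
  refine ⟨P, hP, Q, hQ, a, b, g, ha0, hg0, hcop, ?_, by rw [ha]; ring, by rw [hb]; ring, ?_⟩
  · have hdvd : ∀ R ∈ U, a ∣ R.1 - P.1 := by
      intro R hR
      have : a ∣ (R.1 - P.1) * b := ⟨R.2 - P.2, (hline R hR).symm⟩
      exact hcop.dvd_of_dvd_mul_right this
    have hmaps : ∀ R ∈ U, (R.1 - P.1) / a ∈ Finset.Icc (0 : ℤ) g := by
      intro R hR
      obtain ⟨k, hk⟩ := hdvd R hR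
      have h1 := hPm R hR
      have h2 := hQm R hR
      have h3 : (R.1 - P.1) / a = k := by
        rw [hk]
        exact Int.mul_ediv_cancel_left _ ha0.ne'
      rw [h3, Finset.mem_Icc]
      constructor
      · by_contra hcon
        push Not at hcon
        have : a * k < 0 := mul_neg_of_pos_of_neg ha0 hcon
        omega
      · by_contra hcon
        push Not at hcon
        have : a * g < a * k := mul_lt_mul_of_pos_left hcon ha0
        linarith
    have hinj' : Set.InjOn (fun R : ℤ × ℤ => (R.1 - P.1) / a) U := by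
      intro R hR R' hR' h
      obtain ⟨k, hk⟩ := hdvd R hR
      obtain ⟨k', hk'⟩ := hdvd R' hR'
      simp only at h
      rw [hk, hk', Int.mul_ediv_cancel_left _ ha0.ne', Int.mul_ediv_cancel_left _ ha0.ne'] at h
      refine hinj R hR R' hR' ?_
      rw [h] at hk
      linarith
    have h1 := Finset.card_le_card_of_injOn _ hmaps hinj'
    rw [Int.card_Icc] at h1
    omega
  · intro R hR
    have := hline R hR
    linarith

end Pool.Agent.H99.UC
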