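import Pool.Agent.H8.UC.Gd0
import Pool.Agent.H42.AA.Half2
import Pool.Agent.H99.UC.Rts
import Pool.Agent.H99.UC.Cel2

/-! # [H99 UC SCL5] The points with `|F| ≤ H` at one scale `X = 2^s ≥ K S`, `H² ≤ S^n`: at most `C S^(5/6)` -/

namespace Pool.Agent.H99.UC

open Polynomial Pool.Agent.H8.AA Pool.Agent.H42.AA Pool.Agent.H6.AB

private theorem fm_cong (n : ℕ) (e e₀ : ℕ → ℕ → ℤ) (h : ∀ j ≤ n, e (n - j) j = e₀ (n - j) j) : fm e n = fm e₀ n := by
  unfold fm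
  refine Finset.sum_congr rfl fun j hj => ?_
  rw [h j (by have := Finset.mem_range.1 hj; omega)]

/-- the derivative near the real roots -/
private theorem near_root (φ : ℤ[X]) (κ : ℝ) (hκ : 0 < κ) (R : Finset ℝ)
    (h : ∀ r ∈ R, κ ≤ |aeval r (derivative φ)|) : ∃ θ : ℝ, 0 < θ ∧ θ ≤ 1 / 2 ∧ ∀ r ∈ R, ∀ t : ℝ, |t - r| ≤ θ →
      κ / 2 ≤ |aeval t (derivative φ)| := by
  have hex : ∀ r : R, ∃ ε : ℝ, 0 < ε ∧ ∀ t : ℝ, |t - r.1| < ε → κ / 2 < |aeval t (derivative φ)| := by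
    intro r
    have hc : Continuous (fun t : ℝ => |aeval t (derivative φ)|) := (derivative φ).continuous_aeval.abs
    have ho : IsOpen {t : ℝ | κ / 2 < |aeval t (derivative φ)|} := isOpen_lt continuous_const hc
    have hm : r.1 ∈ {t : ℝ | κ / 2 < |aeval t (derivative φ)|} := by
      have := h r.1 r.2
      show κ / 2 < _
      linarith
    obtain ⟨ε, hε, hb⟩ := Metric.isOpen_iff.1 ho r.1 hm
    refine ⟨ε, hε, fun t ht => hb ?_⟩
    rw [Metric.mem_ball, Real.dist_eq]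
    exact ht
  choose ε hε hε' using hex
  obtain ⟨γ, hγ, hγ'⟩ := pos_lower ε hε
  refine ⟨min (γ / 2) (1 / 2), lt_min (by positivity) (by norm_num), min_le_right _ _, ?_⟩
  intro r hr t ht
  refine (hε' ⟨r, hr⟩ t ?_).le
  have h1 := hγ' ⟨r, hr⟩
  have h2 := ht.trans (min_le_left _ _)
  simp only
  linarith

theorem scale5 (n : ℕ) (hn : 4 ≤ n) (e₀ : ℕ → ℕ → ℤ) (h : Ir n e₀) (B : ℕ) (hB : 2 ≤ B) : ∃ C K : ℝ, 0 ≤ C ∧ 1 ≤ K ∧
    ∀ (e : ℕ → ℕ → ℤ), (∀ j ≤ n, e (n - j) j = e₀ (n - j) j) → ∀ (S H : ℕ), 1 ≤ S → 1 ≤ H → H ^ 2 ≤ S ^ n →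
    (∀ a b, a + b ≤ n → |e a b| ≤ (B * S ^ (n - (a + b)) : ℤ)) → ∀ s : ℕ, K * S ≤ (2 : ℝ) ^ s → ∀ T : Finset (ℤ × ℤ),
    (∀ P ∈ T, |ev n e P.1 P.2| ≤ (H : ℤ) ∧ |P.2| ≤ |P.1| ∧ sc P.1 = s) →
    (T.card : ℝ) ≤ C * (S : ℝ) ^ (5 / 6 : ℝ) := by
  classical
  obtain ⟨c₀, hc₀, hgd⟩ := Pool.Agent.H8.UC.gd0 n (by omega) e₀ h
  have hB1 : (1 : ℝ) ≤ B := by exact_mod_cast (by omega : 1 ≤ B)
  have hB0 : (0 : ℝ) ≤ B := by linarith
  -- the form
  have hdeg : (fm e₀ n).natDegree = n := by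
    refine le_antisymm (fm_deg e₀ n) (le_natDegree_of_ne_zero ?_)
    rw [fm_coeff, if_pos le_rfl, Nat.sub_self]
    exact h.1
  have hsep : IsCoprime ((fm e₀ n).map (Int.castRingHom ℂ)) (derivative ((fm e₀ n).map (Int.castRingHom ℂ))) := by
    have h1 : ((fm e₀ n).map (Int.castRingHom ℚ)).Separable := h.2.separable
    have h2 := h1.map (f := algebraMap ℚ ℂ)
    rw [Polynomial.map_map] at h2
    have e1 : (algebraMap ℚ ℂ).comp (Int.castRingHom ℚ) = Int.castRingHom ℂ := RingHom.ext_int _ _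
    rw [e1] at h2
    exact h2
  obtain ⟨ρ, Cr, Tr, κ, hρ, hCr, hTr, hκ, hroots, hnear⟩ := rts n (by omega) (fm e₀ n) hdeg hsep
  obtain ⟨Rt, hRt⟩ : ∃ Rt : Finset ℝ, Rt = ((fm e₀ n).map (Int.castRingHom ℝ)).roots.toFinset := ⟨_, rfl⟩
  have hmap0 : (fm e₀ n).map (Int.castRingHom ℝ) ≠ 0 := by
    rw [Polynomial.map_ne_zero_iff Int.cast_injective]
    rintro h0
    rw [h0, natDegree_zero] at hdeg
    omega
  have hmem : ∀ r : ℝ, aeval r (fm e₀ n) = 0 ↔ r ∈ Rt := by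
    intro r
    rw [hRt, Multiset.mem_toFinset, mem_roots hmap0, IsRoot.def, eval_map, aeval_def]
    rfl
  have hRc : Rt.card ≤ n := by
    rw [hRt]
    exact (Multiset.toFinset_card_le _).trans ((card_roots' _).trans (natDegree_map_le.trans hdeg.le))
  obtain ⟨θ, hθ, hθ1, hθ'⟩ := near_root (fm e₀ n) κ hκ Rt (fun r hr => (hroots r ((hmem r).2 hr)).2)
  obtain ⟨C, K₁, hC, hK₁, hcell⟩ := cell n hn B c₀ (κ / 2) θ hB1 hc₀ (by positivity) hθ (by linarith)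
  obtain ⟨A, hA⟩ : ∃ A : ℝ, A = cD n * B + 1 := ⟨_, rfl⟩
  have hA0 : 0 < A := by
    rw [hA]
    have := cD_pos n
    positivity
  refine ⟨n * (2 * C), K₁ + A / ρ + A * Cr / θ, by positivity, ?_, ?_⟩
  · have : 0 ≤ A / ρ + A * Cr / θ := by positivity
    linarith
  intro e he S H hS hH hHS hb s hs T hT
  obtain ⟨X, hX⟩ : ∃ X : ℝ, X = (2 : ℝ) ^ s := ⟨_, rfl⟩
  rw [← hX] at hs
  obtain ⟨hI, hG, _⟩ := hgd e he
  have hf : fm e n = fm e₀ n := fm_cong n e e₀ he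
  have hS1 : (1 : ℝ) ≤ S := by exact_mod_cast hS
  have hS0 : (0 : ℝ) < S := by linarith
  have hp1 : 0 ≤ A / ρ := by positivity
  have hp2 : 0 ≤ A * Cr / θ := by positivity
  have hKX : K₁ * S ≤ X := by
    refine le_trans ?_ hs
    apply mul_le_mul_of_nonneg_right _ hS0.le
    linarith
  have hSX : (S : ℝ) ≤ X := by nlinarith
  have hX1 : 1 ≤ X := hS1.trans hSX
  have hX0 : 0 < X := by linarith
  have hq0 : 0 < (S : ℝ) / X := by positivity
  have hq1 : (S : ℝ) / X ≤ 1 := by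
    rw [div_le_one hX0]
    exact hSX
  have hqA1 : A * ((S : ℝ) / X) ≤ ρ := by
    have h1 : A / ρ * S ≤ X := by
      refine le_trans ?_ hs
      apply mul_le_mul_of_nonneg_right _ hS0.le
      linarith
    rw [← mul_div_assoc, div_le_iff₀ hX0]
    calc A * S = ρ * (A / ρ * S) := by field_simp
      _ ≤ ρ * X := mul_le_mul_of_nonneg_left h1 hρ.le
  have hqA2 : Cr * (A * ((S : ℝ) / X)) ≤ θ := by
    have h1 : A * Cr / θ * S ≤ X := by
      refine le_trans ?_ hs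
      apply mul_le_mul_of_nonneg_right _ hS0.le
      linarith
    have e1 : Cr * (A * ((S : ℝ) / X)) = Cr * A * S / X := by ring
    rw [e1, div_le_iff₀ hX0]
    calc Cr * A * S = θ * (A * Cr / θ * S) := by field_simp
      _ ≤ θ * X := mul_le_mul_of_nonneg_left h1 hθ.le
  obtain ⟨m, hm⟩ : ∃ m, n = m + 2 := ⟨n - 2, by omega⟩
  have hHm : (H : ℝ) ≤ (S : ℝ) ^ m := by
    have h1 : H ^ 2 ≤ (S ^ m) ^ 2 := by
      rw [← pow_mul]
      refine hHS.trans (Nat.pow_le_pow_right hS (by omega))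
    have h2 : H ≤ S ^ m := by
      by_contra hcon
      push Not at hcon
      have := Nat.pow_lt_pow_left hcon (by norm_num : 2 ≠ 0)
      omega
    exact_mod_cast h2
  have hb' : ∀ a b, a + b ≤ n → |(e a b : ℝ)| ≤ (B : ℝ) * (S : ℝ) ^ (n - (a + b)) := by
    intro a b hab
    exact_mod_cast hb a b hab
  -- facts on a point
  have hpt : ∀ P ∈ T, P.1 ≠ 0 ∧ X ≤ |(P.1 : ℝ)| ∧ |(P.1 : ℝ)| ≤ 2 * X ∧ |(P.2 : ℝ) / P.1| ≤ 1 ∧
      ∃ r ∈ Rt, |(P.2 : ℝ) / P.1 - r| ≤ θ := by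
    intro P hP
    obtain ⟨p1, p2, p3⟩ := hT P hP
    have hx2 := lt_sc P.1
    have hx0 : P.1 ≠ 0 := by
      intro h0
      have h1 : |P.2| ≤ 0 := by rw [h0, abs_zero] at p2; exact p2
      have h2 : sc P.1 = 0 := by
        rw [h0]
        simp [sc]
      rw [← p3, h2, pow_zero] at hX
      -- `X = 1`: then `K S ≤ 1`
      have h3 : K₁ + A / ρ + A * Cr / θ ≤ 1 := by
        have : (K₁ + A / ρ + A * Cr / θ) * 1 ≤ (K₁ + A / ρ + A * Cr / θ) * S :=
          mul_le_mul_of_nonneg_left hS1 (by linarith)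
        linarith
      have h4 : 0 < A / ρ := by positivity
      linarith
    have hx1 := sc_le hx0
    rw [p3, ← hX] at hx1 hx2
    have hax : 0 < |(P.1 : ℝ)| := by linarith
    have ht : |(P.2 : ℝ) / P.1| ≤ 1 := by
      rw [abs_div, div_le_one hax]
      exact_mod_cast p2
    refine ⟨hx0, hx1, hx2.le, ht, ?_⟩
    have hux : |(S : ℝ) / P.1| ≤ S / X := by
      rw [abs_div, abs_of_pos hS0]
      exact div_le_div_of_nonneg_left hS0.le hX0 hx1
    have h1 := Ph_lipu n hB0 (bs5_le n e hS0 hB0 hb') (hux.trans hq1) (by simp : |(0 : ℝ)| ≤ 1) (ht.trans (by norm_num : (1 : ℝ) ≤ 2))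
    rw [sub_zero, Ph5_zero n e hS0.ne'] at h1
    have h2 : |Ph n (bs5 n e S) (S / P.1) ((P.2 : ℝ) / P.1)| ≤ S / X := by
      have h3 := ev_Ph5 n e hS0.ne' P.1 P.2 hx0
      have h4 : |(ev n e P.1 P.2 : ℝ)| ≤ H := by exact_mod_cast p1
      rw [h3, abs_mul, abs_pow] at h4
      have h5 : |Ph n (bs5 n e S) (S / P.1) ((P.2 : ℝ) / P.1)| ≤ H / |(P.1 : ℝ)| ^ n := by
        rw [le_div_iff₀ (by positivity)]
        linarith
      refine h5.trans ?_
      calc (H : ℝ) / |(P.1 : ℝ)| ^ n ≤ (S : ℝ) ^ m / X ^ n := by gcongr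
        _ = ((S : ℝ) / X) ^ m * (1 / X ^ 2) := by
            rw [hm, div_pow, pow_add]
            field_simp
        _ ≤ ((S : ℝ) / X) ^ 1 * 1 := by
            refine mul_le_mul (pow_le_pow_of_le_one hq0.le hq1 (by omega)) ?_ (by positivity) (by positivity)
            rw [div_le_one (by positivity)]
            exact one_le_pow₀ hX1
        _ = S / X := by rw [pow_one, mul_one]
    have h3 : |aeval ((P.2 : ℝ) / P.1) (fm e n)| ≤ A * (S / X) := by
      have h4 : cD n * B * |(S : ℝ) / P.1| ≤ cD n * B * (S / X) :=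
        mul_le_mul_of_nonneg_left hux (mul_nonneg (cD_pos n).le hB0)
      have h5 : |aeval ((P.2 : ℝ) / P.1) (fm e n)| ≤ |Ph n (bs5 n e S) (S / P.1) ((P.2 : ℝ) / P.1)| +
          |Ph n (bs5 n e S) (S / P.1) ((P.2 : ℝ) / P.1) - aeval ((P.2 : ℝ) / P.1) (fm e n)| := by
        have := abs_sub (Ph n (bs5 n e S) (S / P.1) ((P.2 : ℝ) / P.1))
          (Ph n (bs5 n e S) (S / P.1) ((P.2 : ℝ) / P.1) - aeval ((P.2 : ℝ) / P.1) (fm e n))
        rwa [sub_sub_cancel] at this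
      rw [hA, add_mul, one_mul]
      linarith
    rw [hf] at h3
    obtain ⟨r, hr, hr'⟩ := hnear _ (h3.trans hqA1)
    refine ⟨r, (hmem r).1 hr, hr'.trans ?_⟩
    calc Cr * |aeval ((P.2 : ℝ) / P.1) (fm e₀ n)| ≤ Cr * (A * (S / X)) := mul_le_mul_of_nonneg_left h3 (by linarith)
      _ ≤ θ := hqA2
  -- one root, one sign
  have hcs : ∀ r ∈ Rt, ∀ σ : Bool, ((T.filter fun P => |(P.2 : ℝ) / P.1 - r| ≤ θ ∧ decide (0 < P.1) = σ).card : ℝ) ≤
      C * (S : ℝ) ^ (5 / 6 : ℝ) := by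
    intro r hr σ
    by_cases hne : (T.filter fun P => |(P.2 : ℝ) / P.1 - r| ≤ θ ∧ decide (0 < P.1) = σ).Nonempty
    · obtain ⟨P₀, hP₀⟩ := hne
      rw [Finset.mem_filter] at hP₀
      have hr2 : |r| + θ ≤ 2 := by
        obtain ⟨_, _, _, q4, _⟩ := hpt P₀ hP₀.1
        have h1 : |r| ≤ |(P₀.2 : ℝ) / P₀.1| + |(P₀.2 : ℝ) / P₀.1 - r| := by
          have := abs_sub ((P₀.2 : ℝ) / P₀.1) ((P₀.2 : ℝ) / P₀.1 - r)
          rwa [sub_sub_cancel] at this
        linarith [hP₀.2.1]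
      have hroot : aeval r (fm e n) = 0 := by
        rw [hf]
        exact (hmem r).2 hr
      have hder : ∀ t, |t - r| ≤ θ → κ / 2 ≤ |aeval t (derivative (fm e n))| := by
        intro t ht
        rw [hf]
        exact hθ' r hr t ht
      cases σ with
      | true =>
        refine hcell e S H hS hH hHS hb' hI hG r hroot hr2 hder X X (2 * X) hKX (by linarith) (by linarith) (Or.inl hX0) ?_ _ ?_
        · intro x hx
          rw [abs_of_pos (by linarith [hx.1])]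
          exact hx
        · intro P hP
          rw [Finset.mem_filter] at hP
          obtain ⟨hP1, hP2, hP3⟩ := hP
          obtain ⟨q1, q2, q3, _, _⟩ := hpt P hP1
          have hpos : 0 < P.1 := by simpa using hP3
          have hpos' : (0 : ℝ) < P.1 := by exact_mod_cast hpos
          rw [abs_of_pos hpos'] at q2 q3
          exact ⟨(hT P hP1).1, (hT P hP1).2.1, q2, q3, hP2⟩
      | false =>
        refine hcell e S H hS hH hHS hb' hI hG r hroot hr2 hder X (-(2 * X)) (-X) hKX (by linarith) (by linarith) (Or.inr (by linarith)) ?_ _ ?_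
        · intro x hx
          rw [abs_of_neg (by linarith [hx.2])]
          constructor <;> linarith [hx.1, hx.2]
        · intro P hP
          rw [Finset.mem_filter] at hP
          obtain ⟨hP1, hP2, hP3⟩ := hP
          obtain ⟨q1, q2, q3, _, _⟩ := hpt P hP1
          have hneg : P.1 < 0 := by
            have : ¬ 0 < P.1 := by simpa using hP3
            omega
          have hneg' : (P.1 : ℝ) < 0 := by exact_mod_cast hneg
          rw [abs_of_neg hneg'] at q2 q3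
          exact ⟨(hT P hP1).1, (hT P hP1).2.1, by linarith, by linarith, hP2⟩
    · rw [Finset.not_nonempty_iff_eq_empty.1 hne, Finset.card_empty]
      push_cast
      positivity
  have hsub : T ⊆ Rt.biUnion fun r => (Finset.univ : Finset Bool).biUnion fun σ =>
      T.filter fun P => |(P.2 : ℝ) / P.1 - r| ≤ θ ∧ decide (0 < P.1) = σ := by
    intro P hP
    obtain ⟨_, _, _, _, r, hr, hr'⟩ := hpt P hP
    rw [Finset.mem_biUnion]
    refine ⟨r, hr, ?_⟩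
    rw [Finset.mem_biUnion]
    exact ⟨decide (0 < P.1), Finset.mem_univ _, Finset.mem_filter.2 ⟨hP, hr', rfl⟩⟩
  have h1 : (T.card : ℝ) ≤ ∑ r ∈ Rt, ∑ σ : Bool, ((T.filter fun P => |(P.2 : ℝ) / P.1 - r| ≤ θ ∧ decide (0 < P.1) = σ).card : ℝ) := by
    have h2 := (Finset.card_le_card hsub).trans Finset.card_biUnion_le
    have h3 : T.card ≤ ∑ r ∈ Rt, ∑ σ : Bool, (T.filter fun P => |(P.2 : ℝ) / P.1 - r| ≤ θ ∧ decide (0 < P.1) = σ).card :=
      h2.trans (Finset.sum_le_sum fun r _ => Finset.card_biUnion_le)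
    exact_mod_cast h3
  have h2 : ∀ r ∈ Rt, ∑ σ : Bool, ((T.filter fun P => |(P.2 : ℝ) / P.1 - r| ≤ θ ∧ decide (0 < P.1) = σ).card : ℝ) ≤
      2 * (C * (S : ℝ) ^ (5 / 6 : ℝ)) := by
    intro r hr
    refine (Finset.sum_le_card_nsmul _ _ _ fun σ _ => hcs r hr σ).trans ?_
    simp
  have h3 : (T.card : ℝ) ≤ Rt.card * (2 * (C * (S : ℝ) ^ (5 / 6 : ℝ))) := by
    refine h1.trans ((Finset.sum_le_card_nsmul _ _ _ h2).trans ?_)
    rw [nsmul_eq_mul]
  have h4 : (Rt.card : ℝ) ≤ n := by exact_mod_cast hRc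
  have h5 : 0 ≤ 2 * (C * (S : ℝ) ^ (5 / 6 : ℝ)) := by positivity
  calc (T.card : ℝ) ≤ Rt.card * (2 * (C * (S : ℝ) ^ (5 / 6 : ℝ))) := h3
    _ ≤ n * (2 * (C * (S : ℝ) ^ (5 / 6 : ℝ))) := mul_le_mul_of_nonneg_right h4 h5
    _ = _ := by ring

end Pool.Agent.H99.UC
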