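import Pool.Agent.H99.UC.Large
import Pool.Agent.H88.TS.Big

/-! # [H99 UC SPN] Upper part in the span of the derivatives, contact `≥ 3` at infinity: no large integer zero

`span_flex`: every integer zero of every such `F` with leading form `f` and coefficients `≤ h` is in the box `h^E`; `span_flex_w`: `|x|, |y| ≤ C S⁶` if the
coefficient of `x^a y^b` is `≤ B S^(n-a-b)`. `big'`: the conclusion of `Pool.Agent.H88.TS.big` without the flex condition when `G_(n-1)` is in the span (e.g. `G = f`). -/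

namespace Pool.Agent.H99.UC

open MvPolynomial Pool.Agent.H72.ES

/-- `F_(n-1)` is in the span of the derivatives of `F_n` -/
def Spn (n : ℕ) (F : MvPolynomial (Fin 2) ℤ) : Prop :=
  ∃ w : Fin 2 → ℚ, map (Int.castRingHom ℚ) (homogeneousComponent (n - 1) F) =
    ∑ i, C (w i) * pderiv i (map (Int.castRingHom ℚ) (homogeneousComponent n F))

/-- the coefficients of the span condition -/
theorem spn_arr {n : ℕ} (hn : 1 ≤ n) {F : MvPolynomial (Fin 2) ℤ} {w : Fin 2 → ℚ}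
    (hw : map (Int.castRingHom ℚ) (homogeneousComponent (n - 1) F) =
      ∑ i, C (w i) * pderiv i (map (Int.castRingHom ℚ) (homogeneousComponent n F))) (j : ℕ) (hj : j < n) :
    ((arrM F (n - 1 - j) j : ℤ) : ℚ) = w 0 * (n - j : ℕ) * (arrM F (n - j) j : ℤ) +
      w 1 * (j + 1 : ℕ) * (arrM F (n - 1 - j) (j + 1) : ℤ) := by
  have h1 := congrArg (fun q => coeff (ex (n - 1 - j) j) q) hw
  simp only [Fin.sum_univ_two, coeff_add, coeff_C_mul, coeff_pderiv, coeff_map, coeff_homogeneousComponent] at h1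
  have h2 : (ex (n - 1 - j) j).degree = n - 1 := by
    rw [ex_deg, ex_zero, ex_one]
    omega
  have h3 : ex (n - 1 - j) j + Finsupp.single 0 1 = ex (n - j) j := by
    rw [← ex_eta (ex (n - 1 - j) j + Finsupp.single 0 1)]
    congr 1
    · rw [Finsupp.add_apply, ex_zero, Finsupp.single_eq_same]
      omega
    · rw [Finsupp.add_apply, ex_one, Finsupp.single_eq_of_ne (by decide), add_zero]
  have h4 : ex (n - 1 - j) j + Finsupp.single 1 1 = ex (n - 1 - j) (j + 1) := by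
    rw [← ex_eta (ex (n - 1 - j) j + Finsupp.single 1 1)]
    congr 1
    · rw [Finsupp.add_apply, ex_zero, Finsupp.single_eq_of_ne (by decide), add_zero]
    · rw [Finsupp.add_apply, ex_one, Finsupp.single_eq_same]
  have h5 : (ex (n - j) j).degree = n := by
    rw [ex_deg, ex_zero, ex_one]
    omega
  have h5' : (ex (n - 1 - j) (j + 1)).degree = n := by
    rw [ex_deg, ex_zero, ex_one]
    omega
  rw [if_pos h2, h3, h4, ex_zero, ex_one, if_pos h5, if_pos h5'] at h1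
  have h6 : ((n - j : ℕ) : ℚ) = ((n - 1 - j : ℕ) : ℚ) + 1 := by
    have : n - j = n - 1 - j + 1 := by omega
    rw [this]
    push_cast
    ring
  have h7 : ((j + 1 : ℕ) : ℚ) = (j : ℚ) + 1 := by push_cast; ring
  rw [h6, h7]
  unfold arrM
  simp only [eq_intCast] at h1
  linear_combination h1

theorem span_flex_w (n : ℕ) (hn : 4 ≤ n) (f : MvPolynomial (Fin 2) ℤ) (hf : f.IsHomogeneous n)
    (hirr : Irreducible (map (Int.castRingHom ℚ) f)) (B : ℝ) (hB : 1 ≤ B) : ∃ C : ℝ, 1 ≤ C ∧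
    ∀ (F : MvPolynomial (Fin 2) ℤ) (S : ℝ), F.totalDegree ≤ n → homogeneousComponent n F = f → Spn n F →
    ¬ Pool.Agent.H88.TS.Flx n F → 1 ≤ S → (∀ i j, i + j ≤ n → |((arrM F i j : ℤ) : ℝ)| ≤ B * S ^ (n - (i + j))) →
    ∀ P : Fin 2 → ℤ, eval P F = 0 → |(P 0 : ℝ)| ≤ C * S ^ 6 ∧ |(P 1 : ℝ)| ≤ C * S ^ 6 := by
  obtain ⟨hφ, hφirr, hsep⟩ := phi_facts (by omega) f hf hirr
  obtain ⟨C₃, hC₃, hcc⟩ := cc n hn _ hφ hφirr hsep B hB
  refine ⟨C₃, hC₃, ?_⟩
  intro F S hF hFf hsp hfl hS hFB P hP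
  obtain ⟨w, hw⟩ := hsp
  unfold Pool.Agent.H88.TS.Flx at hfl
  push Not at hfl
  obtain ⟨θ, β, hθβ⟩ := hfl
  have hct : (ev n (cst (Polynomial ℝ) (arrM F)) Polynomial.X
      (Polynomial.C θ * Polynomial.X + Polynomial.C β)).natDegree < n - 2 := by
    have h1 : (aeval ![Polynomial.X, Polynomial.C θ * Polynomial.X + Polynomial.C β] F : Polynomial ℝ) =
        ev n (cst (Polynomial ℝ) (arrM F)) Polynomial.X (Polynomial.C θ * Polynomial.X + Polynomial.C β) := by
      rw [← eval₂_arrM hF, aeval_def]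
      congr 1
    rw [← h1]
    exact hθβ
  obtain ⟨hθ, hfx⟩ := contact n hn (arrM F) θ β hct
  rw [part0_eq hFf] at hθ
  have hz : ev n (cst ℝ (arrM F)) (P 0 : ℝ) (P 1 : ℝ) = 0 := by
    rw [← eval₂_arrM hF]
    have h1 := eval₂_comp_left (Int.castRingHom ℝ) (RingHom.id ℤ) P F
    have h2 : eval₂ (RingHom.id ℤ) P F = 0 := hP
    rw [h2, map_zero, RingHomCompTriple.comp_eq] at h1
    have h3 : (![(P 0 : ℝ), (P 1 : ℝ)] : Fin 2 → ℝ) = (Int.castRingHom ℝ) ∘ P := by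
      funext i
      fin_cases i <;> rfl
    rw [h3]
    exact h1.symm
  exact hcc (arrM F) S hS (part0_eq hFf) hFB (w 0) (w 1) (spn_arr (by omega) hw) θ hθ hfx (P 0) (P 1) hz

theorem span_flex (n : ℕ) (hn : 4 ≤ n) (f : MvPolynomial (Fin 2) ℤ) (hf : f.IsHomogeneous n)
    (hirr : Irreducible (map (Int.castRingHom ℚ) f)) : ∃ E : ℕ, ∀ F : MvPolynomial (Fin 2) ℤ, F.totalDegree ≤ n →
    homogeneousComponent n F = f → Spn n F → ¬ Pool.Agent.H88.TS.Flx n F → ∀ h : ℕ, 2 ≤ h → (∀ m, |F.coeff m| ≤ (h : ℤ)) →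
    ∀ P : Fin 2 → ℤ, eval P F = 0 → max |P 0| |P 1| ≤ (h : ℤ) ^ E := by
  obtain ⟨B, hB, hfB⟩ : ∃ B : ℝ, 1 ≤ B ∧ ∀ m, |((f.coeff m : ℤ) : ℝ)| ≤ B := by
    refine ⟨((f.support.sup fun m => (f.coeff m).natAbs : ℕ) : ℝ) + 1, by
      have : (0 : ℝ) ≤ ((f.support.sup fun m => (f.coeff m).natAbs : ℕ) : ℝ) := Nat.cast_nonneg _
      linarith, fun m => ?_⟩
    have h1 : |((f.coeff m : ℤ) : ℝ)| = (((f.coeff m).natAbs : ℕ) : ℝ) := by
      rw [Nat.cast_natAbs, Int.cast_abs]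
    rw [h1]
    by_cases hm : m ∈ f.support
    · have h2 := Finset.le_sup (f := fun m => (f.coeff m).natAbs) hm
      have h3 : (((f.coeff m).natAbs : ℕ) : ℝ) ≤ ((f.support.sup fun m => (f.coeff m).natAbs : ℕ) : ℝ) := by exact_mod_cast h2
      linarith
    · rw [MvPolynomial.notMem_support_iff.1 hm, Int.natAbs_zero, Nat.cast_zero]
      have h2 : (0 : ℝ) ≤ ((f.support.sup fun m => (f.coeff m).natAbs : ℕ) : ℝ) := Nat.cast_nonneg _
      linarith
  obtain ⟨C₃, hC₃, hcc⟩ := span_flex_w n hn f hf hirr B hB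
  obtain ⟨k, hk⟩ : ∃ k : ℕ, C₃ ≤ 2 ^ k := (pow_unbounded_of_one_lt C₃ one_lt_two).imp fun _ h => h.le
  refine ⟨6 + k, ?_⟩
  intro F hF hFf hsp hfl h hh hco P hP
  have hhr : (2 : ℝ) ≤ h := by exact_mod_cast hh
  have hGB : ∀ i j, i + j ≤ n → |((arrM F i j : ℤ) : ℝ)| ≤ B * (h : ℝ) ^ (n - (i + j)) := by
    intro i j hij
    rcases Nat.eq_or_lt_of_le hij with e | e
    · rw [arrM_top hFf e, e, Nat.sub_self, pow_zero, mul_one]
      exact hfB _
    · have h1 : |((arrM F i j : ℤ) : ℝ)| ≤ h := by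
        have := hco (ex i j)
        unfold arrM
        exact_mod_cast this
      have h2 : (h : ℝ) ≤ (h : ℝ) ^ (n - (i + j)) := le_self_pow₀ (by linarith) (by omega)
      have h3 : (h : ℝ) ^ (n - (i + j)) ≤ B * (h : ℝ) ^ (n - (i + j)) := le_mul_of_one_le_left (by positivity) hB
      linarith
  obtain ⟨hx, hy⟩ := hcc F h hF hFf hsp hfl (by linarith) hGB P hP
  have hC : C₃ * (h : ℝ) ^ 6 ≤ (h : ℝ) ^ (6 + k) := by
    calc C₃ * (h : ℝ) ^ 6 ≤ (h : ℝ) ^ k * (h : ℝ) ^ 6 := by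
          refine mul_le_mul_of_nonneg_right (hk.trans ?_) (by positivity)
          exact pow_le_pow_left₀ (by norm_num) hhr k
      _ = (h : ℝ) ^ (6 + k) := by rw [← pow_add, add_comm]
  refine max_le ?_ ?_
  · exact_mod_cast hx.trans hC
  · exact_mod_cast hy.trans hC

/-- degree on a line -/
theorem line_deg {j : ℕ} {L : MvPolynomial (Fin 2) ℤ} (hL : L.totalDegree ≤ j) (θ β : ℝ) :
    (aeval ![Polynomial.X, Polynomial.C θ * Polynomial.X + Polynomial.C β] L : Polynomial ℝ).natDegree ≤ j := by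
  have h1 : (aeval ![Polynomial.X, Polynomial.C θ * Polynomial.X + Polynomial.C β] L : Polynomial ℝ) =
      ev j (cst (Polynomial ℝ) (arrM L)) Polynomial.X (Polynomial.C θ * Polynomial.X + Polynomial.C β) := by
    rw [← eval₂_arrM hL, aeval_def]
    congr 1
  rw [h1, line_poly, Polynomial.natDegree_le_iff_coeff_eq_zero]
  intro N hN
  exact coeff_line_big j (fun a b => tc j (arrM L) θ a b * β ^ b) N hN

/-- large points, upper part without a flex at infinity or in the span -/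
theorem big' (n j : ℕ) (G : MvPolynomial (Fin 2) ℤ) (hn : 5 ≤ n) (hj : 3 ≤ j) (hjn : j < n) (hdeg : G.totalDegree ≤ n)
    (hirr : Irreducible (map (Int.castRingHom ℚ) (homogeneousComponent n G)))
    (hflex : j + 3 ≤ n → Pool.Agent.H88.TS.Flx n G ∨ Spn n G) : ∃ (E : ℕ) (C : ℝ), 0 ≤ C ∧ ∀ B H : ℕ, 2 ≤ B →
    (∀ m, |G.coeff m| + 1 ≤ (B : ℤ)) → 1 ≤ H → ∀ T : Finset (Pool.Agent.H8.AA.Ix j → ℤ),
      (∀ c ∈ T, (∀ p, |c p| ≤ (H : ℤ)) ∧ ∃ P : Fin 2 → ℤ, eval P (G + Pool.Agent.H8.AA.pol c) = 0 ∧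
        ((B * H : ℕ) : ℝ) ^ E < max |(P 0 : ℝ)| |(P 1 : ℝ)|) →
      (T.card : ℝ) ≤ C * (2 * (H : ℝ) + 1) ^ (Fintype.card (Pool.Agent.H8.AA.Ix j) - 3) := by
  by_cases hF : j + 3 ≤ n → Pool.Agent.H88.TS.Flx n G
  · exact Pool.Agent.H88.TS.big n j G ⟨hn, hj, hjn, hdeg, hirr, hF⟩
  rw [Classical.not_imp] at hF
  obtain ⟨hj3, hnf⟩ := hF
  have hsp : Spn n G := (hflex hj3).resolve_left hnf
  obtain ⟨E, hE⟩ := span_flex n (by omega) (homogeneousComponent n G) (homogeneousComponent_isHomogeneous n G) hirr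
  refine ⟨E, 0, le_rfl, ?_⟩
  intro B H hB hG hH T hT
  have hT0 : T = ∅ := by
    rw [Finset.eq_empty_iff_forall_notMem]
    intro c hc
    obtain ⟨hcH, P, hP, hlarge⟩ := hT c hc
    have hcd : (Pool.Agent.H8.AA.pol c).totalDegree ≤ j := Pool.Agent.H8.AA.pol_deg c
    have hd : (G + Pool.Agent.H8.AA.pol c).totalDegree ≤ n :=
      (totalDegree_add _ _).trans (max_le hdeg (hcd.trans hjn.le))
    have hh : ∀ k, j < k → homogeneousComponent k (G + Pool.Agent.H8.AA.pol c) = homogeneousComponent k G := by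
      intro k hk
      rw [map_add, homogeneousComponent_eq_zero k (Pool.Agent.H8.AA.pol c) (lt_of_le_of_lt hcd hk), add_zero]
    have hsp' : Spn n (G + Pool.Agent.H8.AA.pol c) := by
      obtain ⟨w, hw⟩ := hsp
      exact ⟨w, by rw [hh _ (by omega), hh _ hjn]; exact hw⟩
    have hnf' : ¬ Pool.Agent.H88.TS.Flx n (G + Pool.Agent.H8.AA.pol c) := by
      intro h1
      apply hnf
      intro θ β
      have h2 := h1 θ β
      have h3 := line_deg hcd θ β
      have h4 : (aeval ![Polynomial.X, Polynomial.C θ * Polynomial.X + Polynomial.C β] G : Polynomial ℝ) =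
          aeval ![Polynomial.X, Polynomial.C θ * Polynomial.X + Polynomial.C β] (G + Pool.Agent.H8.AA.pol c) -
          aeval ![Polynomial.X, Polynomial.C θ * Polynomial.X + Polynomial.C β] (Pool.Agent.H8.AA.pol c) := by
        rw [map_add, add_sub_cancel_right]
      rw [h4, Polynomial.natDegree_sub_eq_left_of_natDegree_lt (by omega)]
      exact h2
    have h1 := hE _ hd (hh n hjn) hsp' hnf' (B * H) (by nlinarith) (by
      intro m
      rw [coeff_add, Pool.Agent.H8.AA.pol_coeff]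
      have h4 : |Pool.Agent.H8.AA.co c (m 0) (m 1)| ≤ (H : ℤ) := by
        unfold Pool.Agent.H8.AA.co
        split_ifs with h5
        · exact hcH _
        · simp
      have h5 := hG m
      have h6 := abs_add_le (G.coeff m) (Pool.Agent.H8.AA.co c (m 0) (m 1))
      have h7 : (0 : ℤ) ≤ ((B : ℤ) - 1) * ((H : ℤ) - 1) :=
        mul_nonneg (by omega) (by omega)
      push_cast
      nlinarith) P hP
    have h2 : max |(P 0 : ℝ)| |(P 1 : ℝ)| ≤ ((B * H : ℕ) : ℝ) ^ E := by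
      have h3 : (((max |P 0| |P 1| : ℤ)) : ℝ) ≤ (((((B * H : ℕ) : ℤ)) ^ E : ℤ) : ℝ) := by exact_mod_cast h1
      push_cast at h3 ⊢
      exact h3
    linarith
  rw [hT0, Finset.card_empty]
  simp

end Pool.Agent.H99.UC
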