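import Pool.Agent.H99.UC.Rol

/-! # [H99 UC WIN] Windows: poor windows, and rich windows with their lines -/

namespace Pool.Agent.H99.UC

open Finset

theorem windows (T : Finset (ℤ × ℤ)) (lo hi L : ℝ) (hL : 0 < L) (m₀ : ℕ) (hm₀ : 1 ≤ m₀) (M N : ℝ) (hM : 0 ≤ M)
    (hT : ∀ P ∈ T, lo ≤ (P.1 : ℝ) ∧ (P.1 : ℝ) ≤ hi) (hinj : ∀ P ∈ T, ∀ Q ∈ T, P.1 = Q.1 → P = Q) (hlh : lo ≤ hi)
    (hcol : ∀ P ∈ T, ∀ Q ∈ T, ∀ R ∈ T, |(P.1 : ℝ) - Q.1| ≤ L → |(P.1 : ℝ) - R.1| ≤ L → |(Q.1 : ℝ) - R.1| ≤ L →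
      (Q.1 - P.1) * (R.2 - P.2) = (R.1 - P.1) * (Q.2 - P.2))
    (hline : ∀ (a b l : ℤ), 0 < a → ((T.filter fun P => a * P.2 - b * P.1 = l).card : ℝ) ≤ M)
    (hkeys : ∀ (Ks : Finset ((ℤ × ℤ) × ℤ)) (p q : (ℤ × ℤ) × ℤ → ℤ × ℤ), (∀ k ∈ Ks, p k ∈ T ∧ q k ∈ T ∧ 0 < k.1.1 ∧
        IsCoprime k.1.1 k.1.2 ∧ (∃ g : ℤ, (m₀ : ℤ) ≤ g ∧ (q k).1 - (p k).1 = g * k.1.1 ∧ (q k).2 - (p k).2 = g * k.1.2) ∧
        ((q k).1 : ℝ) - (p k).1 ≤ L ∧ k.1.1 * (p k).2 - k.1.2 * (p k).1 = k.2) →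
        (∀ k ∈ Ks, ∀ l ∈ Ks, k ≠ l → (p k).1 ≤ (p l).1 → (q k).1 < (p l).1) → (Ks.card : ℝ) ≤ N) :
    (T.card : ℝ) ≤ ((hi - lo) / L + 2) * m₀ + N * M := by
  classical
  obtain ⟨w, hw⟩ : ∃ w : ℤ × ℤ → ℤ, w = fun P => ⌊(P.1 : ℝ) / L⌋ := ⟨_, rfl⟩
  have hwc : ∀ P Q : ℤ × ℤ, w P = w Q → |(P.1 : ℝ) - Q.1| ≤ L := by
    intro P Q h
    rw [hw] at h
    have h0 : ⌊(P.1 : ℝ) / L⌋ = ⌊(Q.1 : ℝ) / L⌋ := h
    have h1 := Int.floor_le ((P.1 : ℝ) / L)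
    have h2 := Int.lt_floor_add_one ((P.1 : ℝ) / L)
    have h3 := Int.floor_le ((Q.1 : ℝ) / L)
    have h4 := Int.lt_floor_add_one ((Q.1 : ℝ) / L)
    rw [h0] at h1 h2
    have h5 : |(P.1 : ℝ) / L - (Q.1 : ℝ) / L| ≤ 1 := by
      rw [abs_le]
      constructor <;> linarith
    rw [← sub_div, abs_div, abs_of_pos hL, div_le_one hL] at h5
    exact h5
  have hwm : ∀ P Q : ℤ × ℤ, P.1 ≤ Q.1 → w P ≤ w Q := by
    intro P Q h
    rw [hw]
    apply Int.floor_le_floor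
    apply div_le_div_of_nonneg_right _ hL.le
    exact_mod_cast h
  obtain ⟨R, hR⟩ : ∃ R : Finset ℤ, R = (T.image w).filter fun i => m₀ < (T.filter fun P => w P = i).card := ⟨_, rfl⟩
  -- the data of a rich window
  have hex : ∀ i : ℤ, ∃ (P Q : ℤ × ℤ) (a b g : ℤ), i ∈ R → (P ∈ T ∧ w P = i) ∧ (Q ∈ T ∧ w Q = i) ∧ 0 < a ∧ IsCoprime a b ∧
      (m₀ : ℤ) ≤ g ∧ Q.1 - P.1 = g * a ∧ Q.2 - P.2 = g * b ∧ ∀ R' ∈ T, w R' = i → a * R'.2 - b * R'.1 = a * P.2 - b * P.1 := by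
    intro i
    by_cases hi : i ∈ R
    · rw [hR, mem_filter] at hi
      obtain ⟨P, hP, Q, hQ, a, b, g, ha, hg, hab, hc, e1, e2, hl⟩ := line_vec (T.filter fun P => w P = i)
        (fun P hP Q hQ h => hinj P (mem_filter.1 hP).1 Q (mem_filter.1 hQ).1 h)
        (fun P hP Q hQ R' hR' => by
          rw [mem_filter] at hP hQ hR'
          exact hcol P hP.1 Q hQ.1 R' hR'.1 (hwc P Q (hP.2.trans hQ.2.symm)) (hwc P R' (hP.2.trans hR'.2.symm))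
            (hwc Q R' (hQ.2.trans hR'.2.symm)))
        (by omega)
      refine ⟨P, Q, a, b, g, fun _ => ⟨mem_filter.1 hP, mem_filter.1 hQ, ha, hab, ?_, e1, e2, ?_⟩⟩
      · have h1 : (m₀ : ℤ) < ((T.filter fun P => w P = i).card : ℤ) := by exact_mod_cast hi.2
        omega
      · intro R' hR' hwR'
        exact hl R' (mem_filter.2 ⟨hR', hwR'⟩)
    · exact ⟨(0, 0), (0, 0), 0, 0, 0, fun h => absurd h hi⟩
  choose P Q a b g hd using hex
  obtain ⟨key, hkey⟩ : ∃ key : ℤ → (ℤ × ℤ) × ℤ, key = fun i => ((a i, b i), a i * (P i).2 - b i * (P i).1) := ⟨_, rfl⟩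
  obtain ⟨Ks, hKs⟩ : ∃ Ks : Finset ((ℤ × ℤ) × ℤ), Ks = R.image key := ⟨_, rfl⟩
  have hex2 : ∀ k : (ℤ × ℤ) × ℤ, ∃ i : ℤ, k ∈ Ks → i ∈ R ∧ key i = k := by
    intro k
    by_cases hk : k ∈ Ks
    · rw [hKs] at hk
      obtain ⟨i, hi, hik⟩ := mem_image.1 hk
      exact ⟨i, fun _ => ⟨hi, hik⟩⟩
    · exact ⟨0, fun h => absurd h hk⟩
  choose ω hω using hex2
  have hkeyN : (Ks.card : ℝ) ≤ N := by
    refine hkeys Ks (fun k => P (ω k)) (fun k => Q (ω k)) ?_ ?_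
    · intro k hk
      obtain ⟨h1, h2⟩ := hω k hk
      obtain ⟨⟨d1, d1'⟩, ⟨d2, d2'⟩, d3, d4, d5, d6, d7, d8⟩ := hd (ω k) h1
      have hk1 : k = ((a (ω k), b (ω k)), a (ω k) * (P (ω k)).2 - b (ω k) * (P (ω k)).1) := by
        rw [hkey] at h2
        exact h2.symm
      have e1 : k.1.1 = a (ω k) := congrArg (fun z : (ℤ × ℤ) × ℤ => z.1.1) hk1
      have e2 : k.1.2 = b (ω k) := congrArg (fun z : (ℤ × ℤ) × ℤ => z.1.2) hk1
      have e3 : k.2 = a (ω k) * (P (ω k)).2 - b (ω k) * (P (ω k)).1 := congrArg (fun z : (ℤ × ℤ) × ℤ => z.2) hk1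
      refine ⟨d1, d2, by rw [e1]; exact d3, by rw [e1, e2]; exact d4, ⟨g (ω k), d5, by rw [e1]; exact d6, by rw [e2]; exact d7⟩,
        ?_, by rw [e1, e2, e3]⟩
      have := hwc (Q (ω k)) (P (ω k)) (d2'.trans d1'.symm)
      exact (le_abs_self _).trans this
    · intro k hk l hl hkl hpl
      obtain ⟨h1, h2⟩ := hω k hk
      obtain ⟨h3, h4⟩ := hω l hl
      obtain ⟨⟨d1, d1'⟩, ⟨d2, d2'⟩, _⟩ := hd (ω k) h1
      obtain ⟨⟨f1, f1'⟩, ⟨f2, f2'⟩, _⟩ := hd (ω l) h3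
      have hne : ω k ≠ ω l := by
        intro h
        apply hkl
        rw [← h2, ← h4, h]
      have hle : ω k ≤ ω l := by
        have := hwm _ _ hpl
        rw [d1', f1'] at this
        exact this
      by_contra hcon
      push Not at hcon
      have := hwm _ _ hcon
      rw [d2', f1'] at this
      omega
  -- the two parts
  obtain ⟨T1, hT1⟩ : ∃ T1 : Finset (ℤ × ℤ), T1 = T.filter fun P => w P ∉ R := ⟨_, rfl⟩
  obtain ⟨T2, hT2⟩ : ∃ T2 : Finset (ℤ × ℤ), T2 = T.filter fun P => ¬ w P ∉ R := ⟨_, rfl⟩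
  have hsplit : T.card = T1.card + T2.card := by
    rw [hT1, hT2]
    exact (Finset.card_filter_add_card_filter_not _).symm
  have hp : (T1.card : ℝ) ≤ ((hi - lo) / L + 2) * m₀ := by
    have h1 : T1.card ≤ m₀ * (T1.image w).card := by
      refine Finset.card_le_mul_card_image _ m₀ fun i hi => ?_
      obtain ⟨P', hP', hPi⟩ := mem_image.1 hi
      rw [hT1, mem_filter] at hP'
      have h2 : (T1.filter fun x => w x = i) ⊆ (T.filter fun P => w P = i) := by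
        intro x hx
        rw [mem_filter, hT1, mem_filter] at hx
        exact mem_filter.2 ⟨hx.1.1, hx.2⟩
      refine (card_le_card h2).trans ?_
      by_contra hcon
      push Not at hcon
      apply hP'.2
      rw [hPi, hR, mem_filter]
      exact ⟨by rw [← hPi]; exact mem_image_of_mem _ hP'.1, hcon⟩
    have h2 : ((T1.image w).card : ℝ) ≤ (hi - lo) / L + 2 := by
      have h3 : T1.image w ⊆ Finset.Icc ⌊lo / L⌋ ⌊hi / L⌋ := by
        intro i hi'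
        obtain ⟨P', hP', hPi⟩ := mem_image.1 hi'
        rw [hT1, mem_filter] at hP'
        obtain ⟨h4, h5⟩ := hT P' hP'.1
        rw [mem_Icc, ← hPi, hw]
        exact ⟨Int.floor_le_floor (div_le_div_of_nonneg_right h4 hL.le), Int.floor_le_floor (div_le_div_of_nonneg_right h5 hL.le)⟩
      have h4 := card_le_card h3
      rw [Int.card_Icc] at h4
      have h5 : ⌊lo / L⌋ ≤ ⌊hi / L⌋ := Int.floor_le_floor (div_le_div_of_nonneg_right hlh hL.le)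
      have h6 : ((T1.image w).card : ℤ) ≤ ⌊hi / L⌋ + 1 - ⌊lo / L⌋ := by omega
      have h7 : (((T1.image w).card : ℤ) : ℝ) ≤ ((⌊hi / L⌋ + 1 - ⌊lo / L⌋ : ℤ) : ℝ) := by exact_mod_cast h6
      push_cast at h7
      have h8 := Int.floor_le (hi / L)
      have h9 := Int.lt_floor_add_one (lo / L)
      have h10 : (hi - lo) / L = hi / L - lo / L := by ring
      rw [h10]
      linarith
    have h3 : (T1.card : ℝ) ≤ ((m₀ * (T1.image w).card : ℕ) : ℝ) := by exact_mod_cast h1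
    push_cast at h3
    have h4 : (0 : ℝ) ≤ m₀ := Nat.cast_nonneg _
    nlinarith
  have hr : (T2.card : ℝ) ≤ N * M := by
    have hsub : T2 ⊆ Ks.biUnion fun k => T.filter fun P => k.1.1 * P.2 - k.1.2 * P.1 = k.2 := by
      intro P' hP'
      rw [hT2, mem_filter, not_not] at hP'
      rw [mem_biUnion]
      refine ⟨key (w P'), by rw [hKs]; exact mem_image_of_mem _ hP'.2, mem_filter.2 ⟨hP'.1, ?_⟩⟩
      rw [hkey]
      exact (hd (w P') hP'.2).2.2.2.2.2.2.2 P' hP'.1 rfl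
    have h1 : (T2.card : ℝ) ≤ ∑ k ∈ Ks, ((T.filter fun P => k.1.1 * P.2 - k.1.2 * P.1 = k.2).card : ℝ) := by
      have := (card_le_card hsub).trans card_biUnion_le
      exact_mod_cast this
    refine h1.trans ?_
    have h2 : ∀ k ∈ Ks, ((T.filter fun P => k.1.1 * P.2 - k.1.2 * P.1 = k.2).card : ℝ) ≤ M := by
      intro k hk
      obtain ⟨h3, h4⟩ := hω k hk
      refine hline k.1.1 k.1.2 k.2 ?_
      rw [← h4, hkey]
      exact (hd (ω k) h3).2.2.1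
    refine (Finset.sum_le_card_nsmul _ _ _ h2).trans ?_
    rw [nsmul_eq_mul]
    exact mul_le_mul_of_nonneg_right hkeyN hM
  rw [hsplit]
  push_cast
  linarith

end Pool.Agent.H99.UC
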